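import Pool.Agent.ROA.Rank

/-!
# Pigeonhole for the blocks of an oblivious program
-/

set_option autoImplicit false

universe u

namespace Pool.Agent.ROA

open Finset

namespace BLKM

/-! ### Blocks -/

theorem split_count {G : Type u} (p : G → Bool) :
    ∀ (l : List G) (c : ℕ), c ≤ l.countP p → ∃ u v, u ++ v = l ∧ u.countP p = c
  | [], c, h => ⟨[], [], rfl, by
      rw [List.countP_nil] at h ⊢
      omega⟩
  | a :: l, c, h => by
    by_cases hc : c = 0
    · exact ⟨[], a :: l, rfl, by rw [List.countP_nil, hc]⟩
    · by_cases ha : p a = true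
      · rw [List.countP_cons_of_pos ha] at h
        obtain ⟨u, v, h1, h2⟩ := split_count p l (c - 1) (by omega)
        refine ⟨a :: u, v, by rw [List.cons_append, h1], ?_⟩
        rw [List.countP_cons_of_pos ha]
        omega
      · rw [List.countP_cons_of_neg ha] at h
        obtain ⟨u, v, h1, h2⟩ := split_count p l c h
        refine ⟨a :: u, v, by rw [List.cons_append, h1], ?_⟩
        rw [List.countP_cons_of_neg ha]
        exact h2

theorem blocks {G : Type u} (p : G → Bool) (c : ℕ) (r : ℕ) : ∀ l : List G,
    l.countP p ≤ c * (r + 1) → ∃ L : List (List G), L.flatten = l ∧ L.length ≤ r + 1 ∧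
      ∀ u ∈ L, u.countP p ≤ c := by
  induction r with
  | zero =>
    intro l h
    refine ⟨[l], by simp, by simp, fun u hu => ?_⟩
    rw [List.mem_singleton.1 hu]
    omega
  | succ r ih =>
    intro l h
    by_cases hc : l.countP p ≤ c
    · refine ⟨[l], by simp, by simp, fun u hu => ?_⟩
      rw [List.mem_singleton.1 hu]
      exact hc
    · obtain ⟨u, v, h1, h2⟩ := split_count p l c (by omega)
      have h3 : v.countP p ≤ c * (r + 1) := by
        rw [← h1, List.countP_append, h2] at h
        have : c * (r + 1 + 1) = c * (r + 1) + c := by ring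
        omega
      obtain ⟨L, h4, h5, h6⟩ := ih v h3
      refine ⟨u :: L, by rw [List.flatten_cons, h4, h1], by rw [List.length_cons]; omega, ?_⟩
      intro w hw
      rcases List.mem_cons.1 hw with rfl | hw
      · exact h2.le
      · exact h6 w hw

/-! ### Counting -/

section

variable {G : Type u} {T : Type} [DecidableEq T] (key : G → T) {m : ℕ} (x : Fin m → T)

open Classical in
/-- The key is one of the `x q`. -/
noncomputable def pk (g : G) : Bool := decide (∃ q, key g = x q)

theorem countP_le (l : List G) : l.countP (pk key x) ≤ ∑ q, (l.map key).count (x q) := by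
  induction l with
  | nil => simp
  | cons a l ih =>
    have h1 : ∑ q, ((a :: l).map key).count (x q) =
        ∑ q, (l.map key).count (x q) + ∑ q, if key a = x q then 1 else 0 := by
      rw [← Finset.sum_add_distrib]
      refine Finset.sum_congr rfl fun q _ => ?_
      rw [List.map_cons, List.count_cons]
      simp only [beq_iff_eq]
    rw [h1]
    by_cases ha : pk key x a = true
    · rw [List.countP_cons_of_pos ha]
      have ha' : ∃ q, key a = x q := by
        unfold pk at ha
        exact of_decide_eq_true ha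
      obtain ⟨q, hq⟩ := ha'
      have h2 : 1 ≤ ∑ q, if key a = x q then 1 else 0 := by
        refine le_trans ?_ (Finset.single_le_sum (f := fun q => if key a = x q then 1 else 0)
          (fun _ _ => Nat.zero_le _) (Finset.mem_univ q))
        rw [if_pos hq]
      omega
    · rw [List.countP_cons_of_neg ha]
      omega

theorem card_le (hx : Function.Injective x) (u : List G) :
    (univ.filter fun q => x q ∈ u.map key).card ≤ u.countP (pk key x) := by
  classical
  have h1 : (univ.filter fun q => x q ∈ u.map key).card =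
      ((univ.filter fun q => x q ∈ u.map key).image x).card :=
    (Finset.card_image_of_injective _ hx).symm
  rw [h1, List.countP_eq_length_filter, ← List.length_map (f := key)]
  refine le_trans (Finset.card_le_card ?_) (List.toFinset_card_le _)
  intro y hy
  obtain ⟨q, hq, rfl⟩ := Finset.mem_image.1 hy
  obtain ⟨g, hg, hgq⟩ := List.mem_map.1 (Finset.mem_filter.1 hq).2
  rw [List.mem_toFinset, List.mem_map]
  refine ⟨g, List.mem_filter.2 ⟨hg, ?_⟩, hgq⟩
  unfold pk
  exact decide_eq_true ⟨q, hgq⟩

/-- The type of the key `y`: the blocks which contain it. -/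
def typ (L : List (List G)) (y : T) : Finset (Fin L.length) :=
  univ.filter fun j => y ∈ (L.get j).map key

theorem typ_card (L : List (List G)) (y : T) :
    (typ key L y).card ≤ (L.flatten.map key).count y := by
  induction L with
  | nil => simp [typ]
  | cons u L ih =>
    unfold typ at ih ⊢
    rw [List.flatten_cons, List.map_append, List.count_append]
    have h1 := Fin.card_filter_univ_succ (fun j : Fin (L.length + 1) =>
      y ∈ ((u :: L).get j).map key)
    have h2 : (univ.filter fun j : Fin (u :: L).length => y ∈ ((u :: L).get j).map key).card =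
        (univ.filter fun j : Fin (L.length + 1) => y ∈ ((u :: L).get j).map key).card := rfl
    rw [h2, h1]
    have h3 : (univ.filter fun j : Fin L.length =>
        y ∈ ((u :: L).get j.succ).map key).card ≤ (L.flatten.map key).count y := ih
    by_cases hy : y ∈ ((u :: L).get (0 : Fin (L.length + 1))).map key
    · rw [if_pos hy]
      have h4 : 0 < (u.map key).count y := List.count_pos_iff.2 hy
      omega
    · rw [if_neg hy]
      omega

end

/-! ### The number of types -/

/-- The set of the values of a family of options. -/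
def rg {n e : ℕ} (f : Fin e → Option (Fin n)) : Finset (Fin n) :=
  univ.filter fun j => ∃ i, f i = some j

theorem rg_surj {n e : ℕ} (S : Finset (Fin n)) (hS : S.card ≤ e) :
    ∃ f : Fin e → Option (Fin n), rg f = S := by
  refine ⟨fun i => S.toList[(i : ℕ)]?, ?_⟩
  ext j
  have h0 : j ∈ S ↔ ∃ i : ℕ, S.toList[i]? = some j := by
    rw [← Finset.mem_toList, List.mem_iff_getElem?]
  unfold rg
  rw [Finset.mem_filter, h0]
  constructor
  · rintro ⟨-, i, hi⟩
    exact ⟨i, hi⟩
  · rintro ⟨i, hi⟩
    have h1 : i < S.toList.length := by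
      by_contra h
      rw [List.getElem?_eq_none (by omega)] at hi
      cases hi
    rw [Finset.length_toList] at h1
    exact ⟨Finset.mem_univ _, ⟨i, by omega⟩, hi⟩

/-- A finite set of types with at most `(n + 1) ^ e` elements. -/
theorem types (n e : ℕ) : ∃ 𝒯 : Finset (Finset (Fin n)), 𝒯.Nonempty ∧ 𝒯.card ≤ (n + 1) ^ e ∧
    ∀ S : Finset (Fin n), S.card ≤ e → S ∈ 𝒯 := by
  classical
  refine ⟨(univ : Finset (Fin e → Option (Fin n))).image rg, ?_, ?_, ?_⟩
  · exact (Finset.univ_nonempty).image _
  · refine Finset.card_image_le.trans ?_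
    rw [Finset.card_univ, Fintype.card_fun, Fintype.card_option, Fintype.card_fin,
      Fintype.card_fin]
  · intro S hS
    obtain ⟨f, hf⟩ := rg_surj S hS
    exact Finset.mem_image.2 ⟨f, Finset.mem_univ _, hf⟩

end BLKM

open BLKM in
theorem BLK_thm : S_BLK.{u} := by
  classical
  intro G T _ key m e s x l hx hl hm
  rcases Nat.eq_zero_or_pos s with hs | hs
  · subst hs
    exact ⟨[l], ∅, ∅, by simp, by simp, disjoint_bot_left, Nat.zero_le _, Nat.zero_le _,
      fun u _ => Or.inl fun q hq => absurd hq (Finset.notMem_empty q)⟩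
  set r := 2 * e ^ 2 + 1 with hr
  set N := (2 * e ^ 2 + 2) ^ e with hN
  have hN1 : 1 ≤ N := Nat.one_le_pow _ _ (by omega)
  set c := e * m / r + 1 with hc
  have hc1 : e * m ≤ c * r := by
    have := Nat.lt_div_mul_add (a := e * m) (b := r) (by omega)
    rw [hc, add_mul, one_mul]
    exact this.le
  have hc2 : c * r ≤ e * m + r := by
    rw [hc, add_mul, one_mul]
    exact Nat.add_le_add_right (Nat.div_mul_le_self _ _) _
  have hcount : l.countP (pk key x) ≤ c * (2 * e ^ 2 + 1) := by
    refine (countP_le key x l).trans ((Finset.sum_le_sum fun q _ => hl q).trans ?_)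
    rw [Finset.sum_const, Finset.card_univ, Fintype.card_fin, smul_eq_mul, mul_comm]
    exact hc1
  obtain ⟨L, hL1, hL2, hL3⟩ := blocks (pk key x) c (2 * e ^ 2) l hcount
  obtain ⟨𝒯, h𝒯1, h𝒯2, h𝒯3⟩ := types L.length e
  have h𝒯4 : 𝒯.card ≤ N := h𝒯2.trans (Nat.pow_le_pow_left (by omega) _)
  set τ : Fin m → Finset (Fin L.length) := fun q => typ key L (x q) with hτ
  have hτe : ∀ q, (τ q).card ≤ e := fun q => by
    refine (typ_card key L (x q)).trans ?_
    rw [hL1]
    exact hl q
  have hτ𝒯 : ∀ q, τ q ∈ 𝒯 := fun q => h𝒯3 _ (hτe q)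
  have hblock : ∀ j : Fin L.length, (univ.filter fun q => j ∈ τ q).card ≤ c := by
    intro j
    refine le_trans (le_of_eq ?_) ((card_le key x hx (L.get j)).trans
      (hL3 _ (List.get_mem L j)))
    congr 1
    ext q
    simp [hτ, typ]
  -- the first set
  have h1 : 𝒯.card * s ≤ (univ : Finset (Fin m)).card := by
    rw [Finset.card_univ, Fintype.card_fin]
    have := Nat.mul_le_mul_right s h𝒯4
    nlinarith
  obtain ⟨T₁, -, hT₁⟩ := Finset.exists_le_card_fiber_of_mul_le_card_of_maps_to
    (f := τ) (fun q _ => hτ𝒯 q) h𝒯1 h1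
  obtain ⟨A, hA1, hA2⟩ := Finset.exists_subset_card_eq hT₁
  have hAne : A.Nonempty := by
    rw [← Finset.card_pos]
    omega
  have hAT : ∀ q ∈ A, τ q = T₁ := fun q hq => (Finset.mem_filter.1 (hA1 hq)).2
  have hT₁e : T₁.card ≤ e := by
    obtain ⟨q, hq⟩ := hAne
    rw [← hAT q hq]
    exact hτe q
  -- the bad elements
  set Bad : Finset (Fin m) := univ.filter fun q => ¬ Disjoint (τ q) T₁ with hBad
  have hBadc : Bad.card ≤ e * c := by
    have hsub : Bad ⊆ T₁.biUnion fun j => univ.filter fun q => j ∈ τ q := by
      intro q hq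
      obtain ⟨j, hj1, hj2⟩ := Finset.not_disjoint_iff.1 (Finset.mem_filter.1 hq).2
      exact Finset.mem_biUnion.2 ⟨j, hj2, Finset.mem_filter.2 ⟨Finset.mem_univ _, hj1⟩⟩
    refine (Finset.card_le_card hsub).trans (Finset.card_biUnion_le.trans ?_)
    refine (Finset.sum_le_sum fun j _ => hblock j).trans ?_
    rw [Finset.sum_const, smul_eq_mul]
    exact Nat.mul_le_mul_right _ hT₁e
  set Q : Finset (Fin m) := univ \ (Bad ∪ A) with hQ
  have hQc : m ≤ Q.card + (e * c + s) := by
    have h2 : (Bad ∪ A).card ≤ e * c + s :=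
      (Finset.card_union_le _ _).trans (Nat.add_le_add hBadc hA2.le)
    have h3 : (univ : Finset (Fin m)) ⊆ Q ∪ (Bad ∪ A) := by
      intro q _
      by_cases h : q ∈ Bad ∪ A
      · exact Finset.mem_union_right _ h
      · exact Finset.mem_union_left _ (Finset.mem_sdiff.2 ⟨Finset.mem_univ _, h⟩)
    have h4 := (Finset.card_le_card h3).trans (Finset.card_union_le _ _)
    rw [Finset.card_univ, Fintype.card_fin] at h4
    omega
  have hmain : e * c + s + N * s ≤ m := by
    have hbern : 1 + e * r ≤ N := by
      have := one_add_mul_le_pow (R := ℤ) (a := (r : ℤ)) (by omega) e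
      have h4 : ((1 + e * r : ℕ) : ℤ) ≤ ((N : ℕ) : ℤ) := by
        rw [hN]
        push_cast
        rw [hr] at this ⊢
        push_cast at this ⊢
        calc _ = _ := rfl
          _ ≤ _ := this
          _ = _ := by ring
      exact_mod_cast h4
    have h5 : N * s * 4 ≤ m := by
      have : 4 * N * s = N * s * 4 := by ring
      omega
    have h6 : s ≤ N * s := Nat.le_mul_of_pos_left s (by omega)
    have h7 : N ≤ N * s := Nat.le_mul_of_pos_right N hs
    have h8 : 2 * (e * r) ≤ m := by omega
    have h9 : r * (e * c) ≤ e ^ 2 * m + e * r := by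
      have := Nat.mul_le_mul_left e hc2
      nlinarith
    have h10 : r * (e * c + s + N * s) ≤ r * m := by
      have h11 : 4 * s ≤ m := by omega
      have h12 : 4 * (N * s) ≤ m := by omega
      have h13 : r * m = 2 * (e ^ 2 * m) + m := by
        rw [hr]
        ring
      have h14 : r * (4 * s) ≤ r * m := Nat.mul_le_mul_left r h11
      have h15 : r * (4 * (N * s)) ≤ r * m := Nat.mul_le_mul_left r h12
      nlinarith
    exact Nat.le_of_mul_le_mul_left h10 (by omega)
  have h2 : 𝒯.card * s ≤ Q.card := by
    have := Nat.mul_le_mul_right s h𝒯4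
    omega
  obtain ⟨T₂, -, hT₂⟩ := Finset.exists_le_card_fiber_of_mul_le_card_of_maps_to
    (f := τ) (fun q _ => hτ𝒯 q) h𝒯1 h2
  set B : Finset (Fin m) := Q.filter fun q => τ q = T₂ with hB
  have hBne : B.Nonempty := by
    rw [← Finset.card_pos]
    omega
  have hBQ : ∀ q ∈ B, q ∉ Bad ∧ q ∉ A := fun q hq => by
    have h3 := (Finset.mem_sdiff.1 (Finset.mem_filter.1 hq).1).2
    rw [Finset.mem_union, not_or] at h3
    exact h3
  have hBT : ∀ q ∈ B, τ q = T₂ := fun q hq => (Finset.mem_filter.1 hq).2
  have hdisj : Disjoint T₂ T₁ := by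
    obtain ⟨q, hq⟩ := hBne
    have h3 := (hBQ q hq).1
    rw [hBad, Finset.mem_filter, not_and, not_not] at h3
    rw [← hBT q hq]
    exact h3 (Finset.mem_univ _)
  refine ⟨L, A, B, hL1, hL2, ?_, hA2.ge, hT₂, fun u hu => ?_⟩
  · rw [Finset.disjoint_left]
    exact fun q hqA hqB => (hBQ q hqB).2 hqA
  · obtain ⟨j, rfl⟩ := List.mem_iff_get.1 hu
    by_cases hj : j ∈ T₁
    · right
      intro q hq hmem
      have h3 : j ∈ τ q := Finset.mem_filter.2 ⟨Finset.mem_univ _, hmem⟩
      rw [hBT q hq] at h3
      exact (Finset.disjoint_left.1 hdisj) h3 hj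
    · left
      intro q hq hmem
      have h3 : j ∈ τ q := Finset.mem_filter.2 ⟨Finset.mem_univ _, hmem⟩
      rw [hAT q hq] at h3
      exact hj h3

end Pool.Agent.ROA
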