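import Pool.Agent.ROA.Rank

/-!
Module ROA_CNT (MP_a77cad_lc): the width of the patterns and the numbers of variables, patterns and
vertices.
-/

set_option autoImplicit false

namespace Pool.Agent.ROA

open Finset

namespace CNTM

theorem card_place {V : Type} [DecidableEq V] {k m : ℕ} (r : Role V k) (v : Bool) (q : Fin m) :
    (place r v q).card ≤ 3 := card_le_three

theorem card_pat (V : Type) [Fintype V] [DecidableEq V] (k m : ℕ) (pr : V → Option (V × V)) (t : V)
    (x : Idx V k m) : (pat pr t x).card ≤ 27 := by
  rcases x with ⟨o, a, q⟩ | ⟨u, v, q⟩ | ⟨r, v⟩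
  · have h1 : ∀ i : Fin 3, (univ.biUnion fun j : Fin 3 =>
        place (rp pr t o a i j).1 (rp pr t o a i j).2 (q i j)).card ≤ 9 := by
      intro i
      refine card_biUnion_le.trans ?_
      refine (sum_le_sum fun j _ => card_place _ _ _).trans ?_
      simp
    refine card_biUnion_le.trans ?_
    refine (sum_le_sum fun i _ => h1 i).trans ?_
    simp
  · exact (card_place _ _ _).trans (by norm_num)
  · show ({(Sum.inr (r, if v then Fin.last m else 0), v)} : Finset (Var V k m × Bool)).card ≤ 27
    rw [card_singleton]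
    norm_num

theorem card_pyr (h : ℕ) : (h + 1) ^ 2 ≤ 2 * Fintype.card (Pyr h) ∧
    Fintype.card (Pyr h) ≤ (h + 1) ^ 2 := by
  have e1 : Fintype.card (Pyr h) = (univ.filter fun p : Fin (h + 1) × Fin (h + 1) =>
      p.1.val + p.2.val ≤ h).card := Fintype.card_subtype _
  have e2 : (univ : Finset (Fin (h + 1) × Fin (h + 1))).card = (h + 1) ^ 2 := by
    rw [card_univ, Fintype.card_prod, Fintype.card_fin, sq]
  have e3 : (univ.filter fun p : Fin (h + 1) × Fin (h + 1) => ¬ p.1.val + p.2.val ≤ h).card ≤
      (univ.filter fun p : Fin (h + 1) × Fin (h + 1) => p.1.val + p.2.val ≤ h).card := by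
    refine card_le_card_of_injOn (fun p => (Fin.rev p.1, Fin.rev p.2)) ?_ ?_
    · intro p hp
      have h1 := (mem_filter.1 hp).2
      simp only [coe_filter, mem_univ, true_and, Set.mem_ofPred_eq, Fin.val_rev]
      have := p.1.isLt
      have := p.2.isLt
      omega
    · intro p _ p' _ hpp
      have h1 := congrArg Prod.fst hpp
      have h2 := congrArg Prod.snd hpp
      exact Prod.ext (Fin.rev_injective h1) (Fin.rev_injective h2)
  have e4 := card_filter_add_card_filter_not (s := (univ : Finset (Fin (h + 1) × Fin (h + 1))))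
    (fun p => p.1.val + p.2.val ≤ h)
  rw [e2] at e4
  rw [e1]
  constructor <;> omega

end CNTM

/-- **ROA_CNT.** -/
theorem CNT_thm : S_CNT := by
  refine ⟨CNTM.card_pat, fun V _ k m => ?_, CNTM.card_pyr⟩
  have h1 : Fintype.card (Role V k) = Fintype.card V * (2 * k + 1) := by
    rw [Fintype.card_sum, Fintype.card_prod, Fintype.card_prod, Fintype.card_fin, Fintype.card_fin]
    ring
  refine ⟨h1, ?_, ?_⟩
  · rw [Fintype.card_sum, Fintype.card_prod, h1, Fintype.card_fin, Fintype.card_fin]
  · rw [Fintype.card_sum, Fintype.card_sum, Fintype.card_prod, Fintype.card_prod, Fintype.card_prod,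
      Fintype.card_prod, Fintype.card_prod, h1, Fintype.card_option, Fintype.card_bool,
      Fintype.card_fin, Fintype.card_fun, Fintype.card_fun, Fintype.card_fun, Fintype.card_fin,
      Fintype.card_fin, Fintype.card_fin, ← pow_mul]

end Pool.Agent.ROA
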