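import Pool.Agent.ROA.Defs

/-!
# The formula with an array of several slices

One more chain of bits, common to all roles, selects one of the `G` slices of the array. So the
number of the reads of the array may be large on the average only.
-/

set_option autoImplicit false

universe u

namespace Pool.Agent.ROA

open Finset

/-- The number of layers of the variables of the formula (of the left summand). -/
def OABP.len {K : Type u} [Field K] {W Z : Type} {w : ℕ} (P : OABP K (W ⊕ Z) w) : ℕ :=
  (P.layers.filter fun l => l.1.isLeft).length

section

variable (V : Type) (k m G : ℕ)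

/-- The variables of the formula: the array of `G` slices of length `m`, for each role a selector, a
chain of `m + 1` bits which points to a position in the slice, and a chain of `G + 1` bits which
points to a slice. -/
abbrev Var2 : Type := (Fin G × Fin m) ⊕ ((Role V k × Fin (m + 1)) ⊕ Fin (G + 1))

/-- The indices of the clauses: lifted patterns (with the slice and the positions of nine roles), the
two ends of the chains (with the slice and the position of the role), the two ends of the selectors,
the two ends of the chain of the slice. -/
abbrev Idx2 : Type :=
  (Option V × (Fin 3 → Fin k) × Fin G × (Fin 3 → Fin 3 → Fin m)) ⊕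
    ((V × Bool × Fin G × Fin m) ⊕ ((Role V k × Bool) ⊕ Bool))

end

section

variable {V : Type} [DecidableEq V] {k m G : ℕ}

instance instDecVar2 : DecidableEq (Var2 V k m G) := inferInstance

instance instDecLit2 : DecidableEq (Var2 V k m G × Bool) := instDecidableEqProd

/-- The slice is `g`. -/
def slc (g : Fin G) : Finset (Var2 V k m G × Bool) :=
  {(Sum.inr (Sum.inr g.castSucc), true), (Sum.inr (Sum.inr g.succ), false)}

/-- The role `r` is at the position `q`, and there the slice `g` has the value `v`. -/
def place2 (g : Fin G) (r : Role V k) (v : Bool) (q : Fin m) : Finset (Var2 V k m G × Bool) :=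
  {(Sum.inl (g, q), v), (Sum.inr (Sum.inl (r, q.castSucc)), true),
    (Sum.inr (Sum.inl (r, q.succ)), false)}

/-- The forbidden patterns of the formula. -/
def pat2 (pr : V → Option (V × V)) (t : V) : Idx2 V k m G → Finset (Var2 V k m G × Bool)
  | Sum.inl (o, a, g, q) => slc g ∪ univ.biUnion fun i : Fin 3 => univ.biUnion fun j : Fin 3 =>
      place2 g (rp pr t o a i j).1 (rp pr t o a i j).2 (q i j)
  | Sum.inr (Sum.inl (u, v, g, q)) =>
      slc g ∪ place2 g (Sum.inr (u, if v then Fin.last k else 0)) v q
  | Sum.inr (Sum.inr (Sum.inl (r, v))) => {(Sum.inr (Sum.inl (r, if v then Fin.last m else 0)), v)}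
  | Sum.inr (Sum.inr (Sum.inr v)) => {(Sum.inr (Sum.inr (if v then Fin.last G else 0)), v)}

/-- The assignment of all variables given by `b`, `a`, the slice `g` and the positions `pos` of the
roles; the array is `false` outside these positions of the slice `g`. -/
def full2 [Fintype V] (g : Fin G) (pos : Role V k → Fin m) (b a : V → Fin k) :
    Var2 V k m G → Bool
  | Sum.inl x => decide (x.1 = g ∧ ∃ r, pos r = x.2 ∧ roleVal b a r = true)
  | Sum.inr (Sum.inl (r, i)) => decide (i ≤ (pos r).castSucc)
  | Sum.inr (Sum.inr i) => decide (i ≤ g.castSucc)

end

end Pool.Agent.ROA
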