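import Pool.Agent.ROA.Stmts
import Pool.Agent.ROA.Defs2

/-!
# Statements of the modules, second part: the formula with slices

The variables of the formula are read in at most `e N` layers, `N ≤ 2 G m`. So some slice has at most
`2 e m` reads, and at least half of its positions at most `4 e` reads each; `S_BLK` (with `4 e` in
place of `e`) is applied to these positions.
-/

set_option autoImplicit false

universe u

namespace Pool.Agent.ROA

open Finset

/-- Module SLI (from BLK). The sum of the numbers of the reads of all `x g q` is at most the number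
of layers with `p`; choose the slice `g` with the least number of reads, so at most `2 e m`; the
positions with more than `4 e` reads are at most `m / 2`. -/
def S_SLI : Prop := ∀ (Γ : Type u) (T : Type) [DecidableEq T] (key : Γ → T) (p : T → Bool)
  (m G e s : ℕ) (x : Fin G → Fin m → T) (l : List Γ),
  Function.Injective (fun y : Fin G × Fin m => x y.1 y.2) → (∀ g q, p (x g q) = true) → 0 < G →
  (l.filter fun a => p (key a)).length ≤ 2 * e * (G * m) →
  8 * (32 * e ^ 2 + 2) ^ (4 * e) * s ≤ m →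
  ∃ (g : Fin G) (L : List (List Γ)) (A B : Finset (Fin m)), L.flatten = l ∧
    L.length ≤ 32 * e ^ 2 + 1 ∧ Disjoint A B ∧ s ≤ A.card ∧ s ≤ B.card ∧
    ∀ u ∈ L, (∀ q ∈ A, x g q ∉ u.map key) ∨ (∀ q ∈ B, x g q ∉ u.map key)

/-- Module RES2 (from RES). A pattern with the slice `g'` is hit by `β` iff `slc g'` is hit and the
corresponding pattern of the formula with one slice is hit by `β` restricted to this slice; `full2 g`
restricted to the slice `g` is `full`. -/
def S_RES2 : Prop := ∀ (V : Type) [Fintype V] [DecidableEq V] (k m G : ℕ)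
  (pr : V → Option (V × V)) (t : V) (g : Fin G) (pos : Role V k → Fin m),
  Function.Injective pos → ∀ b a : V → Fin k,
  (∀ o α g' q, Hit (pat2 pr t (Sum.inl (o, α, g', q))) (full2 g pos b a) ↔
    g' = g ∧ (∀ i j, q i j = pos (rp pr t o α i j).1) ∧ Cond pr t o α b a) ∧
  ∀ x, ¬ Hit (pat2 pr t (Sum.inr x)) (full2 g pos b a)

/-- Module UNS2 (from UNS). The chain of the slice points to a slice `g` (or one of its ends is hit);
use UNS for the restriction to this slice. -/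
def S_UNS2 : Prop := ∀ (V : Type) [Fintype V] [DecidableEq V] (k m G : ℕ)
  (pr : V → Option (V × V)) (t : V) (lev : V → ℕ),
  (∀ u q, pr u = some q → lev q.1 < lev u ∧ lev q.2 < lev u) →
  ∀ β : Var2 V k m G → Bool, ∃ x, Hit (pat2 pr t x) β

/-- Module CNT2. Width of the patterns, numbers of variables and patterns. -/
def S_CNT2 : Prop :=
  (∀ (V : Type) [Fintype V] [DecidableEq V] (k m G : ℕ) (pr : V → Option (V × V)) (t : V)
    (x : Idx2 V k m G), (pat2 pr t x).card ≤ 29) ∧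
  ∀ (V : Type) [Fintype V] (k m G : ℕ),
    Fintype.card (Var2 V k m G) = G * m + (Fintype.card V * (2 * k + 1) * (m + 1) + (G + 1)) ∧
    Fintype.card (Idx2 V k m G) = (Fintype.card V + 1) * (k ^ 3 * (G * m ^ 9)) +
      (Fintype.card V * (2 * (G * m)) + (Fintype.card V * (2 * k + 1) * 2 + 2))

/-- Module NM2 (from NMB, applied to `N / 16` and to `4 e`). Let `k = 2 n`, `R = n (2 k + 1)`,
`m = 2 n R`; NMB gives `n R + R (n R + 1) ≤ N / 16`, so `256 n ^ 5 ≤ N` and
`(R + 1) (m + 1) ≤ N / 4`; `G = (N - 1) / (m + 1) - R`. With `c = 1 / 480`, `e` the least number with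
`c log N / log (log N) ≤ e` and `M` the least number with `N ^ c ≤ M`: for large `N` we have
`4 e ≤ log N`, so `(4 e) ^ (120 e) ≤ exp (120 e log (log N)) ≤ N / 16`. -/
def S_NM2 : Prop := ∃ c : ℝ, 0 < c ∧ ∃ N₀ : ℕ, ∀ N ≥ N₀, ∃ h : ℕ, 2 ≤ h ∧ ∀ n : ℕ,
  (h + 1) ^ 2 ≤ 2 * n → n ≤ (h + 1) ^ 2 → ∀ k R m : ℕ, k = 2 * n → R = n * (2 * k + 1) →
  m = 2 * (n * R) → ∃ G : ℕ, 0 < G ∧ G * m + (R * (m + 1) + (G + 1)) ≤ N ∧ N ≤ 2 * (G * m) ∧
    (n + 1) * (k ^ 3 * (G * m ^ 9)) + (n * (2 * (G * m)) + (R * 2 + 2)) ≤ N ^ 7 ∧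
    ∃ e M : ℕ, 8 * (32 * e ^ 2 + 2) ^ (4 * e) * (n * (k + 1)) ≤ m ∧ (N : ℝ) ^ c ≤ M ∧
      (∀ l : ℕ, (l : ℝ) ≤ c * N * Real.log N / Real.log (Real.log N) → l ≤ e * N) ∧
      ∀ D : ℕ, (D : ℝ) ≤ (N : ℝ) ^ c →
        ((n + 1) * k ^ 3 + 1) ^ D * (2 ^ D * (2 ^ M) ^ (32 * e ^ 2 + 2)) < 2 ^ h * n

/-- The final theorem: length `c N log N / log log N` of the part of the program which reads the
variables of the formula, degree at most `N ^ c` in the variables of the clauses, width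
`2 ^ (N ^ c)`. -/
def MainStatement2 : Prop := ∃ c : ℝ, 0 < c ∧ ∃ N₀ : ℕ, ∀ N ≥ N₀,
  ∃ F : Finset (Finset (Fin N × Bool)),
  (∀ C ∈ F, C.card ≤ 29) ∧ F.card ≤ N ^ 7 ∧ (∀ b, ∃ C ∈ F, IsFalse C b) ∧
  ∀ (K : Type u) [Field K] (w D : ℕ) (P : OABP K (Fin N ⊕ (F ⊕ Fin N)) w),
    (P.len : ℝ) ≤ c * N * Real.log N / Real.log (Real.log N) → (D : ℝ) ≤ (N : ℝ) ^ c →
    IsRefutation D F P.poly → (2 : ℝ) ^ ((N : ℝ) ^ c) ≤ w

end Pool.Agent.ROA
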