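import Pool.Agent.ROA.Rank
import Pool.Agent.ROA.Stmts2

/-!
Module ROA_CNT2 (MP_a77cad_lc): the width of the patterns and the numbers of variables and patterns
of the formula with slices.
-/

set_option autoImplicit false

namespace Pool.Agent.ROA

open Finset

namespace CNT2M

theorem card_place {V : Type} [DecidableEq V] {k m G : ℕ} (g : Fin G) (r : Role V k) (v : Bool)
    (q : Fin m) : (place2 g r v q).card ≤ 3 := card_le_three

theorem card_slc {V : Type} [DecidableEq V] {k m G : ℕ} (g : Fin G) :
    (slc g : Finset (Var2 V k m G × Bool)).card ≤ 2 := card_le_two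

theorem card_pat (V : Type) [Fintype V] [DecidableEq V] (k m G : ℕ) (pr : V → Option (V × V))
    (t : V) (x : Idx2 V k m G) : (pat2 pr t x).card ≤ 29 := by
  rcases x with ⟨o, a, g, q⟩ | ⟨u, v, g, q⟩ | ⟨r, v⟩ | v
  · have h1 : ∀ i : Fin 3, (univ.biUnion fun j : Fin 3 =>
        place2 g (rp pr t o a i j).1 (rp pr t o a i j).2 (q i j)).card ≤ 9 := by
      intro i
      refine card_biUnion_le.trans ?_
      refine (sum_le_sum fun j _ => card_place _ _ _ _).trans ?_
      simp
    have h2 : (univ.biUnion fun i : Fin 3 => univ.biUnion fun j : Fin 3 =>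
        place2 g (rp pr t o a i j).1 (rp pr t o a i j).2 (q i j)).card ≤ 27 := by
      refine card_biUnion_le.trans ?_
      refine (sum_le_sum fun i _ => h1 i).trans ?_
      simp
    refine (card_union_le _ _).trans ?_
    have h3 := card_slc (V := V) (k := k) (m := m) g
    omega
  · refine (card_union_le _ _).trans ?_
    have h3 := card_slc (V := V) (k := k) (m := m) g
    have h4 := card_place (m := m) g (Sum.inr (u, if v then Fin.last k else 0) : Role V k) v q
    omega
  · show ({(Sum.inr (Sum.inl (r, if v then Fin.last m else 0)), v)} :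
      Finset (Var2 V k m G × Bool)).card ≤ 29
    rw [card_singleton]
    norm_num
  · show ({(Sum.inr (Sum.inr (if v then Fin.last G else 0)), v)} :
      Finset (Var2 V k m G × Bool)).card ≤ 29
    rw [card_singleton]
    norm_num

end CNT2M

/-- **ROA_CNT2.** -/
theorem CNT2_thm : S_CNT2 := by
  refine ⟨CNT2M.card_pat, fun V _ k m G => ?_⟩
  have h1 : Fintype.card (Role V k) = Fintype.card V * (2 * k + 1) := by
    rw [Fintype.card_sum, Fintype.card_prod, Fintype.card_prod, Fintype.card_fin, Fintype.card_fin]
    ring
  refine ⟨?_, ?_⟩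
  · rw [Fintype.card_sum, Fintype.card_sum, Fintype.card_prod, Fintype.card_prod, h1]
    simp only [Fintype.card_fin]
  · rw [Fintype.card_sum, Fintype.card_sum, Fintype.card_sum, Fintype.card_prod, Fintype.card_prod,
      Fintype.card_prod, Fintype.card_prod, Fintype.card_prod, Fintype.card_prod, Fintype.card_prod,
      h1]
    simp only [Fintype.card_option, Fintype.card_bool, Fintype.card_fin, Fintype.card_fun,
      ← pow_mul]

end Pool.Agent.ROA
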