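import Pool.Agent.ROA.Rank

/-!
# Oblivious algebraic branching programs: module COR (helper63)
-/

set_option autoImplicit false
set_option maxHeartbeats 4000000

universe u

namespace Pool.Agent.ROA

open Finset

namespace CORM

variable {K : Type u} [Field K]

/-- The condition is a condition on `a` and a condition on `b`. -/
theorem cond_iff {V : Type} [DecidableEq V] {k : ℕ} (pr : V → Option (V × V)) (t : V)
    (o : Option V) (α : Fin 3 → Fin k) (b a : V → Fin k) : Cond pr t o α b a ↔
      (∀ i, a (bp pr t o i).1 = α i) ∧ ∀ i, decide (b (bp pr t o i).1 = α i) = (bp pr t o i).2 := by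
  unfold Cond
  exact forall_and

/-- The term of a nonempty set of clauses. -/
theorem term_rank (h2 : S_UPR.{u}) {V : Type} [Fintype V] [DecidableEq V]
    {pr : V → Option (V × V)} {t : V} {d k : ℕ} {r : Finset V → K} (hD : Design pr t d r)
    (hpr : ∀ u q, pr u = some q → q.1 ≠ u ∧ q.2 ≠ u) (hd : d + 1 ≤ Fintype.card V)
    {ι : Type} [DecidableEq ι] (fal : ι → (V → Fin k) → (V → Fin k) → Prop)
    [∀ c b a, Decidable (fal c b a)] {w : ℕ} (g : (V → Fin k) → (V → Fin k) → K)
    (S : Finset ι) (hS : S.Nonempty)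
    (hc : ∀ c ∈ S, ∃ (o : Option V) (α : Fin 3 → Fin k), ∀ b a, fal c b a ↔ Cond pr t o α b a)
    (hg : RankLE w g) :
    RankLE (w * ((Fintype.card V).choose d * k ^ (Fintype.card V - d - 1)))
      fun b a => (if ∀ c ∈ S, fal c b a then g b a else 0) * mat k r b a := by
  classical
  obtain ⟨C, hC⟩ := hS
  obtain ⟨o, α, hoα⟩ := hc C hC
  have hsplit : ∃ (A B : (V → Fin k) → Prop), ∀ b a, (∀ c ∈ S, fal c b a) ↔ (B b ∧ A a) := by
    have hex : ∀ c : ι, ∃ (A B : (V → Fin k) → Prop), c ∈ S → ∀ b a, fal c b a ↔ (B b ∧ A a) := by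
      intro c
      by_cases hcS : c ∈ S
      · obtain ⟨o', α', h'⟩ := hc c hcS
        refine ⟨fun a => ∀ i, a (bp pr t o' i).1 = α' i,
          fun b => ∀ i, decide (b (bp pr t o' i).1 = α' i) = (bp pr t o' i).2, ?_⟩
        intro _ b a
        rw [h' b a, cond_iff]
        exact and_comm
      · exact ⟨fun _ => True, fun _ => True, fun h => absurd h hcS⟩
    choose A B hAB using hex
    refine ⟨fun a => ∀ c ∈ S, A c a, fun b => ∀ c ∈ S, B c b, ?_⟩
    intro b a
    constructor
    · intro h
      exact ⟨fun c hcS => ((hAB c hcS b a).1 (h c hcS)).1,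
        fun c hcS => ((hAB c hcS b a).1 (h c hcS)).2⟩
    · rintro ⟨hb, ha⟩ c hcS
      exact (hAB c hcS b a).2 ⟨hb c hcS, ha c hcS⟩
  obtain ⟨A, B, hAB⟩ := hsplit
  have hrank := (hg.mul (h2 K V pr t d k r hD hpr hd o α)).scale
    (fun b => if B b then (1 : K) else 0) (fun a => if A a then (1 : K) else 0)
  refine hrank.congr fun b a => ?_
  by_cases h : ∀ c ∈ S, fal c b a
  · have h3 := (hAB b a).1 h
    have h4 : Cond pr t o α b a := (hoα b a).1 (h C hC)
    rw [if_pos h, if_pos h3.1, if_pos h3.2, if_pos h4]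
    ring
  · have h3 : ¬(B b ∧ A a) := fun h' => h ((hAB b a).2 h')
    rw [if_neg h]
    by_cases hb : B b
    · have ha : ¬ A a := fun ha => h3 ⟨hb, ha⟩
      rw [if_neg ha]
      ring
    · rw [if_neg hb]
      ring

end CORM

open CORM in
theorem COR_thm (h1 : S_LOW.{u}) (h2 : S_UPR.{u}) (h3 : S_SUB) : S_COR.{u} := by
  classical
  intro K _ V _ _ pr t d k r hD hpr hd hk ι _ _ fal _ R D w g hR hRc hg hone
  set N : ℕ := (Fintype.card V).choose d * k ^ (Fintype.card V - d - 1) with hN
  set T : Finset ι → (V → Fin k) → (V → Fin k) → K :=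
    fun S b a => (if ∀ c ∈ S, fal c b a then g S b a else 0) * mat k r b a with hT
  have hterm : ∀ S ∈ R.powerset.filter (fun S => S.card ≤ D),
      RankLE (w * N) (fun b a => if S.Nonempty then T S b a else 0) := by
    intro S hS
    rw [mem_filter, mem_powerset] at hS
    by_cases hne : S.Nonempty
    · refine (term_rank h2 hD hpr hd fal (g S) S hne (fun c hc => hRc c (hS.1 hc))
        (hg S hS.2)).congr fun b a => ?_
      rw [if_pos hne]
      simp only [hT]
      congr
    · exact (RankLE.zero _).congr fun b a => by rw [if_neg hne]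
  have hsum := RankLE.sum _ hterm
  have hmat : ∀ b a, mat k r b a = ∑ S ∈ R.powerset.filter (fun S => S.card ≤ D),
      if S.Nonempty then T S b a else 0 := by
    intro b a
    rw [← Finset.sum_filter]
    have h4 : ∑ S ∈ (R.powerset.filter (fun S => S.card ≤ D)).filter (fun S => S.Nonempty),
        T S b a = ∑ S ∈ univ.filter (fun S : Finset ι => S.Nonempty ∧ S.card ≤ D), T S b a := by
      refine Finset.sum_subset ?_ ?_
      · intro S hS
        simp only [mem_filter, mem_powerset, mem_univ, true_and] at hS ⊢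
        exact ⟨hS.2, hS.1.2⟩
      · intro S hS hS'
        simp only [mem_filter, mem_powerset, mem_univ, true_and] at hS hS'
        have h5 : ¬ S ⊆ R := fun h => hS' ⟨⟨h, hS.2⟩, hS.1⟩
        obtain ⟨c, hc, hcR⟩ := Finset.not_subset.1 h5
        simp only [hT]
        rw [if_neg (fun h => hR c hcR b a (h c hc)), zero_mul]
    rw [h4]
    simp only [hT]
    rw [← Finset.sum_mul, hone b a, one_mul]
  have hrank : RankLE ((R.card + 1) ^ D * (w * N)) (mat k r) := by
    refine RankLE.mono ?_ (Nat.mul_le_mul_right (w * N) (h3 ι R D))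
    exact hsum.congr fun b a => hmat b a
  exact h1 K V k _ r hk hD.empty hrank

end Pool.Agent.ROA
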