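import Pool.Agent.ROA.Rank

/-!
# Module IPS: the functional identity
-/

set_option autoImplicit false

universe u

namespace Pool.Agent.ROA

open Finset

namespace IPSM

variable {K : Type u} [Field K]

/-- Inclusion and exclusion for the indicator of the sets which contain `S₀`. -/
theorem coef_ind {ι : Type} [DecidableEq ι] (S₀ S : Finset ι) :
    coef (fun T => if S₀ ⊆ T then (1 : K) else 0) S = if S = S₀ then 1 else 0 := by
  unfold coef
  by_cases h : S₀ ⊆ S
  · have h1 : ∀ T ∈ S.powerset, (-1 : K) ^ (S.card - T.card) * (if S₀ ⊆ T then (1 : K) else 0) =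
        (∏ _i ∈ T, (1 : K)) * ∏ i ∈ S \ T, (if i ∈ S₀ then (0 : K) else -1) := by
      intro T hT
      rw [mem_powerset] at hT
      rw [prod_const_one, one_mul]
      by_cases h2 : S₀ ⊆ T
      · rw [if_pos h2, mul_one, ← card_sdiff_of_subset hT, ← prod_const]
        refine prod_congr rfl fun i hi => ?_
        rw [if_neg fun h3 => (mem_sdiff.1 hi).2 (h2 h3)]
      · rw [if_neg h2, mul_zero]
        obtain ⟨i, hi, hiT⟩ := not_subset.1 h2
        symm
        apply prod_eq_zero (mem_sdiff.2 ⟨h hi, hiT⟩)
        rw [if_pos hi]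
    rw [sum_congr rfl h1, ← prod_add]
    have h2 : ∀ i ∈ S, (1 : K) + (if i ∈ S₀ then (0 : K) else -1) = if i ∈ S₀ then 1 else 0 := by
      intro i _
      by_cases h3 : i ∈ S₀
      · rw [if_pos h3, if_pos h3, add_zero]
      · rw [if_neg h3, if_neg h3, add_neg_cancel]
    rw [prod_congr rfl h2, prod_boole]
    by_cases h3 : S = S₀
    · rw [if_pos h3, if_pos fun i hi => h3 ▸ hi]
    · rw [if_neg h3, if_neg]
      exact fun h4 => h3 (Subset.antisymm h4 h)
  · rw [if_neg fun h1 : S = S₀ => h h1.symm.subset]
    refine sum_eq_zero fun T hT => ?_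
    rw [mem_powerset] at hT
    have h1 : ¬ S₀ ⊆ T := fun h1 => h (h1.trans hT)
    beta_reduce
    rw [if_neg h1, mul_zero]

variable {W : Type}

/-- The value of the polynomial of a clause. -/
theorem eval_clause (b : W → Bool) (c : Finset (W × Bool)) :
    MvPolynomial.eval (fun x => if b x then (1 : K) else 0) (clausePoly K c) =
      if IsFalse c b then 1 else 0 := by
  unfold clausePoly
  rw [map_prod]
  have h : ∀ l ∈ c, MvPolynomial.eval (fun x => if b x then (1 : K) else 0)
      (if l.2 then 1 - MvPolynomial.X l.1 else MvPolynomial.X l.1) =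
      if b l.1 ≠ l.2 then 1 else 0 := by
    rintro ⟨x, v⟩ _
    cases v <;> cases hb : b x <;> simp [hb]
  rw [prod_congr rfl h, prod_boole]
  rfl

variable [Fintype W] {F : Finset (Finset (W × Bool))} [DecidableEq F]

/-- The set of the clauses of a monomial. -/
def sup (m : (W ⊕ (F ⊕ W)) →₀ ℕ) : Finset F := univ.filter fun c => m (Sum.inr (Sum.inl c)) ≠ 0

/-- The coefficient of a monomial, at the assignment `b`. -/
noncomputable def cof (Q : MvPolynomial (W ⊕ (F ⊕ W)) K) (b : W → Bool)
    (m : (W ⊕ (F ⊕ W)) →₀ ℕ) : K :=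
  Q.coeff m * ((∏ x, (if b x then (1 : K) else 0) ^ m (Sum.inl x)) *
    ∏ x : W, (0 : K) ^ m (Sum.inr (Sum.inr x)))

omit [DecidableEq F] in
theorem cof_zero (Q : MvPolynomial (W ⊕ (F ⊕ W)) K) (b : W → Bool)
    (m : (W ⊕ (F ⊕ W)) →₀ ℕ) (h : cof Q b m ≠ 0) (x : W) : m (Sum.inr (Sum.inr x)) = 0 := by
  by_contra h1
  apply h
  unfold cof
  have h2 : ∏ x : W, (0 : K) ^ m (Sum.inr (Sum.inr x)) = 0 :=
    prod_eq_zero (mem_univ x) (zero_pow h1)
  rw [h2, mul_zero, mul_zero]

/-- The value at the point. -/
theorem eval_point (Q : MvPolynomial (W ⊕ (F ⊕ W)) K) (b : W → Bool) (T : Finset F) :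
    MvPolynomial.eval (point K b T) Q =
      ∑ m ∈ Q.support, cof Q b m * if sup m ⊆ T then 1 else 0 := by
  rw [MvPolynomial.eval_eq']
  refine sum_congr rfl fun m _ => ?_
  rw [Fintype.prod_sum_type, Fintype.prod_sum_type]
  have h : ∏ c : F, point K b T (Sum.inr (Sum.inl c)) ^ m (Sum.inr (Sum.inl c)) =
      if sup m ⊆ T then 1 else 0 := by
    have h1 : ∀ c ∈ (univ : Finset F),
        point K b T (Sum.inr (Sum.inl c)) ^ m (Sum.inr (Sum.inl c)) =
        if (c ∈ sup m → c ∈ T) then (1 : K) else 0 := by
      intro c _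
      have h2 : point K b T (Sum.inr (Sum.inl c)) = if c ∈ T then (1 : K) else 0 := rfl
      rw [h2]
      by_cases h3 : c ∈ T
      · rw [if_pos h3, one_pow, if_pos fun _ => h3]
      · rw [if_neg h3]
        by_cases h4 : m (Sum.inr (Sum.inl c)) = 0
        · rw [h4, pow_zero, if_pos]
          intro h5
          exact absurd h4 (mem_filter.1 h5).2
        · rw [zero_pow h4, if_neg]
          exact fun h5 => h3 (h5 (mem_filter.2 ⟨mem_univ _, h4⟩))
    rw [prod_congr rfl h1, prod_boole]
    by_cases h2 : sup m ⊆ T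
    · rw [if_pos h2, if_pos fun c _ hc => h2 hc]
    · rw [if_neg h2, if_neg fun h3 => h2 fun c hc => h3 c (mem_univ _) hc]
  rw [h]
  unfold cof point
  simp only [Sum.elim_inl, Sum.elim_inr]
  ring

/-- The coefficients of the sets of clauses. -/
theorem coef_point (Q : MvPolynomial (W ⊕ (F ⊕ W)) K) (b : W → Bool) (S : Finset F) :
    coef (fun T => MvPolynomial.eval (point K b T) Q) S =
      ∑ m ∈ Q.support, cof Q b m * if S = sup m then 1 else 0 := by
  have h : ∀ m ∈ Q.support, cof Q b m * (if S = sup m then (1 : K) else 0) =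
      ∑ T ∈ S.powerset, (-1) ^ (S.card - T.card) *
        (cof Q b m * if sup m ⊆ T then 1 else 0) := by
    intro m _
    rw [← coef_ind (K := K) (sup m) S]
    unfold coef
    rw [mul_sum]
    refine sum_congr rfl fun T _ => ?_
    ring
  rw [sum_congr rfl h, sum_comm]
  unfold coef
  refine sum_congr rfl fun T _ => ?_
  beta_reduce
  rw [eval_point, mul_sum]

end IPSM

open IPSM in
theorem IPS_thm : S_IPS.{u} := by
  intro K _ W _ _ D F Q hQ b
  obtain ⟨h0, h1, hD⟩ := hQ
  set U : Finset F := univ.filter fun c => IsFalse c.1 b with hU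
  -- the value without the clauses
  have f0 : MvPolynomial.eval (point K b (∅ : Finset F)) Q = 0 := by
    have h := congrArg (MvPolynomial.eval fun x => if b x then (1 : K) else 0) h0
    rw [map_zero, MvPolynomial.map_aeval] at h
    rw [← h]
    have h2 : (MvPolynomial.eval fun x => if b x then (1 : K) else 0).comp
        (algebraMap K (MvPolynomial W K)) = RingHom.id K := by
      ext z
      simp [MvPolynomial.algebraMap_eq]
    rw [h2]
    change MvPolynomial.eval₂ (RingHom.id K) _ Q = MvPolynomial.eval₂ (RingHom.id K) _ Q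
    congr 1
    funext i
    rcases i with x | c | x
    · simp [point]
    · simp [point]
    · simp [point]
  -- the value with the false clauses
  have f1 : MvPolynomial.eval (point K b U) Q = 1 := by
    have h := congrArg (MvPolynomial.eval fun x => if b x then (1 : K) else 0) h1
    rw [map_one, MvPolynomial.map_aeval] at h
    rw [← h]
    have h2 : (MvPolynomial.eval fun x => if b x then (1 : K) else 0).comp
        (algebraMap K (MvPolynomial W K)) = RingHom.id K := by
      ext z
      simp [MvPolynomial.algebraMap_eq]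
    rw [h2]
    change MvPolynomial.eval₂ (RingHom.id K) _ Q = MvPolynomial.eval₂ (RingHom.id K) _ Q
    congr 1
    funext i
    rcases i with x | c | x
    · simp [point]
    · simp only [point, Sum.elim_inr, Sum.elim_inl]
      rw [eval_clause]
      refine if_congr ?_ rfl rfl
      rw [hU, mem_filter]
      exact ⟨fun h3 => h3.2, fun h3 => ⟨mem_univ _, h3⟩⟩
    · simp only [point, Sum.elim_inr, map_sub, map_pow, MvPolynomial.eval_X]
      split_ifs
      · ring
      · ring
  -- the monomials
  have hm : ∀ m ∈ Q.support, cof Q b m ≠ 0 → (sup m).card ≤ D := by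
    intro m hm h2
    refine le_trans ?_ (hD m hm (cof_zero Q b m h2))
    rw [card_eq_sum_ones]
    refine le_trans (sum_le_sum fun c hc => Nat.one_le_iff_ne_zero.2 (mem_filter.1 hc).2)
      (sum_le_sum_of_subset (filter_subset _ _))
  have key : ∀ m ∈ Q.support, (∑ S ∈ univ.filter (fun S : Finset F => S.Nonempty ∧ S.card ≤ D),
      if ∀ c ∈ S, IsFalse c.1 b then cof Q b m * (if S = sup m then (1 : K) else 0) else 0) =
      cof Q b m * (if sup m ⊆ U then 1 else 0) - cof Q b m * (if sup m ⊆ ∅ then 1 else 0) := by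
    intro m hmQ
    by_cases h2 : cof Q b m = 0
    · simp [h2]
    have h3 := hm m hmQ h2
    have h4 : (∀ c ∈ sup m, IsFalse c.1 b) ↔ sup m ⊆ U := by
      constructor
      · intro h5 c hc
        rw [hU, mem_filter]
        exact ⟨mem_univ _, h5 c hc⟩
      · intro h5 c hc
        exact (mem_filter.1 (h5 hc)).2
    by_cases h5 : sup m = ∅
    · rw [h5, if_pos (empty_subset _), if_pos (empty_subset _), sub_self]
      refine sum_eq_zero fun S hS => ?_
      rw [if_neg (mem_filter.1 hS).2.1.ne_empty, mul_zero, ite_self]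
    · rw [if_neg fun h6 => h5 (subset_empty.1 h6), mul_zero, sub_zero, sum_eq_single (sup m)]
      · rw [if_pos rfl]
        by_cases h6 : sup m ⊆ U
        · rw [if_pos h6, if_pos (h4.2 h6)]
        · rw [if_neg h6, if_neg fun h7 => h6 (h4.1 h7), mul_zero]
      · intro S _ hS
        rw [if_neg hS, mul_zero, ite_self]
      · intro h6
        exact absurd (mem_filter.2 ⟨mem_univ _, nonempty_iff_ne_empty.2 h5, h3⟩) h6
  calc (∑ S ∈ univ.filter (fun S : Finset F => S.Nonempty ∧ S.card ≤ D),
        if ∀ c ∈ S, IsFalse c.1 b then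
          coef (fun T => MvPolynomial.eval (point K b T) Q) S else 0)
      = ∑ S ∈ univ.filter (fun S : Finset F => S.Nonempty ∧ S.card ≤ D),
        ∑ m ∈ Q.support, if ∀ c ∈ S, IsFalse c.1 b then
          cof Q b m * (if S = sup m then (1 : K) else 0) else 0 := by
        refine sum_congr rfl fun S _ => ?_
        by_cases h2 : ∀ c ∈ S, IsFalse c.1 b
        · simp only [if_pos h2]
          exact coef_point Q b S
        · simp only [if_neg h2, sum_const_zero]
    _ = ∑ m ∈ Q.support, (cof Q b m * (if sup m ⊆ U then 1 else 0) -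
        cof Q b m * (if sup m ⊆ ∅ then 1 else 0)) := by
        rw [sum_comm]
        exact sum_congr rfl key
    _ = 1 := by
        rw [sum_sub_distrib, ← eval_point, ← eval_point, f0, f1, sub_zero]

end Pool.Agent.ROA
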