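import Pool.Agent.ROA.CertStmts
import Pool.Agent.ROA.IPS

/-!
# Certificate 1: completeness
-/

set_option autoImplicit false

universe u

namespace Pool.Agent.ROA

open Finset

namespace CRT1M

variable {K : Type u} [Field K] {N : ℕ}

/-- The indicator polynomial of the point `b`. -/
noncomputable def del (K : Type u) [Field K] {N : ℕ} (b : Fin N → Bool) : MvPolynomial (Fin N) K :=
  ∏ i, if b i then MvPolynomial.X i else 1 - MvPolynomial.X i

theorem eval_del (b b' : Fin N → Bool) :
    MvPolynomial.eval (fun x => if b' x then (1 : K) else 0) (del K b) =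
      if b = b' then 1 else 0 := by
  unfold del
  rw [map_prod]
  have h : ∀ i ∈ (univ : Finset (Fin N)), MvPolynomial.eval (fun x => if b' x then (1 : K) else 0)
      (if b i then MvPolynomial.X i else 1 - MvPolynomial.X i) =
      if b i = b' i then 1 else 0 := by
    intro i _
    cases h1 : b i <;> cases h2 : b' i <;> simp [h2]
  rw [prod_congr rfl h, prod_boole]
  by_cases hb : b = b'
  · rw [if_pos hb, if_pos fun i _ => congrFun hb i]
  · rw [if_neg hb, if_neg fun h1 => hb (funext fun i => h1 i (mem_univ i))]

theorem list_prod_diag {R ι : Type*} [CommRing R] {w : ℕ} (d : ι → Fin w → R) (L : List ι) :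
    (L.map fun i => Matrix.diagonal (d i)).prod =
      Matrix.diagonal fun j => (L.map fun i => d i j).prod := by
  induction L with
  | nil => simp
  | cons a L ih =>
    rw [List.map_cons, List.prod_cons, ih, Matrix.diagonal_mul_diagonal]
    congr 1

theorem count_aux {T : Type*} (i : DecidableEq T) (L1 L2 : List T) (x : T) (h1 : L1.Nodup)
    (hx : x ∈ L1) (h2 : x ∉ L2) : (L1 ++ L2).count x = 1 := by
  rw [List.count_append, List.count_eq_one_of_mem h1 hx, List.count_eq_zero_of_not_mem h2]

end CRT1M

open CRT1M in
theorem CRT1_thm : S_CRT1.{u} := by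
  intro K _ N F hF
  let _ : DecidableEq K := Classical.decEq K
  choose c hc hfalse using hF
  let cc : (Fin N → Bool) → F := fun b => ⟨c b, hc b⟩
  obtain ⟨e⟩ : Nonempty (Fin (2 ^ N) ≃ (Fin N → Bool)) :=
    ⟨(Fintype.equivFinOfCardEq (by simp)).symm⟩
  let f : MvPolynomial (Fin N) K := ∑ b, del K b * clausePoly K (c b) - 1
  have hf0 : ∀ x : Fin N → K, (∀ i, x i ∈ ({0, 1} : Finset K)) → MvPolynomial.eval x f = 0 := by
    intro x hx
    have hx2 : x = fun i => if (decide (x i = 1)) then (1 : K) else 0 := by
      funext i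
      have h1 := hx i
      rw [mem_insert, mem_singleton] at h1
      rcases h1 with h1 | h1
      · simp [h1]
      · simp [h1]
    rw [hx2]
    set b' : Fin N → Bool := fun i => decide (x i = 1) with hb'
    change MvPolynomial.eval (fun i => if b' i then (1 : K) else 0) f = 0
    have h2 : MvPolynomial.eval (fun i => if b' i then (1 : K) else 0) f =
        ∑ b, (if b = b' then (1 : K) else 0) * (if IsFalse (c b) b' then 1 else 0) - 1 := by
      change MvPolynomial.eval _ (∑ b, del K b * clausePoly K (c b) - 1) = _
      rw [map_sub, map_sum, map_one]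
      congr 1
      refine sum_congr rfl fun b _ => ?_
      rw [map_mul, eval_del, IPSM.eval_clause]
    rw [h2, sum_eq_single b']
    · rw [if_pos rfl, if_pos (hfalse b'), mul_one, sub_self]
    · intro b _ hb
      rw [if_neg hb, zero_mul]
    · intro h3
      exact absurd (mem_univ _) h3
  obtain ⟨h, -, hh⟩ := MvPolynomial.combinatorial_nullstellensatz_exists_linearCombination
    (fun _ : Fin N => ({0, 1} : Finset K)) (fun _ => ⟨0, by simp⟩) f hf0
  have hh2 : f = ∑ i, h i * (MvPolynomial.X i ^ 2 - MvPolynomial.X i) := by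
    rw [hh, Finsupp.linearCombination_apply, Finsupp.sum_fintype]
    · refine sum_congr rfl fun i _ => ?_
      rw [smul_eq_mul, prod_pair (zero_ne_one)]
      simp only [map_zero, map_one, sub_zero]
      ring
    · intro i
      rw [zero_smul]
  let A : MvPolynomial (Fin N ⊕ (F ⊕ Fin N)) K :=
    ∑ b, MvPolynomial.rename Sum.inl (del K b) * MvPolynomial.X (Sum.inr (Sum.inl (cc b)))
  let B : MvPolynomial (Fin N ⊕ (F ⊕ Fin N)) K :=
    ∑ i, MvPolynomial.rename Sum.inl (h i) * MvPolynomial.X (Sum.inr (Sum.inr i))
  let P : OABP K (Fin N ⊕ (F ⊕ Fin N)) (2 ^ N) :=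
    { s := fun _ => 1
      layers := (List.finRange N).map (fun i => (Sum.inl i, Matrix.diagonal fun j =>
          if e j i then Polynomial.X else 1 - Polynomial.X)) ++
        (univ : Finset F).toList.map (fun C => (Sum.inr (Sum.inl C), Matrix.diagonal fun j =>
          if cc (e j) = C then Polynomial.X else 1))
      t := fun _ => 1 }
  have hP : P.poly = A := by
    have h1 : (List.map (fun l : (Fin N ⊕ (F ⊕ Fin N)) × Matrix (Fin (2 ^ N)) (Fin (2 ^ N))
        (Polynomial K) => l.2.map (Polynomial.aeval
          (MvPolynomial.X l.1 : MvPolynomial (Fin N ⊕ (F ⊕ Fin N)) K))) P.layers).prod =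
        Matrix.diagonal fun j => MvPolynomial.rename Sum.inl (del K (e j)) *
          MvPolynomial.X (Sum.inr (Sum.inl (cc (e j)))) := by
      change (List.map _ (_ ++ _)).prod = _
      rw [List.map_append, List.prod_append, List.map_map, List.map_map]
      have h2 : ((fun l : (Fin N ⊕ (F ⊕ Fin N)) × Matrix (Fin (2 ^ N)) (Fin (2 ^ N))
        (Polynomial K) => l.2.map (Polynomial.aeval
          (MvPolynomial.X l.1 : MvPolynomial (Fin N ⊕ (F ⊕ Fin N)) K))) ∘
          fun i : Fin N => (Sum.inl i, Matrix.diagonal fun j =>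
          if e j i then Polynomial.X else 1 - Polynomial.X)) =
          fun i => Matrix.diagonal fun j => if e j i then
            (MvPolynomial.X (Sum.inl i) : MvPolynomial (Fin N ⊕ (F ⊕ Fin N)) K) else
            1 - MvPolynomial.X (Sum.inl i) := by
        funext i
        simp only [Function.comp_apply]
        rw [Matrix.diagonal_map (map_zero _)]
        congr 1
        funext j
        split_ifs with h3
        · rw [Polynomial.aeval_X]
        · rw [map_sub, map_one, Polynomial.aeval_X]
      have h3 : ((fun l : (Fin N ⊕ (F ⊕ Fin N)) × Matrix (Fin (2 ^ N)) (Fin (2 ^ N))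
        (Polynomial K) => l.2.map (Polynomial.aeval
          (MvPolynomial.X l.1 : MvPolynomial (Fin N ⊕ (F ⊕ Fin N)) K))) ∘
          fun C : F => (Sum.inr (Sum.inl C), Matrix.diagonal fun j =>
          if cc (e j) = C then Polynomial.X else 1)) =
          fun C => Matrix.diagonal fun j => if cc (e j) = C then
            (MvPolynomial.X (Sum.inr (Sum.inl C)) : MvPolynomial (Fin N ⊕ (F ⊕ Fin N)) K) else
            1 := by
        funext C
        simp only [Function.comp_apply]
        rw [Matrix.diagonal_map (map_zero _)]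
        congr 1
        funext j
        split_ifs with h3
        · rw [Polynomial.aeval_X]
        · rw [map_one]
      rw [h2, h3, list_prod_diag, list_prod_diag, Matrix.diagonal_mul_diagonal]
      congr 1
      funext j
      congr 1
      · rw [del, map_prod, Fin.prod_univ_def]
        congr 1
        refine List.map_congr_left fun i _ => ?_
        split_ifs with h4
        · rw [MvPolynomial.rename_X]
        · rw [map_sub, map_one, MvPolynomial.rename_X]
      · rw [Finset.prod_map_toList, prod_ite_eq]
        simp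
    change (fun i => MvPolynomial.C (P.s i)) ⬝ᵥ
      (Matrix.mulVec (List.map (fun l : (Fin N ⊕ (F ⊕ Fin N)) × Matrix (Fin (2 ^ N)) (Fin (2 ^ N))
        (Polynomial K) => l.2.map (Polynomial.aeval
          (MvPolynomial.X l.1 : MvPolynomial (Fin N ⊕ (F ⊕ Fin N)) K))) P.layers).prod
        fun i => MvPolynomial.C (P.t i)) = A
    rw [h1]
    change ∑ j, _ = ∑ b, _
    rw [← e.sum_comp]
    refine sum_congr rfl fun j _ => ?_
    rw [Matrix.mulVec_diagonal]
    change MvPolynomial.C 1 * (_ * MvPolynomial.C 1) = _
    rw [map_one, one_mul, mul_one]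
  refine ⟨A - B, P, ⟨?_, ?_, ?_⟩, ?_, ?_, ?_⟩
  · change MvPolynomial.aeval _ (∑ b, _ - ∑ i, _) = 0
    rw [map_sub, map_sum, map_sum, sum_eq_zero, sum_eq_zero, sub_zero]
    · intro i _
      rw [map_mul, MvPolynomial.aeval_X, Sum.elim_inr, mul_zero]
    · intro i _
      rw [map_mul, MvPolynomial.aeval_X, Sum.elim_inr, mul_zero]
  · change MvPolynomial.aeval _ (∑ b, _ - ∑ i, _) = 1
    rw [map_sub, map_sum, map_sum]
    have h1 : ∀ (g : Fin N ⊕ (F ⊕ Fin N) → MvPolynomial (Fin N) K) (p : MvPolynomial (Fin N) K),
        (∀ i, g (Sum.inl i) = MvPolynomial.X i) →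
        MvPolynomial.aeval g (MvPolynomial.rename Sum.inl p) = p := by
      intro g p hg
      rw [MvPolynomial.aeval_rename]
      have h2 : g ∘ Sum.inl = MvPolynomial.X := funext hg
      rw [h2, MvPolynomial.aeval_X_left, AlgHom.id_apply]
    have h2 : ∑ b, del K b * clausePoly K (c b) -
        ∑ i, h i * (MvPolynomial.X i ^ 2 - MvPolynomial.X i) = 1 := by
      rw [← hh2]
      exact sub_sub_cancel _ _
    rw [← h2]
    congr 1
    · refine sum_congr rfl fun b _ => ?_
      rw [map_mul, h1 _ _ fun i => by rw [Sum.elim_inl], MvPolynomial.aeval_X, Sum.elim_inr,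
        Sum.elim_inl]
    · refine sum_congr rfl fun b _ => ?_
      rw [map_mul, h1 _ _ fun i => by rw [Sum.elim_inl], MvPolynomial.aeval_X, Sum.elim_inr,
        Sum.elim_inr]
  · intro m hm hz
    have hren : ∀ (p : MvPolynomial (Fin N) K) (n : (Fin N ⊕ (F ⊕ Fin N)) →₀ ℕ)
        (y : F ⊕ Fin N), n ∈ (MvPolynomial.rename (Sum.inl : Fin N → Fin N ⊕ (F ⊕ Fin N)) p).support →
        n (Sum.inr y) = 0 := by
      intro p n y hn
      obtain ⟨n', rfl, -⟩ := MvPolynomial.coeff_rename_ne_zero _ _ _
        (MvPolynomial.mem_support_iff.1 hn)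
      rw [Finsupp.mapDomain_of_notMem_range]
      rintro ⟨a, ha⟩
      exact absurd ha (by simp)
    have hm2 : MvPolynomial.coeff m A ≠ 0 ∨ MvPolynomial.coeff m B ≠ 0 := by
      by_contra h1
      push Not at h1
      apply MvPolynomial.mem_support_iff.1 hm
      rw [MvPolynomial.coeff_sub, h1.1, h1.2, sub_zero]
    rcases hm2 with hm2 | hm2
    · rw [MvPolynomial.coeff_sum] at hm2
      obtain ⟨b, -, hb⟩ := exists_ne_zero_of_sum_ne_zero hm2
      have hb2 := MvPolynomial.mem_support_iff.2 hb
      rw [MvPolynomial.support_mul_X, mem_map] at hb2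
      obtain ⟨n, hn, rfl⟩ := hb2
      have h1 : ∀ C : F, (addRightEmbedding (Finsupp.single
          (Sum.inr (Sum.inl (cc b)) : Fin N ⊕ (F ⊕ Fin N)) 1) n) (Sum.inr (Sum.inl C)) =
          if cc b = C then 1 else 0 := by
        intro C
        rw [addRightEmbedding_apply, Finsupp.add_apply, hren _ _ _ hn, zero_add]
        by_cases hC : cc b = C
        · rw [if_pos hC, hC, Finsupp.single_eq_same]
        · rw [if_neg hC, Finsupp.single_eq_of_ne]
          intro h2
          exact hC (Sum.inl_injective (Sum.inr_injective h2)).symm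
      rw [sum_congr rfl fun C _ => h1 C, sum_ite_eq, if_pos (mem_univ _)]
    · rw [MvPolynomial.coeff_sum] at hm2
      obtain ⟨i, -, hi⟩ := exists_ne_zero_of_sum_ne_zero hm2
      have hi2 := MvPolynomial.mem_support_iff.2 hi
      rw [MvPolynomial.support_mul_X, mem_map] at hi2
      obtain ⟨n, hn, rfl⟩ := hi2
      have h1 := hz i
      rw [addRightEmbedding_apply, Finsupp.add_apply, Finsupp.single_eq_same] at h1
      omega
  · rw [hP]
    unfold zeroZ
    rw [map_sub]
    have h1 : MvPolynomial.aeval (Sum.elim
      (fun x => (MvPolynomial.X (Sum.inl x) : MvPolynomial (Fin N ⊕ (F ⊕ Fin N)) K))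
      (Sum.elim (fun y => MvPolynomial.X (Sum.inr (Sum.inl y))) fun _ => 0)) B = 0 := by
      change MvPolynomial.aeval _ (∑ i, _) = 0
      rw [map_sum, sum_eq_zero]
      intro i _
      rw [map_mul, MvPolynomial.aeval_X, Sum.elim_inr, Sum.elim_inr, mul_zero]
    rw [h1, sub_zero]
  · change (List.filter _ (_ ++ _)).length = N
    rw [List.filter_append, List.length_append, List.filter_map, List.filter_map,
      List.length_map, List.length_map]
    have h1 : ((univ : Finset F).toList.filter ((fun l : (Fin N ⊕ (F ⊕ Fin N)) ×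
        Matrix (Fin (2 ^ N)) (Fin (2 ^ N)) (Polynomial K) => l.1.isLeft) ∘
        fun C : F => (Sum.inr (Sum.inl C), Matrix.diagonal fun j =>
          if cc (e j) = C then Polynomial.X else 1))) = [] := by
      rw [List.filter_eq_nil_iff]
      intro C _
      simp
    have h2 : ((List.finRange N).filter ((fun l : (Fin N ⊕ (F ⊕ Fin N)) ×
        Matrix (Fin (2 ^ N)) (Fin (2 ^ N)) (Polynomial K) => l.1.isLeft) ∘
        fun i : Fin N => (Sum.inl i, Matrix.diagonal fun j =>
          if e j i then Polynomial.X else 1 - Polynomial.X))) = List.finRange N := by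
      rw [List.filter_eq_self]
      intro C _
      simp
    rw [h1, h2, List.length_finRange, List.length_nil, add_zero]
  · intro x
    unfold OABP.reads
    have h1 : P.layers.map Prod.fst = (List.finRange N).map Sum.inl ++
        (univ : Finset F).toList.map fun C => Sum.inr (Sum.inl C) := by
      change List.map Prod.fst (_ ++ _) = _
      rw [List.map_append, List.map_map, List.map_map]
      rfl
    rw [h1]
    refine count_aux _ _ _ _ ((List.nodup_finRange N).map Sum.inl_injective)
      (List.mem_map_of_mem (List.mem_finRange x)) ?_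
    intro h2
    rw [List.mem_map] at h2
    obtain ⟨C, -, hC⟩ := h2
    exact absurd hC (by simp)

end Pool.Agent.ROA
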