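import Pool.Agent.ROA.CertStmts
import Pool.Agent.ROA.IPS

/-!
# Module CRT2: a design for reversible pebbling excludes Nullstellensatz refutations
-/

set_option autoImplicit false

universe u

namespace Pool.Agent.ROA

open Finset

namespace CRT2M

variable {K : Type u} [Field K] {V : Type} [Fintype V] [DecidableEq V]

/-- The indicator of the assignments which are true on `A`. -/
def ind (K : Type u) [Field K] (A : Finset V) (z : V → Bool) : K :=
  if ∀ x ∈ A, z x = true then 1 else 0

/-- The local factor of the Moebius function. -/
def mf (K : Type u) [Field K] (b : Bool) (P : Prop) [Decidable P] : K :=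
  if b = true then (if P then 1 else 0) else (if P then -1 else 1)

/-- The weights of the assignments. -/
noncomputable def wt (r : Finset V → K) (z : V → Bool) : K :=
  ∑ U : Finset V, r U * ∏ x, mf K (z x) (x ∈ U)

theorem ind_eq (A : Finset V) (z : V → Bool) :
    ind K A z = ∏ x, if x ∈ A then (if z x = true then (1 : K) else 0) else 1 := by
  rw [Finset.prod_ite_mem univ A, Finset.univ_inter, prod_boole]
  unfold ind
  congr

theorem sum_ind (r : Finset V → K) (A : Finset V) : ∑ z, wt r z * ind K A z = r A := by
  have h1 : ∀ U : Finset V, ∑ z : V → Bool, (∏ x, mf K (z x) (x ∈ U)) * ind K A z =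
      if A = U then 1 else 0 := by
    intro U
    have h2 : ∀ z : V → Bool, (∏ x, mf K (z x) (x ∈ U)) * ind K A z =
        ∏ x, (mf K (z x) (x ∈ U) *
          if x ∈ A then (if z x = true then (1 : K) else 0) else 1) := by
      intro z
      rw [ind_eq, Finset.prod_mul_distrib]
    rw [Finset.sum_congr rfl fun z _ => h2 z]
    have h3 := (Finset.prod_univ_sum (fun _ : V => (univ : Finset Bool)) (fun x b =>
      (mf K b (x ∈ U) * if x ∈ A then (if b = true then (1 : K) else 0) else 1)))
    rw [Fintype.piFinset_univ] at h3
    rw [← h3]
    have h4 : ∀ x ∈ (univ : Finset V), ∑ b : Bool,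
        (mf K b (x ∈ U) * if x ∈ A then (if b = true then (1 : K) else 0) else 1) =
        if (x ∈ A ↔ x ∈ U) then 1 else 0 := by
      intro x _
      rw [Fintype.sum_bool]
      unfold mf
      by_cases hA : x ∈ A <;> by_cases hU : x ∈ U <;> simp [hA, hU]
    rw [Finset.prod_congr rfl h4, prod_boole]
    by_cases h5 : A = U
    · subst h5
      simp
    · rw [if_neg h5, if_neg]
      intro h6
      exact h5 (Finset.ext fun x => h6 x (Finset.mem_univ x))
  unfold wt
  have h7 : ∀ z : V → Bool, (∑ U : Finset V, r U * ∏ x, mf K (z x) (x ∈ U)) * ind K A z =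
      ∑ U : Finset V, r U * ((∏ x, mf K (z x) (x ∈ U)) * ind K A z) := by
    intro z
    rw [Finset.sum_mul]
    exact Finset.sum_congr rfl fun U _ => by ring
  rw [Finset.sum_congr rfl fun z _ => h7 z, Finset.sum_comm]
  have h8 : ∀ U ∈ (univ : Finset (Finset V)), ∑ z : V → Bool,
      r U * ((∏ x, mf K (z x) (x ∈ U)) * ind K A z) = if A = U then r U else 0 := by
    intro U _
    rw [← Finset.mul_sum, h1 U]
    by_cases h9 : A = U
    · rw [if_pos h9, if_pos h9, mul_one]
    · rw [if_neg h9, if_neg h9, mul_zero]
  rw [Finset.sum_congr rfl h8, Finset.sum_ite_eq]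
  simp

/-- The product of two indicators. -/
theorem ind_insert (w : V) (T : Finset V) (z : V → Bool) :
    ind K T z * (if z w = true then 1 else 0) = ind K (insert w T) z := by
  unfold ind
  have h0 : (∀ x ∈ insert w T, z x = true) ↔ z w = true ∧ ∀ x ∈ T, z x = true :=
    Finset.forall_mem_insert w T (fun x => z x = true)
  by_cases h1 : ∀ x ∈ T, z x = true
  · by_cases h2 : z w = true
    · rw [if_pos h1, if_pos h2, if_pos (h0.2 ⟨h2, h1⟩), mul_one]
    · rw [if_neg h2, if_neg (fun h => h2 (h0.1 h).1), mul_zero]
  · rw [if_neg h1, if_neg (fun h => h1 (h0.1 h).2), zero_mul]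

/-- The orthogonality relation. -/
theorem orth {pr : V → Option (V × V)} {t : V} {d : ℕ} {r : Finset V → K}
    (hr : Design pr t d r) (o : Option V) (T : Finset V)
    (hT : T.card + (pebClause pr t o).card ≤ d) :
    ∑ z, wt r z * (ind K T z * if IsFalse (pebClause pr t o) z then 1 else 0) = 0 := by
  cases o with
  | none =>
    have h1 : ∀ z : V → Bool, ind K T z * (if IsFalse (pebClause pr t none) z then (1 : K) else 0) =
        ind K (insert t T) z := by
      intro z
      rw [← ind_insert]
      congr 1
      have : IsFalse (pebClause pr t none) z ↔ z t = true := by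
        unfold IsFalse pebClause
        simp
      simp only [this]
    rw [Finset.sum_congr rfl fun z _ => by rw [h1 z], sum_ind]
    exact hr.sink _ (Finset.mem_insert_self t T)
  | some w =>
    cases hpr : pr w with
    | none =>
      have hc : pebClause pr t (some w) = {(w, true)} := by
        unfold pebClause
        simp only [hpr]
      rw [hc, Finset.card_singleton] at hT
      have h1 : ∀ z : V → Bool, ind K T z *
          (if IsFalse (pebClause pr t (some w)) z then (1 : K) else 0) =
          ind K T z - ind K (insert w T) z := by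
        intro z
        rw [← ind_insert, hc]
        have : IsFalse ({(w, true)} : Finset (V × Bool)) z ↔ ¬ z w = true := by
          unfold IsFalse
          simp
        by_cases h2 : z w = true
        · rw [if_neg (fun h => this.1 h h2), if_pos h2]
          ring
        · rw [if_pos (this.2 h2), if_neg h2]
          ring
      rw [Finset.sum_congr rfl fun z _ => by rw [h1 z, mul_sub], Finset.sum_sub_distrib, sum_ind,
        sum_ind]
      by_cases hw : w ∈ T
      · rw [Finset.insert_eq_of_mem hw, sub_self]
      · rw [hr.move T w hw (by omega) (fun q hq => by rw [hpr] at hq; cases hq), sub_self]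
    | some q =>
      have hc : pebClause pr t (some w) = {(q.1, false), (q.2, false), (w, true)} := by
        unfold pebClause
        simp only [hpr]
      have h1 : ∀ z : V → Bool, ind K T z *
          (if IsFalse (pebClause pr t (some w)) z then (1 : K) else 0) =
          ind K (insert q.1 (insert q.2 T)) z - ind K (insert w (insert q.1 (insert q.2 T))) z := by
        intro z
        rw [← ind_insert w, ← ind_insert q.1, ← ind_insert q.2, hc]
        have : IsFalse ({(q.1, false), (q.2, false), (w, true)} : Finset (V × Bool)) z ↔
            z q.1 = true ∧ z q.2 = true ∧ ¬ z w = true := by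
          unfold IsFalse
          simp
        by_cases h2 : z q.1 = true <;> by_cases h3 : z q.2 = true <;> by_cases h4 : z w = true <;>
          simp [this, h2, h3, h4]
      have hU : (insert q.1 (insert q.2 T)).card < d := by
        rw [hc] at hT
        have h5 : (q.1, false) ≠ (w, true) := by simp
        have h6 : (q.2, false) ≠ (w, true) := by simp
        by_cases h7 : q.1 = q.2
        · have h8 : ({(q.1, false), (q.2, false), (w, true)} : Finset (V × Bool)).card = 2 := by
            rw [h7, Finset.insert_eq_of_mem (Finset.mem_insert_self _ _), Finset.card_pair h6]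
          have h9 : (insert q.1 (insert q.2 T)).card ≤ T.card + 1 := by
            rw [h7, Finset.insert_eq_of_mem (Finset.mem_insert_self _ _)]
            exact Finset.card_insert_le _ _
          omega
        · have h8 : ({(q.1, false), (q.2, false), (w, true)} : Finset (V × Bool)).card = 3 := by
            rw [Finset.card_insert_of_notMem, Finset.card_pair h6]
            simp [h7]
          have h9 : (insert q.1 (insert q.2 T)).card ≤ T.card + 2 :=
            (Finset.card_insert_le _ _).trans (Nat.succ_le_succ (Finset.card_insert_le _ _))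
          omega
      rw [Finset.sum_congr rfl fun z _ => by rw [h1 z, mul_sub], Finset.sum_sub_distrib, sum_ind,
        sum_ind]
      by_cases hw : w ∈ insert q.1 (insert q.2 T)
      · rw [Finset.insert_eq_of_mem hw, sub_self]
      · rw [hr.move _ w hw hU (fun q' hq' => by
          rw [hpr] at hq'
          cases hq'
          simp), sub_self]

/-- The value of a monomial. -/
theorem eval_mono (m : V →₀ ℕ) (z : V → Bool) :
    (∏ x, (if z x = true then (1 : K) else 0) ^ m x) = ind K m.support z := by
  rw [ind_eq]
  refine Finset.prod_congr rfl fun x _ => ?_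
  by_cases h1 : x ∈ m.support
  · rw [if_pos h1]
    have h2 : m x ≠ 0 := Finsupp.mem_support_iff.1 h1
    by_cases h3 : z x = true
    · rw [if_pos h3, one_pow]
    · rw [if_neg h3, zero_pow h2]
  · rw [if_neg h1]
    have h2 : m x = 0 := Finsupp.notMem_support_iff.1 h1
    rw [h2, pow_zero]

theorem main {pr : V → Option (V × V)} {t : V} {d : ℕ} {r : Finset V → K}
    (hr : Design pr t d r) : ¬ NSRefutes K d (peb pr t) := by
  rintro ⟨g, hg, h1⟩
  have h2 : ∑ z, wt r z * (∑ c : peb pr t, MvPolynomial.eval (fun x => if z x then (1 : K) else 0)
      (g c * clausePoly K c.1)) = 1 := by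
    have h3 := sum_ind r ∅
    rw [hr.empty] at h3
    refine Eq.trans (Finset.sum_congr rfl fun z _ => ?_) h3
    rw [h1 z]
    simp [ind]
  have h4 : ∑ z, wt r z * (∑ c : peb pr t, MvPolynomial.eval (fun x => if z x then (1 : K) else 0)
      (g c * clausePoly K c.1)) = 0 := by
    have h5 : ∀ z : V → Bool, wt r z * (∑ c : peb pr t,
        MvPolynomial.eval (fun x => if z x then (1 : K) else 0) (g c * clausePoly K c.1)) =
        ∑ c : peb pr t, ∑ m ∈ (g c).support, (g c).coeff m *
          (wt r z * (ind K m.support z * if IsFalse c.1 z then 1 else 0)) := by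
      intro z
      rw [Finset.mul_sum]
      refine Finset.sum_congr rfl fun c _ => ?_
      rw [map_mul, IPSM.eval_clause, MvPolynomial.eval_eq', Finset.sum_mul, Finset.mul_sum]
      refine Finset.sum_congr rfl fun m _ => ?_
      rw [eval_mono]
      ring
    rw [Finset.sum_congr rfl fun z _ => h5 z, Finset.sum_comm]
    refine Finset.sum_eq_zero fun c _ => ?_
    rw [Finset.sum_comm]
    refine Finset.sum_eq_zero fun m hm => ?_
    rw [← Finset.mul_sum]
    obtain ⟨o, _, ho⟩ := Finset.mem_image.1 c.2
    have h6 : g c ≠ 0 := by
      intro h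
      rw [h] at hm
      simp at hm
    have h7 : m.support.card ≤ (g c).totalDegree := by
      refine le_trans ?_ (MvPolynomial.le_totalDegree hm)
      rw [Finset.card_eq_sum_ones]
      exact Finset.sum_le_sum fun x hx => Nat.one_le_iff_ne_zero.2 (Finsupp.mem_support_iff.1 hx)
    have h8 := hg c h6
    have h9 := orth hr o m.support (by rw [ho]; omega)
    rw [ho] at h9
    rw [h9, mul_zero]
  rw [h4] at h2
  exact zero_ne_one h2

end CRT2M

theorem CRT2_thm : S_CRT2.{u} := fun _ _ _ _ _ _ _ _ _ hr _ => CRT2M.main hr

end Pool.Agent.ROA
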