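import Pool.Agent.ROA.Rank

/-!
# The rank of the values of an oblivious algebraic branching program
-/

set_option autoImplicit false

universe u

namespace Pool.Agent.ROA

open Finset

namespace CUTM

variable {K : Type u} [Field K] {T : Type} {w : ℕ} {X Y : Type}

/-- The product of the matrices of a block. -/
noncomputable def mp (u : List (T × Matrix (Fin w) (Fin w) (Polynomial K))) (τ : T → K) :
    Matrix (Fin w) (Fin w) K :=
  (List.map (fun l : T × Matrix (Fin w) (Fin w) (Polynomial K) =>
    l.2.map (Polynomial.eval (τ l.1))) u).prod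

theorem mp_congr (u : List (T × Matrix (Fin w) (Fin w) (Polynomial K))) (τ τ' : T → K)
    (h : ∀ l ∈ u, τ l.1 = τ' l.1) : mp u τ = mp u τ' := by
  unfold mp
  congr 1
  apply List.map_congr_left
  intro l hl
  rw [h l hl]

/-- The entries of a row times the product of the blocks. -/
theorem key (L : List (List (T × Matrix (Fin w) (Fin w) (Polynomial K)))) (τ : X → Y → T → K)
    (hL : ∀ u ∈ L, (∀ l ∈ u, ∀ b a a', τ b a l.1 = τ b a' l.1) ∨
      (∀ l ∈ u, ∀ b b' a, τ b a l.1 = τ b' a l.1)) (R : ℕ) (s : X → Y → Fin w → K)
    (hs : ∀ i, RankLE R fun b a => s b a i) (j : Fin w) :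
    RankLE (w ^ L.length * R) fun b a =>
      Matrix.vecMul (s b a) (List.map (fun u => mp u (τ b a)) L).prod j := by
  induction L generalizing R s with
  | nil =>
    refine ((hs j).mono (by simp)).congr fun b a => ?_
    simp
  | cons u L ih =>
    have h1 := ih (fun v hv => hL v (List.mem_cons_of_mem _ hv)) (w * R)
      (fun b a => Matrix.vecMul (s b a) (mp u (τ b a))) ?_
    · refine (h1.mono (by rw [List.length_cons, pow_succ, mul_assoc])).congr fun b a => ?_
      rw [List.map_cons, List.prod_cons, Matrix.vecMul_vecMul]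
    · intro i
      have h2 : ∀ x : Fin w, RankLE R fun b a => s b a x * mp u (τ b a) x i := by
        intro x
        rcases isEmpty_or_nonempty X with hX | ⟨⟨b₀⟩⟩
        · exact ⟨fun b => hX.elim b, fun _ _ => 0, fun b => hX.elim b⟩
        rcases isEmpty_or_nonempty Y with hY | ⟨⟨a₀⟩⟩
        · exact ⟨fun _ _ => 0, fun a => hY.elim a, fun _ a => hY.elim a⟩
        rcases hL u List.mem_cons_self with h3 | h3
        · refine ((hs x).scale (fun b => mp u (τ b a₀) x i) (fun _ => 1)).congr fun b a => ?_
          rw [mp_congr u (τ b a) (τ b a₀) fun l hl => h3 l hl b a a₀]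
          ring
        · refine ((hs x).scale (fun _ => 1) (fun a => mp u (τ b₀ a) x i)).congr fun b a => ?_
          rw [mp_congr u (τ b a) (τ b₀ a) fun l hl => h3 l hl b b₀ a]
          ring
      have h4 := RankLE.sum (univ : Finset (Fin w)) fun x _ => h2 x
      rw [Finset.card_univ, Fintype.card_fin] at h4
      exact h4

end CUTM

open CUTM

theorem CUT_thm : S_CUT.{u} := by
  intro K _ T w P L X Y τ hL hind
  have h1 : ∀ i, RankLE (w ^ L.length * 1) fun b a =>
      Matrix.vecMul P.s (List.map (fun u => mp u (τ b a)) L).prod i :=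
    key L τ hind 1 (fun _ _ => P.s) fun i => RankLE.const (P.s i)
  have h2 := RankLE.sum (univ : Finset (Fin w)) fun i _ => (h1 i).smul (P.t i)
  rw [Finset.card_univ, Fintype.card_fin, mul_one, ← pow_succ'] at h2
  refine h2.congr fun b a => ?_
  unfold OABP.val
  have h3 : (List.map (fun l : T × Matrix (Fin w) (Fin w) (Polynomial K) =>
      l.2.map (Polynomial.eval (τ b a l.1))) P.layers).prod =
      (List.map (fun u => mp u (τ b a)) L).prod := by
    rw [← hL]
    clear hind h1 h2 hL
    induction L with
    | nil => rfl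
    | cons u L ih =>
      rw [List.flatten_cons, List.map_append, List.prod_append, ih, List.map_cons, List.prod_cons]
      rfl
  rw [h3, Matrix.dotProduct_mulVec, dotProduct]
  exact Finset.sum_congr rfl fun i _ => mul_comm _ _

end Pool.Agent.ROA
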