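import Pool.Agent.ROA.GDefs

/-!
# Certificates: the hypotheses of the theorems can be satisfied
-/

set_option autoImplicit false

universe u

namespace Pool.Agent.ROA

open Finset

/-- Certificate 1 (completeness). Every unsatisfiable CNF has an IPS refutation of degree one in the
variables of the clauses which a read-once oblivious algebraic branching program of width `2 ^ N`
computes (after `z := 0`). For each `b` let `c b` be a clause which is false under `b`, let
`δ b = ∏ i, (if b i then X i else 1 - X i)` and `g c = ∑ b with c b = c, δ b`. Then
`∑ c, g c * clausePoly c - 1` vanishes on the cube, so it is `∑ i, h i * (X i ^ 2 - X i)`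
(combinatorial Nullstellensatz), and `Q = ∑ c, y c * g c - ∑ i, h i * z i`. The program: states `b`,
all matrices diagonal, row and column `1`: one layer for each `i`, the entry of `b` is `X` or `1 - X`,
and one layer for each clause `C`, the entry of `b` is `X` if `c b = C`, otherwise `1`. -/
def S_CRT1 : Prop := ∀ (K : Type u) [Field K] (N : ℕ) (F : Finset (Finset (Fin N × Bool))),
  (∀ b, ∃ c ∈ F, IsFalse c b) →
  ∃ (Q : MvPolynomial (Fin N ⊕ (F ⊕ Fin N)) K) (P : OABP K (Fin N ⊕ (F ⊕ Fin N)) (2 ^ N)),
    IsRefutation 1 F Q ∧ zeroZ P.poly = zeroZ Q ∧ P.len = N ∧ ∀ x : Fin N, P.reads (Sum.inl x) = 1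

/-- The clauses of the pebbling formula. -/
def pebClause {V : Type} [DecidableEq V] (pr : V → Option (V × V)) (t : V) :
    Option V → Finset (V × Bool)
  | none => {(t, false)}
  | some w => match pr w with
    | none => {(w, true)}
    | some q => {(q.1, false), (q.2, false), (w, true)}

/-- The pebbling formula. -/
def peb {V : Type} [Fintype V] [DecidableEq V] (pr : V → Option (V × V)) (t : V) :
    Finset (Finset (V × Bool)) := univ.image (pebClause pr t)

/-- Certificate 2. A design for reversible pebbling with `d` pebbles excludes Nullstellensatz
refutations of degree `d` of the pebbling formula. Let `E` be the linear functional on the functions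
on the cube with `E (∏ x ∈ U, z x) = r U` (these products are a basis). Then `E 1 = 1`, and
`E (f_c * ∏ x ∈ T, z x) = 0` if `T.card + c.card ≤ d`: for `{(t, false)}` the value is
`r (insert t T) = 0`; for `{(w, true)}` it is `r T - r (insert w T) = 0` by `Design.move`; for the
third kind it is `r U - r (insert w U)` with `U = insert q.1 (insert q.2 T)`, `U.card < d`. -/
def S_CRT2 : Prop := ∀ (K : Type u) [Field K] (V : Type) [Fintype V] [DecidableEq V]
  (pr : V → Option (V × V)) (t : V) (d : ℕ) (r : Finset V → K), Design pr t d r →
  (∀ u q, pr u = some q → q.1 ≠ u ∧ q.2 ≠ u) → ¬ NSRefutes K d (peb pr t)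

end Pool.Agent.ROA
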