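import Pool.Agent.ROA.Rank

/-!
# The indicator of the reachable sets
-/

set_option autoImplicit false

universe u

namespace Pool.Agent.ROA

open Finset

theorem DES_thm : S_DES.{u} := by
  intro K _ V _ pr t d ht
  classical
  have hcard : ∀ U, Reach pr d U → U.card ≤ d := by
    intro U hU
    induction hU with
    | empty => simp
    | put hU hw hd hq ih =>
      rw [Finset.card_insert_of_notMem hw]
      omega
    | take hU hw hq ih =>
      rw [Finset.card_insert_of_notMem hw] at ih
      omega
  refine ⟨fun U => if Reach pr d U then 1 else 0, ?_, ?_, ?_, ?_⟩
  · exact if_pos Reach.empty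
  · intro U hU
    exact if_neg fun h => absurd (hcard U h) (by omega)
  · intro U hU
    exact if_neg fun h => ht U h hU
  · intro U w hw hd hq
    have : Reach pr d (insert w U) ↔ Reach pr d U :=
      ⟨fun h => Reach.take h hw hq, fun h => Reach.put h hw hd hq⟩
    simp only [this]

end Pool.Agent.ROA
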