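import Mathlib

/-!
# Oblivious algebraic branching programs as ideal proof system refutations: definitions

The system IPS_LIN' (Grochow and Pitassi; Forbes, Shpilka, Tzameret, Wigderson): a refutation of the
unsatisfiable CNF `F` over the field `K` is a polynomial `Q(x, y, z)`, with one variable `y` for each
clause and one variable `z` for each variable `x`, such that `Q(x, 0, 0) = 0` and
`Q(x, f(x), x ^ 2 - x) = 1`, where `f` are the polynomials of the clauses, and `Q(x, y, 0)` has
degree at most one in `y`. Here the degree in `y` is at most `D`, and `Q` is computed by an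
oblivious algebraic branching program.
-/

set_option autoImplicit false

universe u

namespace Pool.Agent.ROA

open Finset

/-! ### Refutations -/

/-- An oblivious algebraic branching program of width `w` in the variables `T`: a row, a list of
layers, each a variable and a matrix whose entries are polynomials in this variable, and a
column. -/
structure OABP (K : Type u) [Field K] (T : Type) (w : ℕ) where
  /-- the row -/
  s : Fin w → K
  /-- the layers -/
  layers : List (T × Matrix (Fin w) (Fin w) (Polynomial K))
  /-- the column -/
  t : Fin w → K

/-- The computed polynomial: the row times the product of the matrices times the column. -/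
noncomputable def OABP.poly {K : Type u} [Field K] {T : Type} {w : ℕ} (P : OABP K T w) :
    MvPolynomial T K :=
  (fun i => MvPolynomial.C (P.s i)) ⬝ᵥ
    (Matrix.mulVec (List.map (fun l : T × Matrix (Fin w) (Fin w) (Polynomial K) =>
      l.2.map (Polynomial.aeval (MvPolynomial.X l.1 : MvPolynomial T K))) P.layers).prod
        fun i => MvPolynomial.C (P.t i))

/-- The number of layers of the variable `x`. -/
def OABP.reads {K : Type u} [Field K] {T : Type} [DecidableEq T] {w : ℕ} (P : OABP K T w)
    (x : T) : ℕ := (P.layers.map Prod.fst).count x

/-- A clause is the finite set of its literals; the literal `(x, v)` is true if `x` has the value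
`v`. The clause is false under `b` if all its literals are. -/
def IsFalse {W : Type} (c : Finset (W × Bool)) (b : W → Bool) : Prop := ∀ l ∈ c, b l.1 ≠ l.2

instance instDecIsFalse {W : Type} (c : Finset (W × Bool)) (b : W → Bool) :
    Decidable (IsFalse c b) := inferInstanceAs (Decidable (∀ l ∈ c, b l.1 ≠ l.2))

/-- The polynomial of a clause: the product of `1 - x` for the literals `x` and of `x` for the
literals `not x`. It is `1` where the clause is false and `0` elsewhere on the cube. -/
noncomputable def clausePoly (K : Type u) [Field K] {W : Type} (c : Finset (W × Bool)) :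
    MvPolynomial W K :=
  ∏ l ∈ c, if l.2 then 1 - MvPolynomial.X l.1 else MvPolynomial.X l.1

/-- `Q` is an IPS refutation of the CNF `F` over `K`, of degree at most `D` in the variables of the
clauses after the substitution of `0` for the variables `z`. The variables are those of `F`, then
one for each clause and once more one for each variable. -/
def IsRefutation {K : Type u} [Field K] {W : Type} (D : ℕ) (F : Finset (Finset (W × Bool)))
    (Q : MvPolynomial (W ⊕ (F ⊕ W)) K) : Prop :=
  MvPolynomial.aeval (Sum.elim (fun x => (MvPolynomial.X x : MvPolynomial W K)) fun _ => 0) Q = 0 ∧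
  MvPolynomial.aeval (Sum.elim (fun x => (MvPolynomial.X x : MvPolynomial W K))
    (Sum.elim (fun c => clausePoly K c.1)
      fun x => MvPolynomial.X x ^ 2 - MvPolynomial.X x)) Q = 1 ∧
  ∀ m ∈ Q.support, (∀ x, m (Sum.inr (Sum.inr x)) = 0) → ∑ c : F, m (Sum.inr (Sum.inl c)) ≤ D

/-! ### Rank -/

/-- The matrix `M` is a sum of `w` products: its rank is at most `w`. -/
def RankLE {K : Type u} [Field K] {X Y : Type} (w : ℕ) (M : X → Y → K) : Prop :=
  ∃ (α : X → Fin w → K) (γ : Y → Fin w → K), ∀ x y, M x y = ∑ i, α x i * γ y i

/-- The value of the branching program at the point `τ`. -/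
noncomputable def OABP.val {K : Type u} [Field K] {T : Type} {w : ℕ} (P : OABP K T w)
    (τ : T → K) : K :=
  P.s ⬝ᵥ (Matrix.mulVec (List.map (fun l : T × Matrix (Fin w) (Fin w) (Polynomial K) =>
    l.2.map (Polynomial.eval (τ l.1))) P.layers).prod P.t)

/-- The point given by an assignment `b` of the variables of the formula and a set `S` of clauses:
the variables of the clauses of `S` are `1`, the other ones and the variables `z` are `0`. -/
def point (K : Type u) [Field K] {W : Type} {F : Finset (Finset (W × Bool))} [DecidableEq F]
    (b : W → Bool) (S : Finset F) : W ⊕ (F ⊕ W) → K :=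
  Sum.elim (fun x => if b x then 1 else 0) (Sum.elim (fun c => if c ∈ S then 1 else 0) fun _ => 0)

/-- The coefficient of the set `S` of clauses, as a function on the cube, given the values `g` for
sets of clauses (inclusion and exclusion). -/
def coef {K : Type u} [Field K] {ι : Type} (g : Finset ι → K) (S : Finset ι) : K :=
  ∑ T ∈ S.powerset, (-1) ^ (S.card - T.card) * g T

/-! ### Patterns -/

/-- The assignment `b` hits the pattern `c`: it has the values prescribed by `c`. -/
def Hit {W : Type} (c : Finset (W × Bool)) (b : W → Bool) : Prop := ∀ l ∈ c, b l.1 = l.2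

/-! ### Pebbling -/

section

variable {V : Type} [DecidableEq V]

/-- The sets of vertices reachable by reversible pebbling with at most `d` pebbles: a pebble may be
put on or taken from `w` if the two predecessors `pr w` (none for a source) have pebbles. -/
inductive Reach (pr : V → Option (V × V)) (d : ℕ) : Finset V → Prop
  | empty : Reach pr d ∅
  | put {U : Finset V} {w : V} : Reach pr d U → w ∉ U → U.card < d →
      (∀ q, pr w = some q → q.1 ∈ U ∧ q.2 ∈ U) → Reach pr d (insert w U)
  | take {U : Finset V} {w : V} : Reach pr d (insert w U) → w ∉ U →
      (∀ q, pr w = some q → q.1 ∈ U ∧ q.2 ∈ U) → Reach pr d U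

/-- A weight on the sets of vertices which is invariant under reversible pebbling with at most `d`
pebbles and which vanishes on the sets with the sink `t`. -/
structure Design {K : Type u} [Field K] (pr : V → Option (V × V)) (t : V) (d : ℕ)
    (r : Finset V → K) : Prop where
  empty : r ∅ = 1
  big : ∀ U, d < U.card → r U = 0
  sink : ∀ U, t ∈ U → r U = 0
  move : ∀ U w, w ∉ U → U.card < d → (∀ q, pr w = some q → q.1 ∈ U ∧ q.2 ∈ U) →
    r (insert w U) = r U

/-- The forbidden patterns of the pebbling formula, each as three pairs (vertex, value), possibly
equal: the sink is true; a source is false; a vertex is false and its predecessors are true. -/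
def bp (pr : V → Option (V × V)) (t : V) : Option V → Fin 3 → V × Bool
  | none, _ => (t, true)
  | some w, i => match pr w with
    | none => (w, false)
    | some q => ![(q.1, true), (q.2, true), (w, false)] i

variable [Fintype V]

/-- The function with the weights `r`. -/
noncomputable def phi {K : Type u} [Field K] (r : Finset V → K) (z : V → K) : K :=
  ∑ U : Finset V, r U * ∏ x ∈ Uᶜ, (z x - 1)

/-- The lifted function: `z x = 1` if `a x = b x` and `0` otherwise. -/
noncomputable def mat {K : Type u} [Field K] (k : ℕ) (r : Finset V → K) (b a : V → Fin k) : K :=
  phi r fun x => if a x = b x then 1 else 0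

end

/-! ### The formula -/

section

variable (V : Type) (k m : ℕ)

/-- The roles: the cells `(u, i)`, `i < k`, and the chain bits `(u, i)`, `i ≤ k`. The chain of `u`
points to the cell `i` if its bit `i` is `1` and its bit `i + 1` is `0`. -/
abbrev Role : Type := (V × Fin k) ⊕ (V × Fin (k + 1))

/-- The variables of the formula: the array of length `m` and for each role a selector, a chain of
`m + 1` bits which points to a position of the array. -/
abbrev Var : Type := Fin m ⊕ (Role V k × Fin (m + 1))

/-- The indices of the clauses: lifted patterns (with the positions of nine roles), the two ends of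
the chains (with the position of the role), the two ends of the selectors. -/
abbrev Idx : Type :=
  (Option V × (Fin 3 → Fin k) × (Fin 3 → Fin 3 → Fin m)) ⊕ ((V × Bool × Fin m) ⊕ (Role V k × Bool))

end

section

variable {V : Type} [DecidableEq V] {k m : ℕ}

instance instDecRole : DecidableEq (Role V k) := inferInstance

instance instDecVar : DecidableEq (Var V k m) := inferInstance

instance instDecLit : DecidableEq (Var V k m × Bool) := instDecidableEqProd

/-- The roles and values in the pattern `o` whose vertices point to the cells `a`: the cell has the
prescribed value, the chain bit `a i` is `1`, the next one is `0`. -/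
def rp (pr : V → Option (V × V)) (t : V) (o : Option V) (a : Fin 3 → Fin k) (i j : Fin 3) :
    Role V k × Bool :=
  ![(Sum.inl ((bp pr t o i).1, a i), (bp pr t o i).2),
    (Sum.inr ((bp pr t o i).1, (a i).castSucc), true),
    (Sum.inr ((bp pr t o i).1, (a i).succ), false)] j

/-- The role `r` is at the position `q` and has the value `v`. -/
def place (r : Role V k) (v : Bool) (q : Fin m) : Finset (Var V k m × Bool) :=
  {(Sum.inl q, v), (Sum.inr (r, q.castSucc), true), (Sum.inr (r, q.succ), false)}

/-- The forbidden patterns of the formula. -/
def pat (pr : V → Option (V × V)) (t : V) : Idx V k m → Finset (Var V k m × Bool)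
  | Sum.inl (o, a, q) => univ.biUnion fun i : Fin 3 => univ.biUnion fun j : Fin 3 =>
      place (rp pr t o a i j).1 (rp pr t o a i j).2 (q i j)
  | Sum.inr (Sum.inl (u, v, q)) =>
      place (Sum.inr (u, if v then Fin.last k else 0)) v q
  | Sum.inr (Sum.inr (r, v)) => {(Sum.inr (r, if v then Fin.last m else 0), v)}

/-- The assignment of the roles given by `b`, `a`: the cell `(u, i)` is `1` iff `i = b u`, the chain
bit `(u, i)` is `1` iff `i ≤ a u`. -/
def roleVal (b a : V → Fin k) : Role V k → Bool
  | Sum.inl (u, i) => decide (i = b u)
  | Sum.inr (u, i) => decide (i ≤ (a u).castSucc)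

/-- The assignment of all variables given by `b`, `a` and the positions `pos` of the roles; the
array is `false` outside these positions. -/
def full [Fintype V] (pos : Role V k → Fin m) (b a : V → Fin k) : Var V k m → Bool
  | Sum.inl q => decide (∃ r, pos r = q ∧ roleVal b a r = true)
  | Sum.inr (r, i) => decide (i ≤ (pos r).castSucc)

/-- The condition on `b`, `a` under which the pattern `o` with cells `α` is hit. -/
def Cond (pr : V → Option (V × V)) (t : V) (o : Option V) (α : Fin 3 → Fin k)
    (b a : V → Fin k) : Prop :=
  ∀ i, a (bp pr t o i).1 = α i ∧ decide (b (bp pr t o i).1 = α i) = (bp pr t o i).2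

instance instDecCond (pr : V → Option (V × V)) (t : V) (o : Option V) (α : Fin 3 → Fin k)
    (b a : V → Fin k) : Decidable (Cond pr t o α b a) :=
  inferInstanceAs (Decidable (∀ i, a (bp pr t o i).1 = α i ∧
    decide (b (bp pr t o i).1 = α i) = (bp pr t o i).2))

end

/-! ### The pyramid -/

/-- The vertices of the pyramid of height `h`: (level, place), level + place `≤ h`. -/
abbrev Pyr (h : ℕ) : Type := {p : Fin (h + 1) × Fin (h + 1) // p.1.val + p.2.val ≤ h}

/-- The predecessors of `(i + 1, j)` are `(i, j)` and `(i, j + 1)`. -/
def pyrPred (h : ℕ) (p : Pyr h) : Option (Pyr h × Pyr h) :=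
  if hp : p.1.1.val = 0 then none else
    some (⟨(⟨p.1.1.val - 1, by omega⟩, p.1.2), by
        have := p.2
        simp only
        omega⟩,
      ⟨(⟨p.1.1.val - 1, by omega⟩, ⟨p.1.2.val + 1, by
        have := p.2
        omega⟩), by
        have := p.2
        simp only
        omega⟩)

/-- The sink `(h, 0)`. -/
def pyrSink (h : ℕ) : Pyr h := ⟨(⟨h, by omega⟩, ⟨0, by omega⟩), by simp⟩

end Pool.Agent.ROA
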