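import Pool.Agent.ROA.Defs2

/-!
# Free Boolean axioms
-/

set_option autoImplicit false

universe u

namespace Pool.Agent.ROA

/-- The substitution of `0` for the variables `z` (of the Boolean axioms). -/
noncomputable def zeroZ {K : Type u} [Field K] {W Y Z : Type} (Q : MvPolynomial (W ⊕ (Y ⊕ Z)) K) :
    MvPolynomial (W ⊕ (Y ⊕ Z)) K :=
  MvPolynomial.aeval (Sum.elim
    (fun x => (MvPolynomial.X (Sum.inl x) : MvPolynomial (W ⊕ (Y ⊕ Z)) K))
    (Sum.elim (fun y => MvPolynomial.X (Sum.inr (Sum.inl y))) fun _ => 0)) Q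

/-- The final theorem: `Q` is an IPS refutation of `F`, of degree at most `N ^ c` in the variables of
the clauses, and `P` is an oblivious algebraic branching program, at most `c N log N / log log N`
layers of which read variables of the formula, which computes `Q` with `0` in place of the variables
`z`; then the width of `P` is at least `2 ^ (N ^ c)`. -/
def MainStatement3 : Prop := ∃ c : ℝ, 0 < c ∧ ∃ N₀ : ℕ, ∀ N ≥ N₀,
  ∃ F : Finset (Finset (Fin N × Bool)),
  (∀ C ∈ F, C.card ≤ 29) ∧ F.card ≤ N ^ 7 ∧ (∀ b, ∃ C ∈ F, IsFalse C b) ∧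
  ∀ (K : Type u) [Field K] (w D : ℕ) (Q : MvPolynomial (Fin N ⊕ (F ⊕ Fin N)) K)
    (P : OABP K (Fin N ⊕ (F ⊕ Fin N)) w),
    IsRefutation D F Q → zeroZ P.poly = zeroZ Q → (D : ℝ) ≤ (N : ℝ) ^ c →
    (P.len : ℝ) ≤ c * N * Real.log N / Real.log (Real.log N) → (2 : ℝ) ^ ((N : ℝ) ^ c) ≤ w

end Pool.Agent.ROA
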