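import Pool.Agent.ROA.Rank

/-!
# The value of the polynomial of an oblivious algebraic branching program
-/

set_option autoImplicit false

universe u

namespace Pool.Agent.ROA

open Finset

theorem EVL_thm : S_EVL.{u} := by
  intro K _ T w P τ
  unfold OABP.poly OABP.val
  rw [dotProduct, dotProduct, map_sum]
  refine Finset.sum_congr rfl fun i _ => ?_
  rw [map_mul, MvPolynomial.eval_C]
  congr 1
  generalize P.layers = l
  -- the vectors
  have key : ∀ (l : List (T × Matrix (Fin w) (Fin w) (Polynomial K))) (i j : Fin w),
      MvPolynomial.eval τ ((List.map (fun l : T × Matrix (Fin w) (Fin w) (Polynomial K) =>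
        l.2.map (Polynomial.aeval (MvPolynomial.X l.1 : MvPolynomial T K))) l).prod i j) =
      (List.map (fun l : T × Matrix (Fin w) (Fin w) (Polynomial K) =>
        l.2.map (Polynomial.eval (τ l.1))) l).prod i j := by
    intro l
    induction l with
    | nil =>
      intro i j
      simp only [List.map_nil, List.prod_nil, Matrix.one_apply]
      split_ifs <;> simp
    | cons a l ih =>
      intro i j
      simp only [List.map_cons, List.prod_cons, Matrix.mul_apply, map_sum, map_mul]
      refine Finset.sum_congr rfl fun x _ => ?_
      rw [ih]
      congr 1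
      simp only [Matrix.map_apply]
      rw [Polynomial.aeval_def, Polynomial.hom_eval₂]
      have h1 : (MvPolynomial.eval τ).comp (algebraMap K (MvPolynomial T K)) = RingHom.id K :=
        RingHom.ext fun a => by
          rw [RingHom.comp_apply, MvPolynomial.algebraMap_eq, MvPolynomial.eval_C,
            RingHom.id_apply]
      rw [h1, MvPolynomial.eval_X, Polynomial.eval₂_id]
  rw [Matrix.mulVec, Matrix.mulVec, dotProduct, dotProduct, map_sum]
  refine Finset.sum_congr rfl fun j _ => ?_
  rw [map_mul, MvPolynomial.eval_C, key]

end Pool.Agent.ROA
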