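import Pool.Agent.ROA.FIN
import Pool.Agent.ROA.Stmts2
import Pool.Agent.ROA.Defs3

/-!
# Assembly, second part
-/

set_option autoImplicit false

universe u

namespace Pool.Agent.ROA

open Finset

namespace FIN2M

open FINM

section

variable {V : Type} [Fintype V] [DecidableEq V] {k m G N : ℕ}

theorem full2_congr (g : Fin G) (pos : Role V k → Fin m) (b a b' a' : V → Fin k)
    (v : Var2 V k m G)
    (h : ∀ r, v = Sum.inl (g, pos r) → roleVal b a r = roleVal b' a' r) :
    full2 g pos b a v = full2 g pos b' a' v := by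
  rcases v with ⟨g', q⟩ | v | v
  · simp only [full2]
    rw [decide_eq_decide]
    constructor
    · rintro ⟨h0, r, h1, h2⟩
      exact ⟨h0, r, h1, by rw [← h r (by rw [h0, h1]), h2]⟩
    · rintro ⟨h0, r, h1, h2⟩
      exact ⟨h0, r, h1, by rw [h r (by rw [h0, h1]), h2]⟩
  · simp only [full2]
  · simp only [full2]

theorem point_congr2 (K : Type u) [Field K] {F : Finset (Finset (Fin N × Bool))}
    (ι : Var2 V k m G → Fin N) (hι : Function.Injective ι) (g : Fin G) (pos : Role V k → Fin m)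
    (b a b' a' : V → Fin k) (T : Finset F) (z : Fin N ⊕ (F ⊕ Fin N))
    (h : ∀ r, z = Sum.inl (ι (Sum.inl (g, pos r))) → roleVal b a r = roleVal b' a' r) :
    point K (extn ι (full2 g pos b a)) T z = point K (extn ι (full2 g pos b' a')) T z := by
  rcases z with x | z
  · have h1 : extn ι (full2 g pos b a) x = extn ι (full2 g pos b' a') x := by
      apply extn_congr hι
      intro v hv
      apply full2_congr
      intro r hr
      exact h r (by rw [← hv, hr])
    simp only [point, Sum.elim_inl, h1]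
  · simp only [point, Sum.elim_inr]

/-- The clauses of the formula. -/
def cls2 (pr : V → Option (V × V)) (t : V) (ι : Var2 V k m G → Fin N) (x : Idx2 V k m G) :
    Finset (Fin N × Bool) :=
  clauseOf ι (pat2 pr t x)

/-- The formula. -/
def cnf2 (pr : V → Option (V × V)) (t : V) (ι : Var2 V k m G → Fin N) :
    Finset (Finset (Fin N × Bool)) :=
  univ.image (cls2 pr t ι)

theorem hits2 (pr : V → Option (V × V)) (t : V) (ι : Var2 V k m G → Fin N)
    (hι : Function.Injective ι) (β : Var2 V k m G → Bool) (x : Idx2 V k m G) :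
    IsFalse (cls2 pr t ι x) (extn ι β) ↔ Hit (pat2 pr t x) β := by
  unfold cls2
  rw [isFalse_clauseOf]
  have : (fun v => extn ι β (ι v)) = β := funext fun v => extn_apply hι _ v
  rw [this]

theorem hits2_inl (hRES : S_RES2) (pr : V → Option (V × V)) (t : V) (ι : Var2 V k m G → Fin N)
    (hι : Function.Injective ι) (g : Fin G) (pos : Role V k → Fin m)
    (hpos : Function.Injective pos) (o : Option V) (α : Fin 3 → Fin k) (b a : V → Fin k) :
    IsFalse (cls2 pr t ι (Sum.inl (o, α, g, tq pr t pos o α))) (extn ι (full2 g pos b a)) ↔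
      Cond pr t o α b a := by
  rw [hits2 pr t ι hι, (hRES V k m G pr t g pos hpos b a).1]
  exact ⟨fun h' => h'.2.2, fun h' => ⟨rfl, fun _ _ => rfl, h'⟩⟩

theorem rep2 (hRES : S_RES2) (pr : V → Option (V × V)) (t : V) (ι : Var2 V k m G → Fin N)
    (hι : Function.Injective ι) (g : Fin G) (pos : Role V k → Fin m)
    (hpos : Function.Injective pos) (c : Finset (Fin N × Bool)) (hc : c ∈ cnf2 pr t ι)
    (b a : V → Fin k) (hba : IsFalse c (extn ι (full2 g pos b a))) :
    ∃ o α, c = cls2 pr t ι (Sum.inl (o, α, g, tq pr t pos o α)) := by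
  obtain ⟨x, -, rfl⟩ := Finset.mem_image.1 hc
  rw [hits2 pr t ι hι] at hba
  rcases x with ⟨o, α, g', q⟩ | x
  · rw [(hRES V k m G pr t g pos hpos b a).1] at hba
    refine ⟨o, α, ?_⟩
    have hq : q = tq pr t pos o α := funext fun i => funext fun j => hba.2.1 i j
    rw [← hq, hba.1]
  · exact absurd hba ((hRES V k m G pr t g pos hpos b a).2 x)

open Classical in
theorem relevant2 (hRES : S_RES2) (pr : V → Option (V × V)) (t : V) (ι : Var2 V k m G → Fin N)
    (hι : Function.Injective ι) (g : Fin G) (pos : Role V k → Fin m)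
    (hpos : Function.Injective pos) :
    (univ.filter fun c : cnf2 pr t ι => ∃ b a, IsFalse c.1 (extn ι (full2 g pos b a))).card ≤
      (Fintype.card V + 1) * k ^ 3 := by
  set R := univ.filter fun c : cnf2 pr t ι => ∃ b a, IsFalse c.1 (extn ι (full2 g pos b a))
    with hR
  have h3 : R.image Subtype.val ⊆ univ.image fun p : Option V × (Fin 3 → Fin k) =>
      cls2 pr t ι (Sum.inl (p.1, p.2, g, tq pr t pos p.1 p.2)) := by
    intro c hc
    obtain ⟨c', hc', rfl⟩ := Finset.mem_image.1 hc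
    obtain ⟨b, a, hba⟩ := (Finset.mem_filter.1 hc').2
    obtain ⟨o, α, h4⟩ := rep2 hRES pr t ι hι g pos hpos c'.1 c'.2 b a hba
    rw [h4]
    exact Finset.mem_image.2 ⟨(o, α), Finset.mem_univ _, rfl⟩
  calc R.card = (R.image Subtype.val).card :=
        (Finset.card_image_of_injective _ Subtype.val_injective).symm
    _ ≤ _ := Finset.card_le_card h3
    _ ≤ (univ : Finset (Option V × (Fin 3 → Fin k))).card := Finset.card_image_le
    _ = (Fintype.card V + 1) * k ^ 3 := by
        rw [Finset.card_univ, Fintype.card_prod, Fintype.card_option, Fintype.card_fun,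
          Fintype.card_fin, Fintype.card_fin]

/-- The rank of the values of the polynomial. -/
theorem rank_val2 (hEVL : S_EVL.{u}) (hCUT : S_CUT.{u}) (K : Type u) [Field K]
    {F : Finset (Finset (Fin N × Bool))} {w e M : ℕ} (P : OABP K (Fin N ⊕ (F ⊕ Fin N)) w)
    (hw : w ≤ 2 ^ M) (ι : Var2 V k m G → Fin N) (hι : Function.Injective ι) (g : Fin G)
    (L : List (List ((Fin N ⊕ (F ⊕ Fin N)) × Matrix (Fin w) (Fin w) (Polynomial K))))
    (A B : Finset (Fin m)) (hL1 : L.flatten = P.layers) (hL2 : L.length ≤ 32 * e ^ 2 + 1)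
    (hL3 : ∀ u ∈ L,
      (∀ q ∈ A, (Sum.inl (ι (Sum.inl (g, q))) : Fin N ⊕ (F ⊕ Fin N)) ∉ u.map Prod.fst) ∨
      ∀ q ∈ B, (Sum.inl (ι (Sum.inl (g, q))) : Fin N ⊕ (F ⊕ Fin N)) ∉ u.map Prod.fst)
    (pos : Role V k → Fin m) (hposA : ∀ x, pos (Sum.inl x) ∈ A) (hposB : ∀ x, pos (Sum.inr x) ∈ B)
    (T : Finset F) :
    RankLE ((2 ^ M) ^ (32 * e ^ 2 + 2)) fun b a : V → Fin k =>
      MvPolynomial.eval (point K (extn ι (full2 g pos b a)) T) P.poly := by
  have h8 : RankLE (w ^ (L.length + 1)) fun b a : V → Fin k =>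
      P.val (point K (extn ι (full2 g pos b a)) T) := by
    refine hCUT K _ w P L (V → Fin k) (V → Fin k)
      (fun b a => point K (extn ι (full2 g pos b a)) T) hL1 (fun u hu => ?_)
    rcases hL3 u hu with h9 | h9
    · right
      intro l hl b b' a
      apply point_congr2 K ι hι
      intro r hr
      rcases r with y | y
      · exact absurd (List.mem_map_of_mem (f := Prod.fst) hl) (by
          rw [hr]
          exact h9 _ (hposA y))
      · rfl
    · left
      intro l hl b a a'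
      apply point_congr2 K ι hι
      intro r hr
      rcases r with y | y
      · rfl
      · exact absurd (List.mem_map_of_mem (f := Prod.fst) hl) (by
          rw [hr]
          exact h9 _ (hposB y))
  refine (h8.mono ?_).congr fun b a => hEVL K _ w P _
  calc w ^ (L.length + 1) ≤ (2 ^ M) ^ (L.length + 1) := Nat.pow_le_pow_left hw _
    _ ≤ (2 ^ M) ^ (32 * e ^ 2 + 2) := Nat.pow_le_pow_right (by positivity) (by omega)

theorem eval_zeroZ (K : Type u) [Field K] {F : Finset (Finset (Fin N × Bool))}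
    (b : Fin N → Bool) (T : Finset F) (Q : MvPolynomial (Fin N ⊕ (F ⊕ Fin N)) K) :
    MvPolynomial.eval (point K b T) (zeroZ Q) = MvPolynomial.eval (point K b T) Q := by
  have h : (MvPolynomial.eval (point K b T)).comp (MvPolynomial.aeval (Sum.elim
      (fun x => (MvPolynomial.X (Sum.inl x) : MvPolynomial (Fin N ⊕ (F ⊕ Fin N)) K))
      (Sum.elim (fun y => MvPolynomial.X (Sum.inr (Sum.inl y))) fun _ => 0)) :
        MvPolynomial (Fin N ⊕ (F ⊕ Fin N)) K →ₐ[K] _).toRingHom =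
      MvPolynomial.eval (point K b T) := by
    apply MvPolynomial.ringHom_ext
    · intro a
      simp
    · rintro (x | y | z)
      · simp
      · simp
      · simp [point]
  exact DFunLike.congr_fun h Q

/-- The bound. -/
theorem key2 (hEVL : S_EVL.{u}) (hCUT : S_CUT.{u}) (hIPS : S_IPS.{u}) (hSLI : S_SLI.{u})
    (hRES : S_RES2) (hCOR : S_COR.{u}) (hDES : S_DES.{u}) (pr : V → Option (V × V)) (t : V)
    (d : ℕ) (hd : ∀ U, Reach pr d U → t ∉ U) (hne : ∀ u q, pr u = some q → q.1 ≠ u ∧ q.2 ≠ u)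
    (hdn : d + 1 ≤ Fintype.card V) (hk : 1 ≤ k) (hG : 0 < G) (ι : Var2 V k m G → Fin N)
    (hι : Function.Injective ι) (K : Type u) [Field K] (w e D M : ℕ)
    (Q : MvPolynomial (Fin N ⊕ (cnf2 pr t ι ⊕ Fin N)) K)
    (P : OABP K (Fin N ⊕ (cnf2 pr t ι ⊕ Fin N)) w)
    (hlen : P.len ≤ 2 * e * (G * m)) (href : IsRefutation D (cnf2 pr t ι) Q)
    (hPQ : zeroZ P.poly = zeroZ Q)
    (hsz : 8 * (32 * e ^ 2 + 2) ^ (4 * e) * (Fintype.card V * (k + 1)) ≤ m) (hw : w ≤ 2 ^ M) :
    (k - 1) ^ Fintype.card V ≤ ((Fintype.card V + 1) * k ^ 3 + 1) ^ D *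
      ((2 ^ D * (2 ^ M) ^ (32 * e ^ 2 + 2)) *
        ((Fintype.card V).choose d * k ^ (Fintype.card V - d - 1))) := by
  have hinj : Function.Injective
      (fun y : Fin G × Fin m => (Sum.inl (ι (Sum.inl (y.1, y.2))) :
        Fin N ⊕ (cnf2 pr t ι ⊕ Fin N))) := by
    intro q q' hq
    exact Sum.inl_injective (hι (Sum.inl_injective hq))
  obtain ⟨g, L, A, B, hL1, hL2, hAB, hA, hB, hL3⟩ :=
    hSLI ((Fin N ⊕ (cnf2 pr t ι ⊕ Fin N)) × Matrix (Fin w) (Fin w) (Polynomial K))
      (Fin N ⊕ (cnf2 pr t ι ⊕ Fin N)) Prod.fst (fun z => z.isLeft) m G e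
      (Fintype.card V * (k + 1)) (fun g q => Sum.inl (ι (Sum.inl (g, q)))) P.layers hinj
      (fun _ _ => rfl) hG hlen hsz
  obtain ⟨eA⟩ : Nonempty (V × Fin k ↪ A) := by
    rw [Function.Embedding.nonempty_iff_card_le, Fintype.card_prod, Fintype.card_fin,
      Fintype.card_coe]
    exact (Nat.mul_le_mul_left _ (Nat.le_succ k)).trans hA
  obtain ⟨eB⟩ : Nonempty (V × Fin (k + 1) ↪ B) := by
    rw [Function.Embedding.nonempty_iff_card_le, Fintype.card_prod, Fintype.card_fin,
      Fintype.card_coe]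
    exact hB
  obtain ⟨pos, hposA, hposB, hpos⟩ : ∃ pos : Role V k → Fin m, (∀ x, pos (Sum.inl x) ∈ A) ∧
      (∀ x, pos (Sum.inr x) ∈ B) ∧ Function.Injective pos := by
    refine ⟨Sum.elim (fun x => (eA x).1) (fun x => (eB x).1), fun x => (eA x).2,
      fun x => (eB x).2, ?_⟩
    rintro (x | x) (y | y) hxy
    · exact congrArg Sum.inl (eA.injective (Subtype.ext hxy))
    · have h3 : (eA x).1 = (eB y).1 := hxy
      exact absurd (h3 ▸ (eB y).2) (Finset.disjoint_left.1 hAB (eA x).2)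
    · have h3 : (eB x).1 = (eA y).1 := hxy
      exact absurd (h3 ▸ (eB x).2) (Finset.disjoint_left.1 hAB (eA y).2)
    · exact congrArg Sum.inr (eB.injective (Subtype.ext hxy))
  obtain ⟨r, hr⟩ := hDES K V pr t d hd
  classical
  have hcor := hCOR K V pr t d k r hr hne hdn hk (cnf2 pr t ι)
    (fun c b a => IsFalse c.1 (extn ι (full2 g pos b a)))
    (univ.filter fun c : cnf2 pr t ι => ∃ b a, IsFalse c.1 (extn ι (full2 g pos b a))) D
    (2 ^ D * (2 ^ M) ^ (32 * e ^ 2 + 2))
    (fun S b a => coef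
      (fun T => MvPolynomial.eval (point K (extn ι (full2 g pos b a)) T) Q) S)
    (fun c hc b a hba => hc (Finset.mem_filter.2 ⟨Finset.mem_univ _, b, a, hba⟩))
    (fun c hc => by
      obtain ⟨b, a, hba⟩ := (Finset.mem_filter.1 hc).2
      obtain ⟨o, α, h4⟩ := rep2 hRES pr t ι hι g pos hpos c.1 c.2 b a hba
      refine ⟨o, α, fun b a => ?_⟩
      rw [h4]
      exact hits2_inl hRES pr t ι hι g pos hpos o α b a)
    (fun S hS => ?_) (fun b a => hIPS K (Fin N) D _ Q href _)
  · refine hcor.trans (Nat.mul_le_mul_right _ (Nat.pow_le_pow_left ?_ D))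
    exact Nat.succ_le_succ (relevant2 hRES pr t ι hι g pos hpos)
  · have h13 : RankLE (S.powerset.card * (2 ^ M) ^ (32 * e ^ 2 + 2))
        fun b a : V → Fin k => ∑ T ∈ S.powerset, (-1) ^ (S.card - T.card) *
          MvPolynomial.eval (point K (extn ι (full2 g pos b a)) T) P.poly :=
      RankLE.sum _ fun T _ =>
        (rank_val2 hEVL hCUT K P hw ι hι g L A B hL1 hL2 hL3 pos hposA hposB T).smul _
    refine (h13.mono ?_).congr fun b a => ?_
    · rw [Finset.card_powerset]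
      exact Nat.mul_le_mul_right _ (Nat.pow_le_pow_right (by norm_num) hS)
    · unfold coef
      refine Finset.sum_congr rfl fun T _ => ?_
      have h14 : MvPolynomial.eval (point K (extn ι (full2 g pos b a)) T) Q =
          MvPolynomial.eval (point K (extn ι (full2 g pos b a)) T) P.poly := by
        rw [← eval_zeroZ K _ T Q, ← hPQ, eval_zeroZ]
      simp only [h14]

end

end FIN2M

open FINM FIN2M

theorem FIN2_thm (hEVL : S_EVL.{u}) (hCUT : S_CUT.{u}) (hIPS : S_IPS.{u}) (hSLI : S_SLI.{u})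
    (hRES : S_RES2) (hUNS : S_UNS2) (hCNT : S_CNT) (hCNT2 : S_CNT2) (hCOR : S_COR.{u})
    (hPYR : S_PYR) (hDES : S_DES.{u}) (hNMA : S_NMA) (hNM2 : S_NM2) : MainStatement3.{u} := by
  obtain ⟨c, hc, N₀, hN₀⟩ := hNM2
  refine ⟨c, hc, N₀, fun N hN => ?_⟩
  obtain ⟨h, h2, hn⟩ := hN₀ N hN
  obtain ⟨-, -, hC3⟩ := hCNT
  obtain ⟨hC1, hC2⟩ := hCNT2
  obtain ⟨hn1, hn2⟩ := hC3 h
  obtain ⟨n, hn_def⟩ : ∃ n, n = Fintype.card (Pyr h) := ⟨_, rfl⟩
  rw [← hn_def] at hn1 hn2
  obtain ⟨k, hk⟩ : ∃ k, k = 2 * n := ⟨_, rfl⟩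
  obtain ⟨R, hR⟩ : ∃ R, R = n * (2 * k + 1) := ⟨_, rfl⟩
  obtain ⟨m, hm⟩ : ∃ m, m = 2 * (n * R) := ⟨_, rfl⟩
  obtain ⟨G, hG, hvar, hGm, hidx, e, M, hsz, hM, hlen, hlast⟩ := hn n hn1 hn2 k R m hk hR hm
  obtain ⟨hV, hI⟩ := hC2 (Pyr h) k m G
  rw [← hn_def, ← hR] at hV hI
  obtain ⟨ι⟩ : Nonempty (Var2 (Pyr h) k m G ↪ Fin N) := by
    rw [Function.Embedding.nonempty_iff_card_le, hV, Fintype.card_fin]
    exact hvar
  have hlev : ∀ u q, pyrPred h u = some q →
      q.1.1.1.val < u.1.1.val ∧ q.2.1.1.val < u.1.1.val := by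
    intro u q hq
    unfold pyrPred at hq
    split_ifs at hq with h0
    rw [Option.some.injEq] at hq
    subst hq
    simp only
    omega
  have hne : ∀ u q, pyrPred h u = some q → q.1 ≠ u ∧ q.2 ≠ u := by
    intro u q hq
    obtain ⟨h1, h2⟩ := hlev u q hq
    constructor
    · rintro rfl
      exact lt_irrefl _ h1
    · rintro rfl
      exact lt_irrefl _ h2
  refine ⟨cnf2 (pyrPred h) (pyrSink h) ι, ?_, ?_, ?_, ?_⟩
  · intro c hc
    obtain ⟨x, -, rfl⟩ := Finset.mem_image.1 hc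
    exact (card_clauseOf _ _).trans (hC1 _ _ _ _ _ _ _)
  · calc (cnf2 (pyrPred h) (pyrSink h) ι).card ≤ (univ : Finset (Idx2 (Pyr h) k m G)).card :=
          Finset.card_image_le
      _ = _ := by rw [Finset.card_univ, hI]
      _ ≤ N ^ 7 := hidx
  · intro b
    obtain ⟨x, hx⟩ := hUNS (Pyr h) k m G (pyrPred h) (pyrSink h) (fun u => u.1.1.val) hlev
      fun v => b (ι v)
    exact ⟨cls2 (pyrPred h) (pyrSink h) ι x, Finset.mem_image_of_mem _ (Finset.mem_univ _),
      (isFalse_clauseOf _ _ _).2 hx⟩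
  intro K _ w D Q P href hPQ hD hl
  have hn3 : 2 ≤ n := by nlinarith
  have hk1 : 1 ≤ k := by omega
  have hhn : h + 1 ≤ n := by nlinarith
  have hw : ¬ w ≤ 2 ^ M := by
    intro hw
    have hlen' : P.len ≤ 2 * e * (G * m) := by
      calc P.len ≤ e * N := hlen _ hl
        _ ≤ e * (2 * (G * m)) := Nat.mul_le_mul_left _ hGm
        _ = 2 * e * (G * m) := by ring
    have hkey := key2 hEVL hCUT hIPS hSLI hRES hCOR hDES (pyrPred h) (pyrSink h) h (hPYR h) hne
      (by rw [← hn_def]; exact hhn) hk1 hG ι ι.injective K w e D M Q P hlen' href hPQ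
      (by rw [← hn_def]; exact hsz) hw
    rw [← hn_def] at hkey
    have h5 := hNMA n h (((n + 1) * k ^ 3 + 1) ^ D * (2 ^ D * (2 ^ M) ^ (32 * e ^ 2 + 2))) hhn
      (hlast D hD)
    rw [← hk, mul_assoc] at h5
    exact absurd hkey (not_le.2 h5)
  rw [not_le] at hw
  calc (2 : ℝ) ^ ((N : ℝ) ^ c) ≤ (2 : ℝ) ^ (M : ℝ) :=
        Real.rpow_le_rpow_of_exponent_le (by norm_num) hM
    _ = ((2 ^ M : ℕ) : ℝ) := by
        rw [Real.rpow_natCast]
        push_cast
        rfl
    _ ≤ w := by exact_mod_cast hw.le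

end Pool.Agent.ROA
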