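import Pool.Agent.ROA.GDefs
import Pool.Agent.ROA.Stmts2

/-!
# Statements of the modules, third part: lifting of a general CNF
-/

set_option autoImplicit false

universe u

namespace Pool.Agent.ROA

open Finset

/-- Module GLOW. As LOW: restrict the rows to `b` with all values `< k - 1`, multiply from the right
with `∏ x, ([a x = a' x] - [a x = k - 1])`. In the sum over `a` only `a x ∈ {a' x, k - 1}` counts; if
`a' x ≠ b x` for some `x` then the two values of `a x` give the same `z x = false` and cancel; for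
`a' = b` the sum is over `z : V → Bool`, the signs cancel, and it is `∑ z, e z = 1`. -/
def S_GLOW : Prop := ∀ (K : Type u) [Field K] (V : Type) [Fintype V] [DecidableEq V] (k w : ℕ)
  (e : (V → Bool) → K), 1 ≤ k → ∑ z, e z = 1 → RankLE w (gmat k e) →
  (k - 1) ^ Fintype.card V ≤ w

/-- Module GEXP. Let `W` be the variables which do not occur in `c`. If `c` is false under `z` and `y`
then `z = y` outside `W`, so `∏ x ∈ W, (z x + y x - 1)` (as numbers) is `0` unless `y = z`, and then it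
is the product of the signs of `z`. So the left side is
`∑ y, [c false under y] e y ∏ x ∈ W, (z x + (y x - 1))`; expand the product (`Finset.prod_add`). -/
def S_GEXP : Prop := ∀ (K : Type u) [Field K] (V : Type) [Fintype V] [DecidableEq V]
  (c : Finset (V × Bool)) (e : (V → Bool) → K) (z : V → Bool) (W : Finset V),
  (∀ x, x ∈ W ↔ ∀ l ∈ c, l.1 ≠ x) → IsFalse c z →
  (∏ x ∈ W, if z x = true then (1 : K) else -1) * e z =
    ∑ S ∈ W.powerset, (∏ x ∈ S, if z x = true then (1 : K) else 0) *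
      ((-1) ^ (W.card - S.card) *
        ∑ y, if IsFalse c y ∧ ∀ x ∈ W \ S, y x = false then e y else 0)

/-- Module GUPR (from GEXP). On the places with `CondB` and `CondA` the clause `c` is false under
`z x = [a x = b x]`; so `c` has no complementary literals, the number of its variables is `c.card`, and
the signs of these variables are constant. In GEXP the terms with `Fintype.card V - d ≤ S.card`
vanish by `GDesign.orth` with `T = W \ S`; the product over `S` has rank at most `k ^ S.card` (it depends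
only on `b` restricted to `S`, compare UPB.lean). -/
def S_GUPR : Prop := ∀ (K : Type u) [Field K] (V : Type) [Fintype V] [DecidableEq V]
  (G : Finset (Finset (V × Bool))) (d k : ℕ) (e : (V → Bool) → K), GDesign G d e →
  ∀ c ∈ G, ∀ α : c → Fin k,
  RankLE (∑ j ∈ range (Fintype.card V - d), (Fintype.card V).choose j * k ^ j)
    fun b a => if CondB c α b ∧ CondA c α a then gmat k e b a else 0

/-- Module GDUA. Duality. If the function `1` is in the span of the functions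
`[c false under z and z x = 0 for x ∈ T]`, `c ∈ G`, `T.card + c.card ≤ d`, then the coefficients give a
refutation (`g c` a combination of the polynomials `∏ x ∈ T, (1 - X x)`). Otherwise there is a linear
functional which vanishes on the span and has the value `1` at `1`; `e z` is its value at the indicator
of `z`. -/
def S_GDUA : Prop := ∀ (K : Type u) [Field K] (V : Type) [Fintype V] [DecidableEq V]
  (G : Finset (Finset (V × Bool))) (d : ℕ), ¬ NSRefutes K d G →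
  ∃ e : (V → Bool) → K, GDesign G d e

/-- Module GCOR. As COR: multiply the identity by `M`. A set `S` which is not a subset of `R` does not
contribute; otherwise take one `c ∈ S`; the condition for the other elements of `S` is a condition on
`b` and a condition on `a`. The number of the sets is at most `(R.card + 1) ^ D` (SUB). -/
def S_GCOR : Prop := ∀ (K : Type u) [Field K] (X Y : Type) (M : X → Y → K) (L B : ℕ),
  (∀ w, RankLE w M → L ≤ w) →
  ∀ (ι : Type) [Fintype ι] [DecidableEq ι] (fal : ι → X → Y → Prop)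
  [∀ c b a, Decidable (fal c b a)] (R : Finset ι) (D w : ℕ) (g : Finset ι → X → Y → K),
  (∀ c ∉ R, ∀ b a, ¬ fal c b a) →
  (∀ c ∈ R, (∃ (p : X → Prop) (q : Y → Prop), ∀ b a, fal c b a ↔ p b ∧ q a) ∧
    RankLE B fun b a => if fal c b a then M b a else 0) →
  (∀ S : Finset ι, S.card ≤ D → RankLE w (g S)) →
  (∀ b a, (∑ S ∈ univ.filter (fun S : Finset ι => S.Nonempty ∧ S.card ≤ D),
    if ∀ c ∈ S, fal c b a then g S b a else 0) = 1) →
  L ≤ (R.card + 1) ^ D * (w * B)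

/-- Module GRES. As RES2 (see RES.lean, RES2.lean). -/
def S_GRES : Prop := ∀ (V : Type) [Fintype V] [DecidableEq V] (k m g : ℕ)
  (G : Finset (Finset (V × Bool))) (s : Fin g) (pos : Role V k → Fin m),
  Function.Injective pos → ∀ b a : V → Fin k,
  (∀ (C : G) (α : C.1 → Fin k) (s' : Fin g) (q : C.1 → Fin 3 → Fin m),
    Hit (gpat (Sum.inl ⟨C, α, s', q⟩ : GIdx V k m g G)) (full2 s pos b a) ↔
      s' = s ∧ (∀ l j, q l j = pos (grp l.1 (α l) j).1) ∧ CondB C.1 α b ∧ CondA C.1 α a) ∧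
  ∀ x, ¬ Hit (gpat (Sum.inr x : GIdx V k m g G)) (full2 s pos b a)

/-- Module GUNS. As UNS and UNS2: if no end of a chain is hit then there are a slice `s`, a position
for each role, and a cell `i x` for each `x`; let `z x` be the value of the cell `(x, i x)`; a clause
of `G` is false under `z`, and it gives a pattern which is hit. -/
def S_GUNS : Prop := ∀ (V : Type) [Fintype V] [DecidableEq V] (k m g : ℕ)
  (G : Finset (Finset (V × Bool))), (∀ z : V → Bool, ∃ C ∈ G, IsFalse C z) →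
  ∀ β : Var2 V k m g → Bool, ∃ x : GIdx V k m g G, Hit (gpat x) β

/-- Module GCNT. As CNT2. -/
def S_GCNT : Prop := ∀ (V : Type) [Fintype V] [DecidableEq V] (k m g q : ℕ)
  (G : Finset (Finset (V × Bool))), 1 ≤ q → (∀ C ∈ G, C.card ≤ q) → 1 ≤ k → 1 ≤ m →
  (∀ x : GIdx V k m g G, (gpat x).card ≤ 9 * q + 2) ∧
  Fintype.card (GIdx V k m g G) ≤ G.card * (k ^ q * (g * m ^ (3 * q))) +
    (Fintype.card V * (2 * (g * m)) + (Fintype.card V * (2 * k + 1) * 2 + 2))

/-- Module GN1. Let `m = N / (16 R)`, `g = (N - R (m + 1) - 1) / (m + 1)`; `R ≤ 5 n ^ 2` and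
`n ^ 5 ≤ N`, so `R ≤ 5 N ^ (2 / 5)`, `N / (80 n ^ 2) - 1 ≤ m`, and `N ^ (3 / 5)` is large. For the number
of the clauses use `m ≤ N / (64 n ^ 2)` and `g m ≤ N`:
`(2 n) ^ q N (N / (64 n ^ 2)) ^ (3 q - 1) ≤ N ^ (3 q)`; the rest is at most `N ^ 3`. -/
def S_GN1 : Prop := ∃ N₀ : ℕ, ∀ n N : ℕ, N₀ ≤ N → 1 ≤ n → n ^ 5 ≤ N →
  ∀ k R : ℕ, k = 2 * n → R = n * (2 * k + 1) →
  ∃ m g : ℕ, 1 ≤ m ∧ 0 < g ∧ g * m + (R * (m + 1) + (g + 1)) ≤ N ∧ N ≤ 2 * (g * m) ∧
    N ≤ 100 * n ^ 2 * m ∧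
    ∀ q s : ℕ, 1 ≤ q → s * (k ^ q * (g * m ^ (3 * q))) + (n * (2 * (g * m)) + (R * 2 + 2)) ≤
      (s + 1) * N ^ (3 * q)

/-- Module GN2 (compare NM2.lean). `e = ⌈c log N / log log N⌉`, `c₀ = 1 / 1000`, say. As
`n (k + 1) ≤ 3 n ^ 2` and `N ≤ 100 n ^ 2 m`, `n ^ 4 ≤ N ^ (4 / 5)`, it is enough that
`2400 (32 e ^ 2 + 2) ^ (4 e) ≤ N ^ (1 / 5)`; for large `N` we have `32 e ^ 2 + 2 ≤ (log N) ^ 2`. -/
def S_GN2 : Prop := ∃ c₀ : ℝ, 0 < c₀ ∧ ∀ c : ℝ, 0 < c → c ≤ c₀ → ∃ N₀ : ℕ, ∀ N : ℕ, N₀ ≤ N →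
  ∃ e : ℕ, (∀ l : ℕ, (l : ℝ) ≤ c * N * Real.log N / Real.log (Real.log N) → l ≤ e * N) ∧
    32 * (e : ℝ) ^ 2 + 2 ≤ Real.log N ^ 2 ∧
    ∀ n k m : ℕ, 1 ≤ n → n ^ 5 ≤ N → k = 2 * n → N ≤ 100 * n ^ 2 * m →
      8 * (32 * e ^ 2 + 2) ^ (4 * e) * (n * (k + 1)) ≤ m

/-- Module GN3. `(k - 1) ^ n ≥ k ^ n / 2` and `∑ j < n - d, choose n j * k ^ j ≤ k ^ n 2 ^ (-d)`, as
`choose n j ≤ n ^ (n - j)` and `k = 2 n`; so `2 ^ d ≤ 2 (2 (s k ^ q + 1)) ^ D w ^ (32 e ^ 2 + 2)`, where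
`2 (s k ^ q + 1) ≤ N ^ q` for large `N`, and `N ^ (q D) ≤ exp (q c d) ≤ 2 ^ (d / 2)` for
`c ≤ 1 / (4 q)`; `w ≥ 1` because the right side is positive. -/
def S_GN3 : Prop := ∀ q : ℕ, 1 ≤ q → ∃ c₀ : ℝ, 0 < c₀ ∧ ∀ c : ℝ, 0 < c → c ≤ c₀ → ∃ N₀ : ℕ,
  ∀ n N k e s D d w : ℕ, N₀ ≤ N → 1 ≤ n → n ^ 5 ≤ N → k = 2 * n →
    32 * (e : ℝ) ^ 2 + 2 ≤ Real.log N ^ 2 → s ≤ (2 * n + 1) ^ q →
    (D : ℝ) * Real.log N ≤ c * d →
    (k - 1) ^ n ≤ (s * k ^ q + 1) ^ D * ((2 ^ D * w ^ (32 * e ^ 2 + 2)) *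
      ∑ j ∈ range (n - d), n.choose j * k ^ j) →
    (2 : ℝ) ^ (c * d) ≤ 2 * (w : ℝ) ^ (Real.log N ^ 2)

end Pool.Agent.ROA
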