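import Pool.Agent.ROA.FIN2
import Pool.Agent.ROA.GStmts

/-!
# Assembly, third part: the lifting theorem
-/

set_option autoImplicit false

universe u

namespace Pool.Agent.ROA

open Finset

namespace FIN3M

open FINM FIN2M

section

variable {V : Type} [Fintype V] [DecidableEq V] {k m g N : ℕ} {G : Finset (Finset (V × Bool))}

/-- The clauses of the formula. -/
def gcls (ι : Var2 V k m g → Fin N) (x : GIdx V k m g G) : Finset (Fin N × Bool) :=
  clauseOf ι (gpat x)

/-- The formula. -/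
def gcnf (G : Finset (Finset (V × Bool))) (ι : Var2 V k m g → Fin N) :
    Finset (Finset (Fin N × Bool)) :=
  univ.image (gcls (G := G) ι)

/-- The true positions of the roles of a pattern. -/
def gtq (pos : Role V k → Fin m) (C : Finset (V × Bool)) (α : C → Fin k) : C → Fin 3 → Fin m :=
  fun l j => pos (grp l.1 (α l) j).1

theorem ghits (ι : Var2 V k m g → Fin N) (hι : Function.Injective ι) (β : Var2 V k m g → Bool)
    (x : GIdx V k m g G) : IsFalse (gcls ι x) (extn ι β) ↔ Hit (gpat x) β := by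
  unfold gcls
  rw [isFalse_clauseOf]
  have : (fun v => extn ι β (ι v)) = β := funext fun v => extn_apply hι _ v
  rw [this]

theorem ghits_inl (hRES : S_GRES) (ι : Var2 V k m g → Fin N) (hι : Function.Injective ι)
    (s : Fin g) (pos : Role V k → Fin m) (hpos : Function.Injective pos) (C : G)
    (α : C.1 → Fin k) (b a : V → Fin k) :
    IsFalse (gcls ι (Sum.inl ⟨C, α, s, gtq pos C.1 α⟩ : GIdx V k m g G))
      (extn ι (full2 s pos b a)) ↔ CondB C.1 α b ∧ CondA C.1 α a := by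
  rw [ghits ι hι, (hRES V k m g G s pos hpos b a).1]
  exact ⟨fun h' => h'.2.2, fun h' => ⟨rfl, fun _ _ => rfl, h'⟩⟩

theorem grep (hRES : S_GRES) (ι : Var2 V k m g → Fin N) (hι : Function.Injective ι)
    (s : Fin g) (pos : Role V k → Fin m) (hpos : Function.Injective pos)
    (c : Finset (Fin N × Bool)) (hc : c ∈ gcnf G ι) (b a : V → Fin k)
    (hba : IsFalse c (extn ι (full2 s pos b a))) :
    ∃ (C : G) (α : C.1 → Fin k),
      c = gcls ι (Sum.inl ⟨C, α, s, gtq pos C.1 α⟩ : GIdx V k m g G) := by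
  obtain ⟨x, -, rfl⟩ := Finset.mem_image.1 hc
  rw [ghits ι hι] at hba
  rcases x with ⟨C, α, s', q⟩ | x
  · rw [(hRES V k m g G s pos hpos b a).1] at hba
    refine ⟨C, α, ?_⟩
    have hq : q = gtq pos C.1 α := funext fun l => funext fun j => hba.2.1 l j
    rw [← hq, hba.1]
  · exact absurd hba ((hRES V k m g G s pos hpos b a).2 x)

open Classical in
theorem grelevant (hRES : S_GRES) (ι : Var2 V k m g → Fin N) (hι : Function.Injective ι)
    (s : Fin g) (pos : Role V k → Fin m) (hpos : Function.Injective pos) (q : ℕ) (hk : 1 ≤ k)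
    (hG : ∀ C ∈ G, C.card ≤ q) :
    (univ.filter fun c : gcnf G ι => ∃ b a, IsFalse c.1 (extn ι (full2 s pos b a))).card ≤
      G.card * k ^ q := by
  set R := univ.filter fun c : gcnf G ι => ∃ b a, IsFalse c.1 (extn ι (full2 s pos b a))
    with hR
  have h3 : R.image Subtype.val ⊆ univ.image fun p : Σ C : G, (C.1 → Fin k) =>
      gcls ι (Sum.inl ⟨p.1, p.2, s, gtq pos p.1.1 p.2⟩ : GIdx V k m g G) := by
    intro c hc
    obtain ⟨c', hc', rfl⟩ := Finset.mem_image.1 hc
    obtain ⟨b, a, hba⟩ := (Finset.mem_filter.1 hc').2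
    obtain ⟨C, α, h4⟩ := grep hRES ι hι s pos hpos c'.1 c'.2 b a hba
    rw [h4]
    exact Finset.mem_image.2 ⟨⟨C, α⟩, Finset.mem_univ _, rfl⟩
  calc R.card = (R.image Subtype.val).card :=
        (Finset.card_image_of_injective _ Subtype.val_injective).symm
    _ ≤ _ := Finset.card_le_card h3
    _ ≤ (univ : Finset (Σ C : G, (C.1 → Fin k))).card := Finset.card_image_le
    _ = ∑ C : G, k ^ C.1.card := by
        rw [Finset.card_univ, Fintype.card_sigma]
        refine Finset.sum_congr rfl fun C _ => ?_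
        rw [Fintype.card_fun, Fintype.card_fin, Fintype.card_coe]
    _ ≤ ∑ _C : G, k ^ q :=
        Finset.sum_le_sum fun C _ => Nat.pow_le_pow_right hk (hG C.1 C.2)
    _ = G.card * k ^ q := by
        rw [Finset.sum_const, Finset.card_univ, Fintype.card_coe, smul_eq_mul]

/-- The rank of the values of the polynomial. -/
theorem rank_val3 (hEVL : S_EVL.{u}) (hCUT : S_CUT.{u}) (K : Type u) [Field K]
    {F : Finset (Finset (Fin N × Bool))} {w e : ℕ} (P : OABP K (Fin N ⊕ (F ⊕ Fin N)) w)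
    (ι : Var2 V k m g → Fin N) (hι : Function.Injective ι) (s : Fin g)
    (L : List (List ((Fin N ⊕ (F ⊕ Fin N)) × Matrix (Fin w) (Fin w) (Polynomial K))))
    (A B : Finset (Fin m)) (hL1 : L.flatten = P.layers) (hL2 : L.length ≤ 32 * e ^ 2 + 1)
    (hL3 : ∀ u ∈ L,
      (∀ q ∈ A, (Sum.inl (ι (Sum.inl (s, q))) : Fin N ⊕ (F ⊕ Fin N)) ∉ u.map Prod.fst) ∨
      ∀ q ∈ B, (Sum.inl (ι (Sum.inl (s, q))) : Fin N ⊕ (F ⊕ Fin N)) ∉ u.map Prod.fst)
    (pos : Role V k → Fin m) (hposA : ∀ x, pos (Sum.inl x) ∈ A) (hposB : ∀ x, pos (Sum.inr x) ∈ B)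
    (T : Finset F) :
    RankLE (w ^ (32 * e ^ 2 + 2)) fun b a : V → Fin k =>
      MvPolynomial.eval (point K (extn ι (full2 s pos b a)) T) P.poly := by
  have h8 : RankLE (w ^ (L.length + 1)) fun b a : V → Fin k =>
      P.val (point K (extn ι (full2 s pos b a)) T) := by
    refine hCUT K _ w P L (V → Fin k) (V → Fin k)
      (fun b a => point K (extn ι (full2 s pos b a)) T) hL1 (fun u hu => ?_)
    rcases hL3 u hu with h9 | h9
    · right
      intro l hl b b' a
      apply point_congr2 K ι hι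
      intro r hr
      rcases r with y | y
      · exact absurd (List.mem_map_of_mem (f := Prod.fst) hl) (by
          rw [hr]
          exact h9 _ (hposA y))
      · rfl
    · left
      intro l hl b a a'
      apply point_congr2 K ι hι
      intro r hr
      rcases r with y | y
      · rfl
      · exact absurd (List.mem_map_of_mem (f := Prod.fst) hl) (by
          rw [hr]
          exact h9 _ (hposB y))
  refine (h8.mono ?_).congr fun b a => hEVL K _ w P _
  have hpow : ∀ x a b : ℕ, 1 ≤ a → a ≤ b → x ^ a ≤ x ^ b := by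
    intro x a b ha hab
    rcases Nat.eq_zero_or_pos x with hx | hx
    · rw [hx, zero_pow (by omega), zero_pow (by omega)]
    · exact Nat.pow_le_pow_right hx hab
  exact hpow w _ _ (by omega) (by omega)

/-- The bound. -/
theorem key3 (hEVL : S_EVL.{u}) (hCUT : S_CUT.{u}) (hIPS : S_IPS.{u}) (hSLI : S_SLI.{u})
    (hRES : S_GRES) (hCOR : S_GCOR.{u}) (hDUA : S_GDUA.{u}) (hLOW : S_GLOW.{u})
    (hUPR : S_GUPR.{u}) (q d : ℕ) (hGq : ∀ C ∈ G, C.card ≤ q) (hk : 1 ≤ k) (hg : 0 < g)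
    (ι : Var2 V k m g → Fin N)
    (hι : Function.Injective ι) (K : Type u) [Field K] (hNS : ¬ NSRefutes K d G) (w e D : ℕ)
    (Q : MvPolynomial (Fin N ⊕ (gcnf G ι ⊕ Fin N)) K)
    (P : OABP K (Fin N ⊕ (gcnf G ι ⊕ Fin N)) w)
    (hlen : P.len ≤ 2 * e * (g * m)) (href : IsRefutation D (gcnf G ι) Q)
    (hPQ : zeroZ P.poly = zeroZ Q)
    (hsz : 8 * (32 * e ^ 2 + 2) ^ (4 * e) * (Fintype.card V * (k + 1)) ≤ m) :
    (k - 1) ^ Fintype.card V ≤ (G.card * k ^ q + 1) ^ D * ((2 ^ D * w ^ (32 * e ^ 2 + 2)) *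
      ∑ j ∈ range (Fintype.card V - d), (Fintype.card V).choose j * k ^ j) := by
  have hinj : Function.Injective
      (fun y : Fin g × Fin m => (Sum.inl (ι (Sum.inl (y.1, y.2))) :
        Fin N ⊕ (gcnf G ι ⊕ Fin N))) := by
    intro q q' hq
    exact Sum.inl_injective (hι (Sum.inl_injective hq))
  obtain ⟨s, L, A, B, hL1, hL2, hAB, hA, hB, hL3⟩ :=
    hSLI ((Fin N ⊕ (gcnf G ι ⊕ Fin N)) × Matrix (Fin w) (Fin w) (Polynomial K))
      (Fin N ⊕ (gcnf G ι ⊕ Fin N)) Prod.fst (fun z => z.isLeft) m g e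
      (Fintype.card V * (k + 1)) (fun s q => Sum.inl (ι (Sum.inl (s, q)))) P.layers hinj
      (fun _ _ => rfl) hg hlen hsz
  obtain ⟨eA⟩ : Nonempty (V × Fin k ↪ A) := by
    rw [Function.Embedding.nonempty_iff_card_le, Fintype.card_prod, Fintype.card_fin,
      Fintype.card_coe]
    exact (Nat.mul_le_mul_left _ (Nat.le_succ k)).trans hA
  obtain ⟨eB⟩ : Nonempty (V × Fin (k + 1) ↪ B) := by
    rw [Function.Embedding.nonempty_iff_card_le, Fintype.card_prod, Fintype.card_fin,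
      Fintype.card_coe]
    exact hB
  obtain ⟨pos, hposA, hposB, hpos⟩ : ∃ pos : Role V k → Fin m, (∀ x, pos (Sum.inl x) ∈ A) ∧
      (∀ x, pos (Sum.inr x) ∈ B) ∧ Function.Injective pos := by
    refine ⟨Sum.elim (fun x => (eA x).1) (fun x => (eB x).1), fun x => (eA x).2,
      fun x => (eB x).2, ?_⟩
    rintro (x | x) (y | y) hxy
    · exact congrArg Sum.inl (eA.injective (Subtype.ext hxy))
    · have h3 : (eA x).1 = (eB y).1 := hxy
      exact absurd (h3 ▸ (eB y).2) (Finset.disjoint_left.1 hAB (eA x).2)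
    · have h3 : (eB x).1 = (eA y).1 := hxy
      exact absurd (h3 ▸ (eB x).2) (Finset.disjoint_left.1 hAB (eA y).2)
    · exact congrArg Sum.inr (eB.injective (Subtype.ext hxy))
  obtain ⟨e', he'⟩ := hDUA K V G d hNS
  classical
  have hcor := hCOR K (V → Fin k) (V → Fin k) (gmat k e') ((k - 1) ^ Fintype.card V)
    (∑ j ∈ range (Fintype.card V - d), (Fintype.card V).choose j * k ^ j)
    (fun w' hw' => hLOW K V k w' e' hk he'.one hw') (gcnf G ι)
    (fun c b a => IsFalse c.1 (extn ι (full2 s pos b a)))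
    (univ.filter fun c : gcnf G ι => ∃ b a, IsFalse c.1 (extn ι (full2 s pos b a))) D
    (2 ^ D * w ^ (32 * e ^ 2 + 2))
    (fun S b a => coef
      (fun T => MvPolynomial.eval (point K (extn ι (full2 s pos b a)) T) Q) S)
    (fun c hc b a hba => hc (Finset.mem_filter.2 ⟨Finset.mem_univ _, b, a, hba⟩))
    (fun c hc => by
      obtain ⟨b, a, hba⟩ := (Finset.mem_filter.1 hc).2
      obtain ⟨C, α, h4⟩ := grep hRES ι hι s pos hpos c.1 c.2 b a hba
      have h5 : ∀ b a, IsFalse c.1 (extn ι (full2 s pos b a)) ↔ CondB C.1 α b ∧ CondA C.1 α a := by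
        intro b a
        rw [h4]
        exact ghits_inl hRES ι hι s pos hpos C α b a
      refine ⟨⟨fun b => CondB C.1 α b, fun a => CondA C.1 α a, h5⟩, ?_⟩
      refine (hUPR K V G d k e' he' C.1 C.2 α).congr fun b a => ?_
      exact if_congr (h5 b a) rfl rfl)
    (fun S hS => ?_) (fun b a => hIPS K (Fin N) D _ Q href _)
  · refine hcor.trans (Nat.mul_le_mul_right _ (Nat.pow_le_pow_left ?_ D))
    exact Nat.succ_le_succ (grelevant hRES ι hι s pos hpos q hk hGq)
  · have h13 : RankLE (S.powerset.card * w ^ (32 * e ^ 2 + 2))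
        fun b a : V → Fin k => ∑ T ∈ S.powerset, (-1) ^ (S.card - T.card) *
          MvPolynomial.eval (point K (extn ι (full2 s pos b a)) T) P.poly :=
      RankLE.sum _ fun T _ =>
        (rank_val3 hEVL hCUT K P ι hι s L A B hL1 hL2 hL3 pos hposA hposB T).smul _
    refine (h13.mono ?_).congr fun b a => ?_
    · rw [Finset.card_powerset]
      exact Nat.mul_le_mul_right _ (Nat.pow_le_pow_right (by norm_num) hS)
    · unfold coef
      refine Finset.sum_congr rfl fun T _ => ?_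
      have h14 : MvPolynomial.eval (point K (extn ι (full2 s pos b a)) T) Q =
          MvPolynomial.eval (point K (extn ι (full2 s pos b a)) T) P.poly := by
        rw [← eval_zeroZ K _ T Q, ← hPQ, eval_zeroZ]
      simp only [h14]

end

end FIN3M

open FINM FIN2M FIN3M

theorem FIN3_thm (hEVL : S_EVL.{u}) (hCUT : S_CUT.{u}) (hIPS : S_IPS.{u}) (hSLI : S_SLI.{u})
    (hSUB : S_SUB) (hCNT2 : S_CNT2) (hRES : S_GRES) (hUNS : S_GUNS) (hCNT : S_GCNT)
    (hCOR : S_GCOR.{u}) (hDUA : S_GDUA.{u}) (hLOW : S_GLOW.{u}) (hUPR : S_GUPR.{u})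
    (hN1 : S_GN1) (hN2 : S_GN2) (hN3 : S_GN3) : LiftStatement.{u} := by
  intro q hq
  obtain ⟨c₁, hc₁, H2⟩ := hN2
  obtain ⟨c₂, hc₂, H3⟩ := hN3 q hq
  obtain ⟨N₁, H1⟩ := hN1
  obtain ⟨N₂, H2⟩ := H2 (min c₁ c₂) (lt_min hc₁ hc₂) (min_le_left _ _)
  obtain ⟨N₃, H3⟩ := H3 (min c₁ c₂) (lt_min hc₁ hc₂) (min_le_right _ _)
  refine ⟨min c₁ c₂, lt_min hc₁ hc₂, max N₁ (max N₂ N₃), ?_⟩
  intro n N hN hn hnN G hG
  have hNN1 : N₁ ≤ N := (le_max_left _ _).trans hN
  have hNN2 : N₂ ≤ N := ((le_max_left _ _).trans (le_max_right _ _)).trans hN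
  have hNN3 : N₃ ≤ N := ((le_max_right _ _).trans (le_max_right _ _)).trans hN
  obtain ⟨k, hk⟩ : ∃ k, k = 2 * n := ⟨_, rfl⟩
  obtain ⟨R, hR⟩ : ∃ R, R = n * (2 * k + 1) := ⟨_, rfl⟩
  obtain ⟨m, g, hm, hg, hvar, hgm, hNm, hcount⟩ := H1 n N hNN1 hn hnN k R hk hR
  obtain ⟨e, hlen, he, hsz⟩ := H2 N hNN2
  have hk1 : 1 ≤ k := by omega
  obtain ⟨ι⟩ : Nonempty (Var2 (Fin n) k m g ↪ Fin N) := by
    rw [Function.Embedding.nonempty_iff_card_le, (hCNT2.2 (Fin n) k m g).1, Fintype.card_fin,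
      Fintype.card_fin, ← hR]
    exact hvar
  obtain ⟨hC1, hC2⟩ := hCNT (Fin n) k m g q G hq hG hk1 hm
  refine ⟨gcnf G ι, ?_, ?_, ?_, ?_⟩
  · intro c hc
    obtain ⟨x, -, rfl⟩ := Finset.mem_image.1 hc
    exact (card_clauseOf _ _).trans (hC1 _)
  · rw [Fintype.card_fin, ← hR] at hC2
    have h1 : (gcnf G ι).card ≤ Fintype.card (GIdx (Fin n) k m g G) := by
      rw [← Finset.card_univ]
      exact Finset.card_image_le
    exact h1.trans (hC2.trans (hcount q G.card hq))
  · intro hunsat b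
    obtain ⟨x, hx⟩ := hUNS (Fin n) k m g G hunsat fun v => b (ι v)
    exact ⟨gcls ι x, Finset.mem_image_of_mem _ (Finset.mem_univ _),
      (isFalse_clauseOf _ _ _).2 hx⟩
  intro K _ d D w Q P hNS href hPQ hD hl
  have hs : G.card ≤ (2 * n + 1) ^ q := by
    have h1 := hSUB (Fin n × Bool) univ q
    have h2 : G ⊆ (univ : Finset (Fin n × Bool)).powerset.filter fun S => S.card ≤ q := by
      intro C hC
      rw [Finset.mem_filter]
      exact ⟨Finset.mem_powerset.2 (Finset.subset_univ _), hG C hC⟩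
    refine (Finset.card_le_card h2).trans (h1.trans ?_)
    rw [Finset.card_univ, Fintype.card_prod, Fintype.card_fin, Fintype.card_bool, mul_comm n 2]
  have hlen' : P.len ≤ 2 * e * (g * m) := by
    calc P.len ≤ e * N := hlen _ hl
      _ ≤ e * (2 * (g * m)) := Nat.mul_le_mul_left _ hgm
      _ = 2 * e * (g * m) := by ring
  have hkey := key3 hEVL hCUT hIPS hSLI hRES hCOR hDUA hLOW hUPR q d hG hk1 hg ι ι.injective K
    hNS w e D Q P hlen' href hPQ
    (by rw [Fintype.card_fin]; exact hsz n k m hn hnN hk hNm)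
  rw [Fintype.card_fin] at hkey
  exact H3 n N k e G.card D d w hNN3 hn hnN hk he hs hD hkey

end Pool.Agent.ROA
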