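import Pool.Agent.ROA.Rank
import Pool.Agent.ROA.GStmts

/-!
Module ROA_GCNT (MP_a77cad_lc): the width and the number of the patterns of the lifted formula.
-/

set_option autoImplicit false

namespace Pool.Agent.ROA

open Finset

namespace GCNTM

theorem card_place {V : Type} [DecidableEq V] {k m G : ℕ} (g : Fin G) (r : Role V k) (v : Bool)
    (q : Fin m) : (place2 g r v q).card ≤ 3 := card_le_three

theorem card_slc {V : Type} [DecidableEq V] {k m G : ℕ} (g : Fin G) :
    (slc g : Finset (Var2 V k m G × Bool)).card ≤ 2 := card_le_two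

theorem card_role (V : Type) [Fintype V] (k : ℕ) :
    Fintype.card (Role V k) = Fintype.card V * (2 * k + 1) := by
  rw [Fintype.card_sum, Fintype.card_prod, Fintype.card_prod, Fintype.card_fin, Fintype.card_fin]
  ring

end GCNTM

/-- **ROA_GCNT.** -/
theorem GCNT_thm : S_GCNT := by
  intro V _ _ k m g q G hq hG hk hm
  constructor
  · intro x
    rcases x with ⟨C, α, s, p⟩ | ⟨u, v, s, p⟩ | ⟨r, v⟩ | v
    · have h1 : ∀ l : C.1, (univ.biUnion fun j : Fin 3 =>
          place2 s (grp l.1 (α l) j).1 (grp l.1 (α l) j).2 (p l j)).card ≤ 9 := by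
        intro l
        refine card_biUnion_le.trans ?_
        refine (sum_le_sum fun j _ => GCNTM.card_place _ _ _ _).trans ?_
        simp
      have h2 : (univ.biUnion fun l : C.1 => univ.biUnion fun j : Fin 3 =>
          place2 s (grp l.1 (α l) j).1 (grp l.1 (α l) j).2 (p l j)).card ≤ 9 * q := by
        refine card_biUnion_le.trans ?_
        refine (sum_le_sum fun l _ => h1 l).trans ?_
        rw [Finset.sum_const, smul_eq_mul, Finset.card_univ, Fintype.card_coe]
        have := hG C.1 C.2
        nlinarith
      refine (card_union_le _ _).trans ?_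
      have h3 := GCNTM.card_slc (V := V) (k := k) (m := m) s
      omega
    · refine (card_union_le _ _).trans ?_
      have h3 := GCNTM.card_slc (V := V) (k := k) (m := m) s
      have h4 := GCNTM.card_place (m := m) s
        (Sum.inr (u, if v then Fin.last k else 0) : Role V k) v p
      omega
    · show ({(Sum.inr (Sum.inl (r, if v then Fin.last m else 0)), v)} :
        Finset (Var2 V k m g × Bool)).card ≤ 9 * q + 2
      rw [card_singleton]
      omega
    · show ({(Sum.inr (Sum.inr (if v then Fin.last g else 0)), v)} :
        Finset (Var2 V k m g × Bool)).card ≤ 9 * q + 2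
      rw [card_singleton]
      omega
  · have h1 : Fintype.card (Σ C : G, (C.1 → Fin k) × Fin g × (C.1 → Fin 3 → Fin m)) ≤
        G.card * (k ^ q * (g * m ^ (3 * q))) := by
      rw [Fintype.card_sigma]
      have h2 : ∀ C : G, Fintype.card ((C.1 → Fin k) × Fin g × (C.1 → Fin 3 → Fin m)) ≤
          k ^ q * (g * m ^ (3 * q)) := by
        intro C
        rw [Fintype.card_prod, Fintype.card_prod, Fintype.card_fun, Fintype.card_fun,
          Fintype.card_fun, Fintype.card_fin, Fintype.card_fin, Fintype.card_fin,
          Fintype.card_fin, Fintype.card_coe, ← pow_mul]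
        have hc := hG C.1 C.2
        exact Nat.mul_le_mul (Nat.pow_le_pow_right hk hc)
          (Nat.mul_le_mul_left _ (Nat.pow_le_pow_right hm (Nat.mul_le_mul_left _ hc)))
      refine (sum_le_sum fun C _ => h2 C).trans ?_
      rw [Finset.sum_const, smul_eq_mul, Finset.card_univ, Fintype.card_coe]
    rw [Fintype.card_sum, Fintype.card_sum, Fintype.card_sum, Fintype.card_prod,
      Fintype.card_prod, Fintype.card_prod, Fintype.card_prod, GCNTM.card_role,
      Fintype.card_bool, Fintype.card_fin, Fintype.card_fin]
    exact Nat.add_le_add_right h1 _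

end Pool.Agent.ROA
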