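import Pool.Agent.ROA.Rank

/-!
# Module SUB

The number of subsets of `R` with at most `D` elements is at most `(R.card + 1) ^ D`: each of them is
the set of the proper values of a function `Fin D → Option ι`.
-/

set_option autoImplicit false

namespace Pool.Agent.ROA

open Finset

theorem SUB_thm : S_SUB := by
  intro ι _ R D
  have h1 : (R.powerset.filter fun S => S.card ≤ D) ⊆
      (Fintype.piFinset (fun _ : Fin D => insertNone R)).image
        (fun g : Fin D → Option ι => eraseNone (univ.image g)) := by
    intro S hS
    rw [mem_filter, mem_powerset] at hS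
    obtain ⟨hSR, hSD⟩ := hS
    rw [mem_image]
    refine ⟨fun i => S.toList[(i : ℕ)]?, ?_, ?_⟩
    · rw [Fintype.mem_piFinset]
      intro i
      rw [mem_insertNone]
      intro x hx
      exact hSR (mem_toList.1 (List.mem_of_getElem? hx))
    · ext x
      rw [mem_eraseNone, mem_image]
      constructor
      · rintro ⟨i, _, hi⟩
        exact mem_toList.1 (List.mem_of_getElem? hi)
      · intro hx
        obtain ⟨n, hn⟩ := List.mem_iff_getElem?.1 (mem_toList.2 hx)
        have hlt : n < S.toList.length := by
          rw [List.getElem?_eq_some_iff] at hn
          exact hn.1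
        rw [length_toList] at hlt
        exact ⟨⟨n, lt_of_lt_of_le hlt hSD⟩, mem_univ _, hn⟩
  refine le_trans (card_le_card h1) (le_trans card_image_le ?_)
  rw [Fintype.card_piFinset, prod_const, card_insertNone, card_univ, Fintype.card_fin]

end Pool.Agent.ROA
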