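import Pool.Agent.ROA.Rank
import Pool.Agent.ROA.GStmts
import Pool.Agent.ROA.SUB

/-!
# Lifting of a general CNF: module GCOR
-/

set_option autoImplicit false
set_option maxHeartbeats 4000000

universe u

namespace Pool.Agent.ROA

open Finset

namespace GCORM

variable {K : Type u} [Field K]

/-- The term of a nonempty set of clauses. -/
theorem term_rank {X Y : Type} {M : X → Y → K} {B : ℕ} {ι : Type} [DecidableEq ι]
    (fal : ι → X → Y → Prop) [∀ c b a, Decidable (fal c b a)] {w : ℕ} (g : X → Y → K)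
    (S : Finset ι) (hS : S.Nonempty)
    (hc : ∀ c ∈ S, (∃ (p : X → Prop) (q : Y → Prop), ∀ b a, fal c b a ↔ p b ∧ q a) ∧
      RankLE B fun b a => if fal c b a then M b a else 0)
    (hg : RankLE w g) :
    RankLE (w * B) fun b a => (if ∀ c ∈ S, fal c b a then g b a else 0) * M b a := by
  classical
  obtain ⟨C, hC⟩ := hS
  have hsplit : ∃ (A : Y → Prop) (P : X → Prop), ∀ b a, (∀ c ∈ S, fal c b a) ↔ (P b ∧ A a) := by
    have hex : ∀ c : ι, ∃ (A : Y → Prop) (P : X → Prop), c ∈ S → ∀ b a, fal c b a ↔ (P b ∧ A a) := by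
      intro c
      by_cases hcS : c ∈ S
      · obtain ⟨⟨p, q, h'⟩, -⟩ := hc c hcS
        exact ⟨q, p, fun _ => h'⟩
      · exact ⟨fun _ => True, fun _ => True, fun h => absurd h hcS⟩
    choose A P hAP using hex
    refine ⟨fun a => ∀ c ∈ S, A c a, fun b => ∀ c ∈ S, P c b, ?_⟩
    intro b a
    constructor
    · intro h
      exact ⟨fun c hcS => ((hAP c hcS b a).1 (h c hcS)).1,
        fun c hcS => ((hAP c hcS b a).1 (h c hcS)).2⟩
    · rintro ⟨hb, ha⟩ c hcS
      exact (hAP c hcS b a).2 ⟨hb c hcS, ha c hcS⟩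
  obtain ⟨A, P, hAP⟩ := hsplit
  have hrank := (hg.mul (hc C hC).2).scale
    (fun b => if P b then (1 : K) else 0) (fun a => if A a then (1 : K) else 0)
  refine hrank.congr fun b a => ?_
  by_cases h : ∀ c ∈ S, fal c b a
  · have h3 := (hAP b a).1 h
    have h4 : fal C b a := h C hC
    rw [if_pos h, if_pos h3.1, if_pos h3.2, if_pos h4]
    ring
  · have h3 : ¬(P b ∧ A a) := fun h' => h ((hAP b a).2 h')
    rw [if_neg h]
    by_cases hb : P b
    · have ha : ¬ A a := fun ha => h3 ⟨hb, ha⟩
      rw [if_neg ha]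
      ring
    · rw [if_neg hb]
      ring

end GCORM

open GCORM in
theorem GCOR_thm : S_GCOR.{u} := by
  classical
  intro K _ X Y M L B hL ι _ _ fal _ R D w g hR hRc hg hone
  set T : Finset ι → X → Y → K :=
    fun S b a => (if ∀ c ∈ S, fal c b a then g S b a else 0) * M b a with hT
  have hterm : ∀ S ∈ R.powerset.filter (fun S => S.card ≤ D),
      RankLE (w * B) (fun b a => if S.Nonempty then T S b a else 0) := by
    intro S hS
    rw [mem_filter, mem_powerset] at hS
    by_cases hne : S.Nonempty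
    · refine (term_rank fal (g S) S hne (fun c hc => hRc c (hS.1 hc))
        (hg S hS.2)).congr fun b a => ?_
      rw [if_pos hne]
      simp only [hT]
      congr
    · exact (RankLE.zero _).congr fun b a => by rw [if_neg hne]
  have hsum := RankLE.sum _ hterm
  have hmat : ∀ b a, M b a = ∑ S ∈ R.powerset.filter (fun S => S.card ≤ D),
      if S.Nonempty then T S b a else 0 := by
    intro b a
    rw [← Finset.sum_filter]
    have h4 : ∑ S ∈ (R.powerset.filter (fun S => S.card ≤ D)).filter (fun S => S.Nonempty),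
        T S b a = ∑ S ∈ univ.filter (fun S : Finset ι => S.Nonempty ∧ S.card ≤ D), T S b a := by
      refine Finset.sum_subset ?_ ?_
      · intro S hS
        simp only [mem_filter, mem_powerset, mem_univ, true_and] at hS ⊢
        exact ⟨hS.2, hS.1.2⟩
      · intro S hS hS'
        simp only [mem_filter, mem_powerset, mem_univ, true_and] at hS hS'
        have h5 : ¬ S ⊆ R := fun h => hS' ⟨⟨h, hS.2⟩, hS.1⟩
        obtain ⟨c, hc, hcR⟩ := Finset.not_subset.1 h5
        simp only [hT]
        rw [if_neg (fun h => hR c hcR b a (h c hc)), zero_mul]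
    rw [h4]
    simp only [hT]
    rw [← Finset.sum_mul, hone b a, one_mul]
  refine hL _ (RankLE.mono ?_ (Nat.mul_le_mul_right (w * B) (SUB_thm ι R D)))
  exact hsum.congr fun b a => hmat b a

end Pool.Agent.ROA
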