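import Pool.Agent.ROA.Rank
import Pool.Agent.ROA.GStmts
import Pool.Agent.ROA.IPS

/-!
# Module GDUA: duality between refutations and designs
-/

set_option autoImplicit false

universe u

namespace Pool.Agent.ROA

open Finset

namespace GDUAM

variable {K : Type u} [Field K] {V : Type} [Fintype V] [DecidableEq V]

/-- The condition on an assignment for a clause and a set of variables. -/
def Cnd (c : Finset (V × Bool)) (T : Finset V) (z : V → Bool) : Prop :=
  IsFalse c z ∧ ∀ x ∈ T, z x = false

instance instDecCnd (c : Finset (V × Bool)) (T : Finset V) (z : V → Bool) :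
    Decidable (Cnd c T z) := inferInstanceAs (Decidable (IsFalse c z ∧ ∀ x ∈ T, z x = false))

/-- The indicator of the condition, if the degree is at most `d`. -/
def vec (K : Type u) [Field K] (G : Finset (Finset (V × Bool))) (d : ℕ) (p : G × Finset V) :
    (V → Bool) → K :=
  fun z => if p.2.card + p.1.1.card ≤ d ∧ Cnd p.1.1 p.2 z then 1 else 0

/-- The cofactor of a clause. -/
noncomputable def cft (G : Finset (Finset (V × Bool))) (d : ℕ) (a : G × Finset V → K) (c : G) :
    MvPolynomial V K :=
  ∑ T ∈ univ.filter (fun T : Finset V => T.card + c.1.card ≤ d),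
    MvPolynomial.C (a (c, T)) * ∏ x ∈ T, (1 - MvPolynomial.X x)

omit [Fintype V] [DecidableEq V] in
theorem deg_prod (T : Finset V) (r : K) :
    (MvPolynomial.C r * ∏ x ∈ T, (1 - MvPolynomial.X x : MvPolynomial V K)).totalDegree ≤
      T.card := by
  refine (MvPolynomial.totalDegree_mul _ _).trans ?_
  rw [MvPolynomial.totalDegree_C, Nat.zero_add]
  refine (MvPolynomial.totalDegree_finsetProd _ _).trans ?_
  rw [Finset.card_eq_sum_ones]
  refine Finset.sum_le_sum fun x _ => ?_
  refine (MvPolynomial.totalDegree_sub _ _).trans ?_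
  rw [MvPolynomial.totalDegree_one, MvPolynomial.totalDegree_X]
  simp

omit [DecidableEq V] in
theorem cft_deg (G : Finset (Finset (V × Bool))) (d : ℕ) (a : G × Finset V → K) (c : G)
    (h : cft G d a c ≠ 0) : (cft G d a c).totalDegree + c.1.card ≤ d := by
  have h1 : (univ.filter (fun T : Finset V => T.card + c.1.card ≤ d)).Nonempty := by
    by_contra h2
    rw [Finset.not_nonempty_iff_eq_empty] at h2
    exact h (by unfold cft; rw [h2, Finset.sum_empty])
  obtain ⟨T₀, hT₀⟩ := h1
  have h3 : T₀.card + c.1.card ≤ d := (Finset.mem_filter.1 hT₀).2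
  have h4 : (cft G d a c).totalDegree ≤ d - c.1.card := by
    unfold cft
    refine MvPolynomial.totalDegree_finsetSum_le fun T hT => ?_
    have h5 : T.card + c.1.card ≤ d := (Finset.mem_filter.1 hT).2
    exact (deg_prod T _).trans (by omega)
  omega

theorem eval_prod (b : V → Bool) (T : Finset V) :
    MvPolynomial.eval (fun x => if b x then (1 : K) else 0)
      (∏ x ∈ T, (1 - MvPolynomial.X x : MvPolynomial V K)) =
      if ∀ x ∈ T, b x = false then 1 else 0 := by
  rw [map_prod]
  have h : ∀ x ∈ T, MvPolynomial.eval (fun x => if b x then (1 : K) else 0)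
      (1 - MvPolynomial.X x : MvPolynomial V K) = if b x = false then 1 else 0 := by
    intro x _
    cases hb : b x <;> simp [hb]
  rw [prod_congr rfl h, prod_boole]
  by_cases h1 : ∀ x ∈ T, b x = false
  · rw [if_pos h1, if_pos h1]
  · rw [if_neg h1, if_neg h1]

theorem eval_cft (G : Finset (Finset (V × Bool))) (d : ℕ) (a : G × Finset V → K) (c : G)
    (b : V → Bool) :
    MvPolynomial.eval (fun x => if b x then (1 : K) else 0) (cft G d a c * clausePoly K c.1) =
      ∑ T, a (c, T) * vec K G d (c, T) b := by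
  rw [map_mul, IPSM.eval_clause]
  unfold cft
  rw [map_sum, Finset.sum_mul, Finset.sum_filter]
  refine Finset.sum_congr rfl fun T _ => ?_
  rw [map_mul, MvPolynomial.eval_C, eval_prod]
  unfold vec
  by_cases h1 : T.card + c.1.card ≤ d
  · rw [if_pos h1]
    by_cases h2 : IsFalse c.1 b
    · by_cases h3 : ∀ x ∈ T, b x = false
      · rw [if_pos h2, if_pos h3, if_pos ⟨h1, h2, h3⟩]
        ring
      · have h4 : ¬ (T.card + c.1.card ≤ d ∧ Cnd c.1 T b) := fun h => h3 h.2.2
        rw [if_neg h3, if_neg h4]
        ring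
    · have h4 : ¬ (T.card + c.1.card ≤ d ∧ Cnd c.1 T b) := fun h => h2 h.2.1
      rw [if_neg h2, if_neg h4]
      ring
  · rw [if_neg h1, if_neg (fun h => h1 h.1)]
    ring

theorem main (G : Finset (Finset (V × Bool))) (d : ℕ) (hN : ¬ NSRefutes K d G) :
    ∃ e : (V → Bool) → K, GDesign G d e := by
  classical
  by_cases hs : (1 : (V → Bool) → K) ∈ Submodule.span K (Set.range (vec K G d))
  · exfalso
    obtain ⟨a, ha⟩ := (Submodule.mem_span_range_iff_exists_fun K).1 hs
    apply hN
    refine ⟨cft G d a, fun c h => cft_deg G d a c h, fun b => ?_⟩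
    rw [Finset.sum_congr rfl fun c _ => eval_cft G d a c b]
    have h1 := congrFun ha b
    rw [Finset.sum_apply] at h1
    rw [Fintype.sum_prod_type] at h1
    rw [Pi.one_apply] at h1
    rw [← h1]
    rfl
  · obtain ⟨f, hf1, hf2⟩ := Submodule.exists_le_ker_of_notMem hs
    have hlin : ∀ g : (V → Bool) → K, ∑ z, g z * f (Pi.single z 1) = f g := by
      intro g
      have h1 : g = ∑ z, g z • (Pi.single z (1 : K) : (V → Bool) → K) := by
        funext y
        rw [Finset.sum_apply]
        simp [Pi.single_apply]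
      conv_rhs => rw [h1]
      rw [map_sum]
      exact Finset.sum_congr rfl fun z _ => by rw [map_smul, smul_eq_mul]
    refine ⟨fun z => f (Pi.single z 1) / f 1, ⟨?_, ?_⟩⟩
    · rw [← Finset.sum_div]
      have h2 := hlin 1
      simp only [Pi.one_apply, one_mul] at h2
      rw [h2, div_self hf1]
    · intro c hc T hT
      have h3 : f (vec K G d (⟨c, hc⟩, T)) = 0 := by
        have := hf2 (Submodule.subset_span ⟨(⟨c, hc⟩, T), rfl⟩)
        rwa [LinearMap.mem_ker] at this
      have h4 := hlin (vec K G d (⟨c, hc⟩, T))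
      rw [h3] at h4
      have h5 : (∑ z, if IsFalse c z ∧ ∀ x ∈ T, z x = false then f (Pi.single z 1) / f 1 else 0) =
          (∑ z, vec K G d (⟨c, hc⟩, T) z * f (Pi.single z 1)) / f 1 := by
        rw [Finset.sum_div]
        refine Finset.sum_congr rfl fun z _ => ?_
        unfold vec
        by_cases h6 : IsFalse c z ∧ ∀ x ∈ T, z x = false
        · rw [if_pos h6, if_pos ⟨hT, h6⟩, one_mul]
        · rw [if_neg h6, if_neg (fun h => h6 h.2), zero_mul, zero_div]
      rw [h5, h4, zero_div]

end GDUAM

theorem GDUA_thm : S_GDUA.{u} := by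
  intro K _ V _ _ G d hN
  exact GDUAM.main G d hN

end Pool.Agent.ROA
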