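import Pool.Agent.ROA.Defs3

/-!
# Lifting of a general CNF: definitions
-/

set_option autoImplicit false

universe u

namespace Pool.Agent.ROA

open Finset

/-- The CNF `G` has a Nullstellensatz refutation of degree at most `d` over `K`: there are
polynomials `g c` with `∑ c, g c * clausePoly c = 1` on the cube (that is, modulo the Boolean axioms)
and `deg (g c * clausePoly c) = deg (g c) + (number of literals of c) ≤ d` if `g c ≠ 0`. -/
def NSRefutes (K : Type u) [Field K] {W : Type} (d : ℕ) (G : Finset (Finset (W × Bool))) : Prop :=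
  ∃ g : G → MvPolynomial W K, (∀ c : G, g c ≠ 0 → (g c).totalDegree + c.1.card ≤ d) ∧
    ∀ b : W → Bool, (∑ c : G, MvPolynomial.eval (fun x => if b x then (1 : K) else 0)
      (g c * clausePoly K c.1)) = 1

/-- A weight on the assignments which is dual to the refutations of degree at most `d`. -/
structure GDesign {K : Type u} [Field K] {V : Type} [Fintype V] [DecidableEq V]
    (G : Finset (Finset (V × Bool))) (d : ℕ) (e : (V → Bool) → K) : Prop where
  one : ∑ z, e z = 1
  orth : ∀ c ∈ G, ∀ T : Finset V, T.card + c.card ≤ d →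
    (∑ z, if IsFalse c z ∧ ∀ x ∈ T, z x = false then e z else 0) = 0

/-- The lifted function: `z x = [a x = b x]`, the value is `± e z`. -/
def gmat {K : Type u} [Field K] {V : Type} [Fintype V] (k : ℕ) (e : (V → Bool) → K)
    (b a : V → Fin k) : K :=
  (∏ x, if a x = b x then (1 : K) else -1) * e fun x => decide (a x = b x)

section

variable {V : Type} {k : ℕ}

/-- The condition on `b` for a clause `c` with cells `α`. -/
def CondB (c : Finset (V × Bool)) (α : c → Fin k) (b : V → Fin k) : Prop :=
  ∀ l : c, decide (b l.1.1 = α l) = !l.1.2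

/-- The condition on `a` for a clause `c` with cells `α`. -/
def CondA (c : Finset (V × Bool)) (α : c → Fin k) (a : V → Fin k) : Prop :=
  ∀ l : c, a l.1.1 = α l

instance instDecCondB (c : Finset (V × Bool)) (α : c → Fin k) (b : V → Fin k) :
    Decidable (CondB c α b) :=
  inferInstanceAs (Decidable (∀ l : c, decide (b l.1.1 = α l) = !l.1.2))

instance instDecCondA (c : Finset (V × Bool)) (α : c → Fin k) (a : V → Fin k) :
    Decidable (CondA c α a) :=
  inferInstanceAs (Decidable (∀ l : c, a l.1.1 = α l))

end

/-- The indices of the clauses of the lifted formula: for each clause of `G` the cells of its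
literals, the slice and the positions of the three roles of each literal; the two ends of the chains;
the two ends of the selectors; the two ends of the chain of the slice. -/
abbrev GIdx (V : Type) (k m g : ℕ) (G : Finset (Finset (V × Bool))) : Type :=
  (Σ C : G, (C.1 → Fin k) × Fin g × (C.1 → Fin 3 → Fin m)) ⊕
    ((V × Bool × Fin g × Fin m) ⊕ ((Role V k × Bool) ⊕ Bool))

section

variable {V : Type} [DecidableEq V] {k m g : ℕ}

/-- The roles and their values, if the literal `l = (x, v)` is false and `x` points to the cell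
`i`: the cell has the value `not v`, the chain bit `i` is `1`, the next one is `0`. -/
def grp (l : V × Bool) (i : Fin k) (j : Fin 3) : Role V k × Bool :=
  ![(Sum.inl (l.1, i), !l.2), (Sum.inr (l.1, i.castSucc), true), (Sum.inr (l.1, i.succ), false)] j

/-- The forbidden patterns of the lifted formula. -/
def gpat {G : Finset (Finset (V × Bool))} : GIdx V k m g G → Finset (Var2 V k m g × Bool)
  | Sum.inl ⟨C, α, s, q⟩ => slc s ∪ univ.biUnion fun l : C.1 => univ.biUnion fun j : Fin 3 =>
      place2 s (grp l.1 (α l) j).1 (grp l.1 (α l) j).2 (q l j)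
  | Sum.inr (Sum.inl (u, v, s, q)) =>
      slc s ∪ place2 s (Sum.inr (u, if v then Fin.last k else 0)) v q
  | Sum.inr (Sum.inr (Sum.inl (r, v))) => {(Sum.inr (Sum.inl (r, if v then Fin.last m else 0)), v)}
  | Sum.inr (Sum.inr (Sum.inr v)) => {(Sum.inr (Sum.inr (if v then Fin.last g else 0)), v)}

end

/-- The lifting theorem: if `G` is a CNF with `n` variables and clauses of at most `q` literals then
for all large `N ≥ n ^ 5` there is a CNF `F` with `N` variables such that: if `G` has no
Nullstellensatz refutation of degree `d` over `K` then each oblivious algebraic branching program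
which computes (after `z := 0`) an IPS refutation of `F`, and has at most `c N log N / log log N`
layers of variables of the formula, has width `w` with `2 w ^ ((log N) ^ 2) ≥ 2 ^ (c d)`. -/
def LiftStatement : Prop := ∀ q : ℕ, 1 ≤ q → ∃ c : ℝ, 0 < c ∧ ∃ N₀ : ℕ, ∀ n N : ℕ, N₀ ≤ N →
  1 ≤ n → n ^ 5 ≤ N → ∀ G : Finset (Finset (Fin n × Bool)), (∀ C ∈ G, C.card ≤ q) →
  ∃ F : Finset (Finset (Fin N × Bool)), (∀ C ∈ F, C.card ≤ 9 * q + 2) ∧
    F.card ≤ (G.card + 1) * N ^ (3 * q) ∧
    ((∀ b, ∃ C ∈ G, IsFalse C b) → ∀ b, ∃ C ∈ F, IsFalse C b) ∧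
    ∀ (K : Type u) [Field K] (d D w : ℕ) (Q : MvPolynomial (Fin N ⊕ (F ⊕ Fin N)) K)
      (P : OABP K (Fin N ⊕ (F ⊕ Fin N)) w),
      ¬ NSRefutes K d G → IsRefutation D F Q → zeroZ P.poly = zeroZ Q →
      (D : ℝ) * Real.log N ≤ c * d →
      (P.len : ℝ) ≤ c * N * Real.log N / Real.log (Real.log N) →
      (2 : ℝ) ^ (c * d) ≤ 2 * (w : ℝ) ^ (Real.log N ^ 2)

end Pool.Agent.ROA
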