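import Pool.Agent.ROA.Rank
import Pool.Agent.ROA.GStmts

/-!
Project ROA, module GEXP: the expansion of a general lifted function.
-/

set_option autoImplicit false

universe u

namespace Pool.Agent.ROA

open Finset

theorem GEXP_thm : S_GEXP.{u} := by
  intro K _ V _ _ c e z W hW hz
  have hout : ∀ y, IsFalse c y → ∀ x, x ∉ W → y x = z x := by
    intro y hy x hx
    rw [hW] at hx
    push Not at hx
    obtain ⟨l, hl, hlx⟩ := hx
    have h1 := hy l hl
    have h2 := hz l hl
    rw [hlx] at h1 h2
    revert h1 h2
    cases y x <;> cases z x <;> cases l.2 <;> simp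
  have key : ∀ y : V → Bool,
      ∑ S ∈ W.powerset, (∏ x ∈ S, if z x = true then (1 : K) else 0) *
        ((-1) ^ (W.card - S.card) *
          if IsFalse c y ∧ ∀ x ∈ W \ S, y x = false then e y else 0) =
      if y = z then (∏ x ∈ W, if z x = true then (1 : K) else -1) * e z else 0 := by
    intro y
    by_cases hy : IsFalse c y
    · have h1 : ∑ S ∈ W.powerset, (∏ x ∈ S, if z x = true then (1 : K) else 0) *
          ((-1) ^ (W.card - S.card) *
            if IsFalse c y ∧ ∀ x ∈ W \ S, y x = false then e y else 0) =
          (∏ x ∈ W, ((if z x = true then (1 : K) else 0) + if y x = false then -1 else 0)) *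
            e y := by
        rw [Finset.prod_add, Finset.sum_mul]
        refine Finset.sum_congr rfl fun S hS => ?_
        rw [Finset.prod_ite_zero (s := W \ S), Finset.prod_const,
          Finset.card_sdiff_of_subset (Finset.mem_powerset.1 hS)]
        by_cases h : ∀ x ∈ W \ S, y x = false
        · rw [if_pos h, if_pos ⟨hy, h⟩]
          ring
        · rw [if_neg h, if_neg (fun h' => h h'.2)]
          ring
      rw [h1]
      by_cases hyz : y = z
      · subst hyz
        rw [if_pos rfl]
        congr 1
        refine Finset.prod_congr rfl fun x _ => ?_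
        cases y x <;> simp
      · rw [if_neg hyz]
        obtain ⟨x, hx⟩ : ∃ x, y x ≠ z x := Function.ne_iff.1 hyz
        have hxW : x ∈ W := by
          by_contra h
          exact hx (hout y hy x h)
        rw [Finset.prod_eq_zero hxW, zero_mul]
        revert hx
        cases y x <;> cases z x <;> simp
    · have hyz : y ≠ z := by
        intro h
        rw [h] at hy
        exact hy hz
      rw [if_neg hyz]
      refine Finset.sum_eq_zero fun S _ => ?_
      rw [if_neg (fun h => hy h.1), mul_zero, mul_zero]
  calc (∏ x ∈ W, if z x = true then (1 : K) else -1) * e z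
      = ∑ y, if y = z then (∏ x ∈ W, if z x = true then (1 : K) else -1) * e z else 0 := by
        rw [Finset.sum_ite_eq' Finset.univ z, if_pos (Finset.mem_univ z)]
    _ = ∑ y, ∑ S ∈ W.powerset, (∏ x ∈ S, if z x = true then (1 : K) else 0) *
        ((-1) ^ (W.card - S.card) *
          if IsFalse c y ∧ ∀ x ∈ W \ S, y x = false then e y else 0) :=
        Finset.sum_congr rfl fun y _ => (key y).symm
    _ = _ := by
        rw [Finset.sum_comm]
        refine Finset.sum_congr rfl fun S _ => ?_
        rw [← Finset.mul_sum, ← Finset.mul_sum]

end Pool.Agent.ROA
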