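import Pool.Agent.ROA.Rank
import Pool.Agent.ROA.GStmts

/-!
# Module GLOW

The rank of the lifted function of a general weight.
-/

set_option autoImplicit false

universe u

namespace Pool.Agent.ROA

open Finset

namespace GLOWM

variable {K : Type u} [Field K] {V : Type} [Fintype V] [DecidableEq V] {k : ℕ}

/-- One factor of the product over `x`. -/
noncomputable def fac (K : Type u) [Field K] (b a' : Fin k) (z : Bool) (y : Fin (k + 1)) : K :=
  (if y = b.castSucc then (1 : K) else -1) * (if decide (y = b.castSucc) = z then 1 else 0) *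
    ((if y = a'.castSucc then 1 else 0) - if y = Fin.last k then 1 else 0)

/-- The sum of the factor over `y`. -/
theorem sum_fac (b a' : Fin k) (z : Bool) :
    ∑ y : Fin (k + 1), fac K b a' z y = if b = a' then 1 else 0 := by
  unfold fac
  have hne : Fin.last k ≠ b.castSucc := (Fin.castSucc_lt_last _).ne'
  simp only [mul_sub, Finset.sum_sub_distrib, mul_ite, mul_one, mul_zero, Finset.sum_ite_eq',
    mem_univ, if_true]
  rw [if_neg hne]
  by_cases hba : b = a'
  · subst hba
    rw [if_pos rfl, if_pos rfl]
    cases z <;> simp [hne]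
  · have h1 : a'.castSucc ≠ b.castSucc := fun h => hba (Fin.castSucc_injective _ h).symm
    rw [if_neg h1, if_neg hba]
    cases z <;> simp [hne, h1]

/-- Expansion of the weight as a sum over `z`. -/
theorem expand (e : (V → Bool) → K) (b a' : V → Fin k) (a : V → Fin (k + 1)) :
    gmat (k + 1) e (fun x => (b x).castSucc) a *
      ∏ x, ((if a x = (a' x).castSucc then (1 : K) else 0) - if a x = Fin.last k then 1 else 0) =
    ∑ z : V → Bool, e z * ∏ x, fac K (b x) (a' x) (z x) (a x) := by
  rw [Finset.sum_eq_single (fun x => decide (a x = (b x).castSucc))]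
  · unfold gmat fac
    rw [Finset.prod_mul_distrib, Finset.prod_mul_distrib]
    have h1 : (∏ x, if decide (a x = (b x).castSucc) = decide (a x = (b x).castSucc)
        then (1 : K) else 0) = 1 := by
      refine Finset.prod_eq_one fun x _ => ?_
      rw [if_pos rfl]
    rw [h1]
    ring
  · intro z _ hz
    obtain ⟨x, hx⟩ := Function.ne_iff.1 hz
    rw [Finset.prod_eq_zero (Finset.mem_univ x), mul_zero]
    have h2 : ¬ (decide (a x = (b x).castSucc) = z x) := fun h => hx h.symm
    unfold fac
    rw [if_neg h2, mul_zero, zero_mul]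
  · intro h
    exact absurd (Finset.mem_univ _) h

/-- The sum over all `a`. -/
theorem total (e : (V → Bool) → K) (he : ∑ z, e z = 1) (b a' : V → Fin k) :
    ∑ a : V → Fin (k + 1), gmat (k + 1) e (fun x => (b x).castSucc) a *
      ∏ x, ((if a x = (a' x).castSucc then (1 : K) else 0) - if a x = Fin.last k then 1 else 0) =
    if b = a' then 1 else 0 := by
  rw [Finset.sum_congr rfl fun a _ => expand e b a' a, Finset.sum_comm]
  have h1 : ∀ z : V → Bool, (∑ a : V → Fin (k + 1), e z * ∏ x, fac K (b x) (a' x) (z x) (a x)) =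
      e z * if b = a' then 1 else 0 := by
    intro z
    rw [← Finset.mul_sum]
    congr 1
    rw [← Fintype.piFinset_univ, ← Finset.prod_univ_sum (fun _ => univ)
      (fun x (y : Fin (k + 1)) => fac K (b x) (a' x) (z x) y)]
    rw [Finset.prod_congr rfl fun x _ => sum_fac (K := K) (b x) (a' x) (z x)]
    by_cases hba : b = a'
    · rw [if_pos hba]
      exact Finset.prod_eq_one fun x _ => if_pos (congrFun hba x)
    · rw [if_neg hba]
      obtain ⟨x, hx⟩ := Function.ne_iff.1 hba
      exact Finset.prod_eq_zero (Finset.mem_univ x) (if_neg hx)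
  rw [Finset.sum_congr rfl fun z _ => h1 z, ← Finset.sum_mul, he, one_mul]

end GLOWM

theorem GLOW_thm : S_GLOW.{u} := by
  intro K _ V _ _ k w e hk he hM
  obtain ⟨k, rfl⟩ : ∃ k', k = k' + 1 := ⟨k - 1, by omega⟩
  rw [Nat.add_sub_cancel]
  have h1 := (hM.comp (fun b : V → Fin k => fun x => (b x).castSucc)
    (fun a : V → Fin (k + 1) => a)).mulRight
      (fun (a : V → Fin (k + 1)) (a' : V → Fin k) =>
        ∏ x, ((if a x = (a' x).castSucc then (1 : K) else 0) -
          if a x = Fin.last k then 1 else 0))
  have h2 : RankLE w fun b a' : V → Fin k => if b = a' then (1 : K) else 0 :=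
    h1.congr fun b a' => (GLOWM.total e he b a').symm
  have h6 := h2.card_le
  rwa [Fintype.card_fun, Fintype.card_fin] at h6

end Pool.Agent.ROA
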