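import Pool.Agent.ROA.Rank
import Pool.Agent.ROA.GStmts

/-!
Module ROA_GN1 (MP_a77cad_lc): the numbers `m` and `g`.
-/

set_option autoImplicit false

namespace Pool.Agent.ROA

open Finset

namespace GN1M

theorem sq_le (K n N : ℕ) (hn : 1 ≤ n) (hN : n ^ 5 ≤ N) (hK : K * K ≤ N) : K * n ^ 2 ≤ N := by
  rcases le_or_gt K (n ^ 3) with h | h
  · calc K * n ^ 2 ≤ n ^ 3 * n ^ 2 := Nat.mul_le_mul_right _ h
      _ = n ^ 5 := by rw [← pow_add]
      _ ≤ N := hN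
  · calc K * n ^ 2 ≤ K * n ^ 3 := Nat.mul_le_mul_left _ (Nat.pow_le_pow_right hn (by norm_num))
      _ ≤ K * K := Nat.mul_le_mul_left _ h.le
      _ ≤ N := hK

theorem clauses (n N k R m g : ℕ) (hN3 : 4 ≤ N) (hn : 1 ≤ n) (hnN : n ≤ N)
    (hk : k = 2 * n) (hRN : R ≤ N) (hm : 64 * n ^ 2 * m ≤ N) (hgm : g * m ≤ N) (q s : ℕ)
    (hq : 1 ≤ q) :
    s * (k ^ q * (g * m ^ (3 * q))) + (n * (2 * (g * m)) + (R * 2 + 2)) ≤
      (s + 1) * N ^ (3 * q) := by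
  have hkm : k * m ≤ N := by
    calc k * m ≤ 64 * n ^ 2 * m := by
          apply Nat.mul_le_mul_right
          rw [hk]
          nlinarith
      _ ≤ N := hm
  have hmN : m ≤ N := by
    calc m ≤ k * m := Nat.le_mul_of_pos_left _ (by omega)
      _ ≤ N := hkm
  obtain ⟨r, rfl⟩ : ∃ r, q = r + 1 := ⟨q - 1, by omega⟩
  have h1 : k ^ (r + 1) * (g * m ^ (3 * (r + 1))) ≤ N ^ (3 * (r + 1)) := by
    calc k ^ (r + 1) * (g * m ^ (3 * (r + 1)))
        = (k * m) ^ (r + 1) * (m ^ (2 * r + 1) * (g * m)) := by ring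
      _ ≤ N ^ (r + 1) * (N ^ (2 * r + 1) * N) :=
          Nat.mul_le_mul (Nat.pow_le_pow_left hkm _)
            (Nat.mul_le_mul (Nat.pow_le_pow_left hmN _) hgm)
      _ = N ^ (3 * (r + 1)) := by ring
  have h2 : n * (2 * (g * m)) + (R * 2 + 2) ≤ N ^ (3 * (r + 1)) := by
    calc n * (2 * (g * m)) + (R * 2 + 2) ≤ N * (2 * N) + (N * 2 + 2) := by
          have := Nat.mul_le_mul hnN (Nat.mul_le_mul_left 2 hgm)
          omega
      _ ≤ 4 * N ^ 2 := by nlinarith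
      _ ≤ N * N ^ 2 := Nat.mul_le_mul_right _ hN3
      _ = N ^ 3 := by ring
      _ ≤ N ^ (3 * (r + 1)) := Nat.pow_le_pow_right (by omega) (by omega)
  calc s * (k ^ (r + 1) * (g * m ^ (3 * (r + 1)))) + (n * (2 * (g * m)) + (R * 2 + 2))
      ≤ s * N ^ (3 * (r + 1)) + N ^ (3 * (r + 1)) := Nat.add_le_add (Nat.mul_le_mul_left _ h1) h2
    _ = (s + 1) * N ^ (3 * (r + 1)) := by ring

end GN1M

/-- **ROA_GN1.** -/
theorem GN1_thm : S_GN1 := by
  refine ⟨8000 * 8000, ?_⟩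
  intro n N hN hn hnN k R hk hR
  have hR1 : R = 4 * n ^ 2 + n := by
    rw [hR, hk]
    ring
  have hnn : n ≤ n ^ 2 := Nat.le_self_pow (by norm_num) n
  have hn2 : 1 ≤ n ^ 2 := Nat.one_le_pow _ _ hn
  have hR5 : R ≤ 5 * n ^ 2 := by omega
  have hR4 : 4 * n ^ 2 ≤ R := by omega
  have hR0 : 5 ≤ R := by omega
  have hbig : 8000 * n ^ 2 ≤ N := GN1M.sq_le 8000 n N hn hnN hN
  have hRN : 1600 * R ≤ N := by omega
  -- the number `m`
  obtain ⟨m, hm⟩ : ∃ m, m = N / (16 * R) := ⟨_, rfl⟩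
  have h16 : 0 < 16 * R := by omega
  have hm1 : 16 * R * m ≤ N := by
    rw [hm]
    exact Nat.mul_div_le N (16 * R)
  have hm2 : N < 16 * R * (m + 1) := by
    rw [hm]
    exact Nat.lt_mul_div_succ N h16
  have hm100 : 100 ≤ m := by
    rw [hm, Nat.le_div_iff_mul_le h16]
    omega
  -- products
  obtain ⟨P, hP⟩ : ∃ P, P = R * m := ⟨_, rfl⟩
  have hP1 : 16 * P ≤ N := by
    rw [hP]
    calc 16 * (R * m) = 16 * R * m := by ring
      _ ≤ N := hm1
  have hP2 : 5 * m ≤ P := by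
    rw [hP]
    exact Nat.mul_le_mul_right _ hR0
  have hP3 : 100 * R ≤ P := by
    rw [hP, mul_comm 100 R]
    exact Nat.mul_le_mul_left _ hm100
  have hRm : R * (m + 1) = P + R := by
    rw [hP]
    ring
  -- the number `g`
  obtain ⟨A, hA⟩ : ∃ A, A = N - R * (m + 1) - 1 := ⟨_, rfl⟩
  obtain ⟨g, hg⟩ : ∃ g, g = A / (m + 1) := ⟨_, rfl⟩
  have hg1 : (m + 1) * g ≤ A := by
    rw [hg]
    exact Nat.mul_div_le A (m + 1)
  have hg2 : A < (m + 1) * (g + 1) := by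
    rw [hg]
    exact Nat.lt_mul_div_succ A (Nat.succ_pos m)
  obtain ⟨G, hG⟩ : ∃ G, G = g * m := ⟨_, rfl⟩
  have hG1 : (m + 1) * g = G + g := by
    rw [hG]
    ring
  have hG2 : (m + 1) * (g + 1) = G + g + m + 1 := by
    rw [hG]
    ring
  have hG3 : 100 * g ≤ G := by
    rw [hG, mul_comm g m]
    exact Nat.mul_le_mul_right _ hm100
  rw [hG1] at hg1
  rw [hG2] at hg2
  rw [hRm] at hA
  have hNG : N ≤ 2 * G := by omega
  have hg0 : 0 < g := by
    rcases Nat.eq_zero_or_pos g with h | h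
    · rw [h, zero_mul] at hG
      omega
    · exact h
  refine ⟨m, g, by omega, hg0, ?_, ?_, ?_, ?_⟩
  · rw [← hG, hRm]
    omega
  · rw [← hG]
    exact hNG
  · -- `N ≤ 100 n ^ 2 m`
    obtain ⟨Q, hQ⟩ : ∃ Q, Q = n ^ 2 * m := ⟨_, rfl⟩
    have hQ1 : P ≤ 5 * Q := by
      rw [hP, hQ]
      calc R * m ≤ 5 * n ^ 2 * m := Nat.mul_le_mul_right _ hR5
        _ = 5 * (n ^ 2 * m) := by ring
    have e1 : 16 * R * (m + 1) = 16 * P + 16 * R := by
      rw [hP]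
      ring
    have e2 : 100 * n ^ 2 * m = 100 * Q := by
      rw [hQ]
      ring
    rw [e1] at hm2
    rw [e2]
    omega
  · intro q s hq
    refine GN1M.clauses n N k R m g (by omega) hn ?_ hk (by omega) ?_ ?_ q s hq
    · exact (Nat.le_self_pow (by norm_num) n).trans hnN
    · calc 64 * n ^ 2 * m = 16 * (4 * n ^ 2) * m := by ring
        _ ≤ 16 * R * m := Nat.mul_le_mul_right _ (Nat.mul_le_mul_left _ hR4)
        _ ≤ N := hm1
    · rw [← hG]
      omega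

end Pool.Agent.ROA
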