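import Pool.Agent.ROA.Rank
import Pool.Agent.ROA.GStmts

/-!
# Module GN2: numbers for the lifting theorem
-/

set_option autoImplicit false

namespace Pool.Agent.ROA

namespace GN2M

/-- large numbers -/
structure Big (N : ℕ) : Prop where
  l : 100 ≤ Real.log N
  ll : 480 * Real.log (Real.log N) ≤ Real.log N

lemma big_eventually : ∀ᶠ N : ℕ in Filter.atTop, Big N := by
  have h1 : Filter.Tendsto (fun N : ℕ => Real.log N) Filter.atTop Filter.atTop :=
    Real.tendsto_log_atTop.comp tendsto_natCast_atTop_atTop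
  have h2 : ∀ᶠ x : ℝ in Filter.atTop, 480 * Real.log x ≤ x := by
    have h3 := Real.isLittleO_log_id_atTop.bound (show (0 : ℝ) < 1 / 480 by norm_num)
    filter_upwards [h3, Filter.eventually_ge_atTop 1] with x hx hx1
    simp only [id, Real.norm_eq_abs] at hx
    rw [abs_of_nonneg (Real.log_nonneg hx1), abs_of_nonneg (by linarith)] at hx
    linarith
  filter_upwards [h1.eventually_ge_atTop 100, h1.eventually h2] with N ha hb
  exact ⟨ha, hb⟩

lemma real_part {N : ℕ} (hN : Big N) {c : ℝ} (hc0 : 0 < c) (hc : c ≤ 1 / 1000) :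
    ∃ e : ℕ, (∀ l : ℕ, (l : ℝ) ≤ c * N * Real.log N / Real.log (Real.log N) → l ≤ e * N) ∧
      32 * (e : ℝ) ^ 2 + 2 ≤ Real.log N ^ 2 ∧
      2400 * (32 * (e : ℝ) ^ 2 + 2) ^ (4 * e) ≤ Real.exp (Real.log N / 5) := by
  obtain ⟨hl, hll⟩ := hN
  obtain ⟨L, hL⟩ : ∃ L, L = Real.log N := ⟨_, rfl⟩
  obtain ⟨LL, hLL⟩ : ∃ LL, LL = Real.log L := ⟨_, rfl⟩
  rw [← hL] at hl hll ⊢
  rw [← hLL] at hll ⊢
  have hL0 : 0 < L := by linarith
  have hLL1 : 1 ≤ LL := by
    rw [hLL, Real.le_log_iff_exp_le hL0]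
    have := Real.exp_one_lt_d9
    linarith
  have hLL0 : 0 < LL := by linarith
  have hN0 : (0 : ℝ) < N := by
    rcases Nat.eq_zero_or_pos N with h | h
    · rw [h] at hL
      simp only [Nat.cast_zero, Real.log_zero] at hL
      linarith
    · exact_mod_cast h
  obtain ⟨y, hy⟩ : ∃ y, y = c * L / LL := ⟨_, rfl⟩
  have hy0 : 0 ≤ y := by rw [hy]; positivity
  have hyLL : y * LL = c * L := by
    rw [hy]
    field_simp
  have hcL : c * L ≤ L / 1000 := by
    have := mul_le_mul_of_nonneg_right hc hL0.le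
    linarith
  have hyL : y ≤ L / 1000 := by nlinarith
  have he1 := Nat.le_ceil y
  have he2 := Nat.ceil_lt_add_one hy0
  obtain ⟨e, he⟩ : ∃ e, e = ⌈y⌉₊ := ⟨_, rfl⟩
  rw [← he] at he1 he2
  have he0 : (0 : ℝ) ≤ e := Nat.cast_nonneg e
  have h2 : 32 * (e : ℝ) ^ 2 + 2 ≤ L ^ 2 := by
    have h3 : (e : ℝ) ≤ L / 50 := by linarith
    have h4 : (e : ℝ) ^ 2 ≤ (L / 50) ^ 2 := pow_le_pow_left₀ he0 h3 2
    nlinarith
  refine ⟨e, fun l hl' => ?_, h2, ?_⟩
  · have h1 : (l : ℝ) ≤ ((e * N : ℕ) : ℝ) := by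
      push_cast
      refine hl'.trans ?_
      have h3 : c * (N : ℝ) * L / LL = y * N := by
        rw [hy]
        ring
      rw [h3]
      exact mul_le_mul_of_nonneg_right he1 hN0.le
    exact_mod_cast h1
  · have h3 : (32 * (e : ℝ) ^ 2 + 2) ^ (4 * e) ≤ (L ^ 2) ^ (4 * e) :=
      pow_le_pow_left₀ (by positivity) h2 _
    have h4 : L = Real.exp LL := by rw [hLL, Real.exp_log hL0]
    have h5 : (L ^ 2) ^ (4 * e) = Real.exp ((8 * e : ℕ) * LL) := by
      rw [← pow_mul, Real.exp_nat_mul, ← h4]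
      congr 1
      ring
    have h6 : ((8 * e : ℕ) : ℝ) * LL ≤ L / 40 := by
      push_cast
      have h7 : (e : ℝ) * LL ≤ (y + 1) * LL := mul_le_mul_of_nonneg_right he2.le hLL0.le
      nlinarith
    have h8 : (2400 : ℝ) ≤ Real.exp 9 := by
      have h9 : Real.exp 9 = Real.exp 1 ^ 9 := by
        rw [← Real.exp_nat_mul]
        norm_num
      have h10 : (2.7 : ℝ) ≤ Real.exp 1 := by
        have := Real.exp_one_gt_d9
        linarith
      have h11 := pow_le_pow_left₀ (by norm_num) h10 9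
      rw [h9]
      refine le_trans ?_ h11
      norm_num
    calc 2400 * (32 * (e : ℝ) ^ 2 + 2) ^ (4 * e)
        ≤ Real.exp 9 * Real.exp (L / 40) := by
          refine mul_le_mul h8 ?_ (by positivity) (Real.exp_pos _).le
          refine h3.trans ?_
          rw [h5, Real.exp_le_exp]
          exact h6
      _ = Real.exp (9 + L / 40) := (Real.exp_add _ _).symm
      _ ≤ Real.exp (L / 5) := Real.exp_le_exp.2 (by linarith)

end GN2M

open GN2M in
theorem GN2_thm : S_GN2 := by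
  refine ⟨1 / 1000, by norm_num, fun c hc0 hc => ?_⟩
  obtain ⟨N₁, hN₁⟩ := Filter.eventually_atTop.1 big_eventually
  refine ⟨max N₁ 1, fun N hN => ?_⟩
  have hbig := hN₁ N ((le_max_left _ _).trans hN)
  have hN1 : 1 ≤ N := (le_max_right _ _).trans hN
  obtain ⟨e, h1, h2, h3⟩ := real_part hbig hc0 hc
  refine ⟨e, h1, h2, fun n k m hn hn5 hk hm => ?_⟩
  have hN0 : (0 : ℝ) < N := by exact_mod_cast hN1
  obtain ⟨L, hL⟩ : ∃ L, L = Real.log N := ⟨_, rfl⟩
  rw [← hL] at h3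
  have hNe : Real.exp L = N := by rw [hL, Real.exp_log hN0]
  have hn' : (n : ℝ) ≤ Real.exp (L / 5) := by
    by_contra hlt
    rw [not_le] at hlt
    have h4 : Real.exp (L / 5) ^ 5 < (n : ℝ) ^ 5 :=
      pow_lt_pow_left₀ hlt (Real.exp_pos _).le (by norm_num)
    have h5 : Real.exp (L / 5) ^ 5 = N := by
      rw [← Real.exp_nat_mul, ← hNe]
      congr 1
      push_cast
      ring
    rw [h5] at h4
    have h6 : (n : ℝ) ^ 5 ≤ N := by exact_mod_cast hn5
    linarith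
  have h4 : (n : ℝ) ^ 4 ≤ Real.exp (4 * (L / 5)) := by
    have h5 := pow_le_pow_left₀ (Nat.cast_nonneg n) hn' 4
    rw [← Real.exp_nat_mul] at h5
    exact_mod_cast h5
  have h5 : (2400 * (32 * (e : ℝ) ^ 2 + 2) ^ (4 * e)) * (n : ℝ) ^ 4 ≤ N := by
    calc (2400 * (32 * (e : ℝ) ^ 2 + 2) ^ (4 * e)) * (n : ℝ) ^ 4
        ≤ Real.exp (L / 5) * Real.exp (4 * (L / 5)) :=
          mul_le_mul h3 h4 (by positivity) (Real.exp_pos _).le
      _ = N := by
          rw [← Real.exp_add, ← hNe]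
          congr 1
          ring
  have h6 : 2400 * (32 * e ^ 2 + 2) ^ (4 * e) * n ^ 4 ≤ N := by exact_mod_cast h5
  have hpos : 0 < 100 * n ^ 2 := by positivity
  have h7 : (100 * n ^ 2) * (8 * (32 * e ^ 2 + 2) ^ (4 * e) * (n * (k + 1))) ≤
      (100 * n ^ 2) * m := by
    refine le_trans ?_ hm
    refine le_trans ?_ h6
    have h8 : n * (k + 1) ≤ 3 * n ^ 2 := by
      rw [hk]
      nlinarith
    calc (100 * n ^ 2) * (8 * (32 * e ^ 2 + 2) ^ (4 * e) * (n * (k + 1)))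
        ≤ (100 * n ^ 2) * (8 * (32 * e ^ 2 + 2) ^ (4 * e) * (3 * n ^ 2)) :=
          Nat.mul_le_mul_left _ (Nat.mul_le_mul_left _ h8)
      _ = 2400 * (32 * e ^ 2 + 2) ^ (4 * e) * n ^ 4 := by ring
  exact Nat.le_of_mul_le_mul_left h7 hpos

end Pool.Agent.ROA
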