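import Pool.Agent.ROA.Rank
import Pool.Agent.ROA.GStmts

/-!
Project ROA, part 3, module GN3 (numbers).
-/

set_option autoImplicit false

open Finset

namespace Pool.Agent.ROA

namespace GN3M

theorem two_mul_pow (n : ℕ) (hn : 1 ≤ n) : (2 * n) ^ n ≤ 2 * (2 * n - 1) ^ n := by
  have h1 : 1 ≤ 2 * n := by omega
  have hx : (0 : ℝ) < 2 * n := by positivity
  have hn' : (1 : ℝ) ≤ n := by exact_mod_cast hn
  have hb := one_add_mul_le_pow (a := -(1 / (2 * (n : ℝ)))) (by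
    have : 1 / (2 * (n : ℝ)) ≤ 1 := by
      rw [div_le_one hx]; linarith
    linarith) n
  have e1 : 1 + (n : ℝ) * -(1 / (2 * n)) = 1 / 2 := by field_simp; norm_num
  rw [e1] at hb
  have e2 : (1 : ℝ) + -(1 / (2 * n)) = (2 * n - 1) / (2 * n) := by field_simp; ring
  rw [e2, div_pow, le_div_iff₀ (by positivity)] at hb
  have h3 : ((2 * n : ℕ) : ℝ) ^ n ≤ 2 * ((2 * n - 1 : ℕ) : ℝ) ^ n := by
    rw [Nat.cast_sub h1]
    push_cast
    linarith
  exact_mod_cast h3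

theorem sum_le (n d : ℕ) :
    2 ^ d * ∑ j ∈ range (n - d), n.choose j * (2 * n) ^ j ≤ (2 * n) ^ n := by
  have key : ∀ m : ℕ, m ≤ n →
      2 ^ (n - m) * ∑ j ∈ range m, n.choose j * (2 * n) ^ j ≤ (2 * n) ^ n := by
    intro m hm
    induction m with
    | zero => simp
    | succ m ih =>
      have ih' := ih (by omega)
      have e : n - m = (n - (m + 1)) + 1 := by omega
      rw [e, pow_succ] at ih'
      rw [Finset.sum_range_succ, Nat.mul_add]
      have h2 : 2 ^ (n - (m + 1)) * (n.choose m * (2 * n) ^ m) * 2 ≤ (2 * n) ^ n := by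
        have hc : n.choose m ≤ n ^ (n - m) := by
          rw [← Nat.choose_symm (by omega)]
          exact Nat.choose_le_pow _ _
        calc 2 ^ (n - (m + 1)) * (n.choose m * (2 * n) ^ m) * 2
            = 2 ^ (n - m) * n.choose m * (2 * n) ^ m := by rw [e, pow_succ]; ring
          _ ≤ 2 ^ (n - m) * n ^ (n - m) * (2 * n) ^ m := by gcongr
          _ = (2 * n) ^ n := by
            rw [← mul_pow, ← pow_add]; congr 1; omega
      have h3 : 2 ^ (n - (m + 1)) * (∑ j ∈ range m, n.choose j * (2 * n) ^ j) * 2 ≤ (2 * n) ^ n := by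
        calc _ = 2 ^ (n - (m + 1)) * 2 * ∑ j ∈ range m, n.choose j * (2 * n) ^ j := by ring
          _ ≤ _ := ih'
      omega
  rcases Nat.lt_or_ge n d with h | h
  · have : n - d = 0 := by omega
    simp [this]
  · have := key (n - d) (by omega)
    rwa [Nat.sub_sub_self h] at this

theorem base_le (q n N s : ℕ) (hq : 1 ≤ q) (hn : 1 ≤ n) (hN : 96 ≤ N) (hnN : n ^ 5 ≤ N)
    (hs : s ≤ (2 * n + 1) ^ q) : 2 * (s * (2 * n) ^ q + 1) ≤ N ^ q := by
  have h24 : 24 * n ^ 2 ≤ N := by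
    rcases Nat.lt_or_ge n 3 with h | h
    · have : n = 1 ∨ n = 2 := by omega
      rcases this with rfl | rfl <;> omega
    · refine le_trans ?_ hnN
      have h27 : 3 ^ 3 ≤ n ^ 3 := Nat.pow_le_pow_left h 3
      calc 24 * n ^ 2 ≤ n ^ 3 * n ^ 2 := Nat.mul_le_mul_right _ (by omega)
        _ = n ^ 5 := by ring
  have h1 : s * (2 * n) ^ q ≤ (6 * n ^ 2) ^ q := by
    calc s * (2 * n) ^ q ≤ (2 * n + 1) ^ q * (2 * n) ^ q := Nat.mul_le_mul_right _ hs
      _ ≤ (3 * n) ^ q * (2 * n) ^ q :=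
        Nat.mul_le_mul_right _ (Nat.pow_le_pow_left (by omega) q)
      _ = (6 * n ^ 2) ^ q := by rw [← mul_pow]; congr 1; ring
  have h2 : 1 ≤ (6 * n ^ 2) ^ q := Nat.one_le_pow _ _ (by positivity)
  have h4 : 4 ≤ 4 ^ q := by
    calc 4 = 4 ^ 1 := by norm_num
      _ ≤ 4 ^ q := Nat.pow_le_pow_right (by norm_num) hq
  calc 2 * (s * (2 * n) ^ q + 1) ≤ 4 * (6 * n ^ 2) ^ q := by omega
    _ ≤ 4 ^ q * (6 * n ^ 2) ^ q := Nat.mul_le_mul_right _ h4
    _ = (24 * n ^ 2) ^ q := by rw [← mul_pow]; congr 1; ring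
    _ ≤ N ^ q := Nat.pow_le_pow_left h24 q

end GN3M

open GN3M in
theorem GN3_thm : S_GN3 := by
  intro q hq
  have hq' : (1 : ℝ) ≤ q := by exact_mod_cast hq
  refine ⟨1 / (4 * q), by positivity, ?_⟩
  intro c hc hcq
  refine ⟨96, ?_⟩
  intro n N k e s D d w hN hn hnN hk he hs hD hmain
  subst hk
  set E := 32 * e ^ 2 + 2 with hE
  set X := (s * (2 * n) ^ q + 1) ^ D * (2 ^ D * w ^ E) with hX
  set S := ∑ j ∈ range (n - d), n.choose j * (2 * n) ^ j with hS
  have hmain' : (2 * n - 1) ^ n ≤ X * S := by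
    rw [hX, mul_assoc]; exact hmain
  have hk0 : 0 < (2 * n) ^ n := by positivity
  have h1 : 2 ^ d ≤ 2 * X := by
    have hA := two_mul_pow n hn
    have hB := sum_le n d
    have h2 : 2 ^ d * (2 * n) ^ n ≤ 2 * X * (2 * n) ^ n := by
      calc 2 ^ d * (2 * n) ^ n ≤ 2 ^ d * (2 * (2 * n - 1) ^ n) := Nat.mul_le_mul_left _ hA
        _ ≤ 2 ^ d * (2 * (X * S)) := Nat.mul_le_mul_left _ (Nat.mul_le_mul_left _ hmain')
        _ = 2 * X * (2 ^ d * S) := by ring
        _ ≤ 2 * X * (2 * n) ^ n := Nat.mul_le_mul_left _ hB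
    exact Nat.le_of_mul_le_mul_right h2 hk0
  have hw : 1 ≤ w := by
    by_contra h
    have hw0 : w = 0 := by omega
    have hX0 : X = 0 := by rw [hX, hw0, hE]; simp
    rw [hX0] at h1
    have : 0 < 2 ^ d := by positivity
    omega
  have h3 : X ≤ N ^ (q * D) * w ^ E := by
    have hb := base_le q n N s hq hn hN hnN hs
    calc X = (2 * (s * (2 * n) ^ q + 1)) ^ D * w ^ E := by
            rw [hX, mul_pow 2 (s * (2 * n) ^ q + 1) D, ← mul_assoc, mul_comm (2 ^ D)]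
      _ ≤ (N ^ q) ^ D * w ^ E := Nat.mul_le_mul_right _ (Nat.pow_le_pow_left hb D)
      _ = N ^ (q * D) * w ^ E := by rw [← pow_mul]
  have h4 : (2 : ℝ) ^ d ≤ 2 * ((N : ℝ) ^ (q * D) * (w : ℝ) ^ E) := by
    have : 2 ^ d ≤ 2 * (N ^ (q * D) * w ^ E) := h1.trans (Nat.mul_le_mul_left _ h3)
    exact_mod_cast this
  have hN0 : (0 : ℝ) < N := by
    have : 0 < N := by omega
    exact_mod_cast this
  have hw1 : (1 : ℝ) ≤ w := by exact_mod_cast hw
  have h5 : (N : ℝ) ^ (q * D) ≤ Real.exp (q * (c * d)) := by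
    rw [← Real.exp_log hN0, ← Real.exp_nat_mul]
    apply Real.exp_le_exp.2
    push_cast
    calc (q : ℝ) * D * Real.log N = q * (D * Real.log N) := by ring
      _ ≤ q * (c * d) := by gcongr
  have h6 : (w : ℝ) ^ E ≤ (w : ℝ) ^ (Real.log N ^ 2) := by
    rw [← Real.rpow_natCast]
    apply Real.rpow_le_rpow_of_exponent_le hw1
    rw [hE]
    push_cast
    exact he
  have hw2 : (0 : ℝ) ≤ (w : ℝ) ^ (Real.log N ^ 2) := by positivity
  have h7 : (2 : ℝ) ^ d ≤ Real.exp (q * (c * d)) * (2 * (w : ℝ) ^ (Real.log N ^ 2)) := by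
    calc (2 : ℝ) ^ d ≤ 2 * ((N : ℝ) ^ (q * D) * (w : ℝ) ^ E) := h4
      _ ≤ 2 * (Real.exp (q * (c * d)) * (w : ℝ) ^ (Real.log N ^ 2)) := by gcongr
      _ = _ := by ring
  have h8 : (2 : ℝ) ^ (c * d) * Real.exp (q * (c * d)) ≤ (2 : ℝ) ^ d := by
    rw [← Real.rpow_natCast 2 d, Real.rpow_def_of_pos (by norm_num : (0 : ℝ) < 2),
      Real.rpow_def_of_pos (by norm_num : (0 : ℝ) < 2), ← Real.exp_add]
    apply Real.exp_le_exp.2
    have hlog : (0.6 : ℝ) < Real.log 2 := by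
      have := Real.log_two_gt_d9; linarith
    have hlog2 : Real.log 2 < 0.7 := by
      have := Real.log_two_lt_d9; linarith
    have hd0 : (0 : ℝ) ≤ d := Nat.cast_nonneg d
    have hqc : (q : ℝ) * c ≤ 1 / 4 := by
      calc (q : ℝ) * c ≤ q * (1 / (4 * q)) := by gcongr
        _ = 1 / 4 := by field_simp
    have hc4 : c ≤ 1 / 4 := by
      calc c = 1 * c := by ring
        _ ≤ q * c := by gcongr
        _ ≤ 1 / 4 := hqc
    have h9 : Real.log 2 * c + q * c ≤ Real.log 2 := by nlinarith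
    nlinarith
  have h9 : Real.exp (q * (c * d)) * (2 : ℝ) ^ (c * d) ≤
      Real.exp (q * (c * d)) * (2 * (w : ℝ) ^ (Real.log N ^ 2)) := by
    calc _ = (2 : ℝ) ^ (c * d) * Real.exp (q * (c * d)) := by ring
      _ ≤ _ := h8.trans h7
  exact le_of_mul_le_mul_left h9 (Real.exp_pos _)

end Pool.Agent.ROA
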