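import Pool.Agent.ROA.Rank

/-!
# Module RES: the patterns which are hit
-/

set_option autoImplicit false

universe u

namespace Pool.Agent.ROA

open Finset

namespace RESM

variable {V : Type} [Fintype V] [DecidableEq V] {k m : ℕ}

lemma hit_place (pos : Role V k → Fin m) (hpos : Function.Injective pos) (b a : V → Fin k)
    (r : Role V k) (v : Bool) (q : Fin m) :
    Hit (place r v q) (full pos b a) ↔ q = pos r ∧ roleVal b a r = v := by
  have h0 : ∀ r : Role V k, full pos b a (Sum.inl (pos r)) = roleVal b a r := by
    intro r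
    show decide (∃ r', pos r' = pos r ∧ roleVal b a r' = true) = roleVal b a r
    rcases h : roleVal b a r with _ | _
    · rw [decide_eq_false_iff_not]
      rintro ⟨r', h1, h2⟩
      rw [hpos h1, h] at h2
      exact absurd h2 (by decide)
    · rw [decide_eq_true_iff]
      exact ⟨r, rfl, h⟩
  have h1 : ∀ i : Fin (m + 1), full pos b a (Sum.inr (r, i)) = decide (i ≤ (pos r).castSucc) :=
    fun i => rfl
  have h3 : Hit (place r v q) (full pos b a) ↔ full pos b a (Sum.inl q) = v ∧
      full pos b a (Sum.inr (r, q.castSucc)) = true ∧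
      full pos b a (Sum.inr (r, q.succ)) = false := by
    unfold Hit place
    simp only [Finset.mem_insert, Finset.mem_singleton, forall_eq_or_imp, forall_eq]
  rw [h3, h1, h1, decide_eq_true_iff, decide_eq_false_iff_not]
  constructor
  · rintro ⟨h4, h5, h6⟩
    have h7 : q = pos r := by
      rw [Fin.le_def] at h5 h6
      simp only [Fin.val_castSucc, Fin.val_succ] at h5 h6
      apply Fin.ext
      omega
    refine ⟨h7, ?_⟩
    rw [← h4, h7, h0]
  · rintro ⟨h4, h5⟩
    subst h4
    refine ⟨by rw [h0, h5], le_rfl, ?_⟩
    rw [Fin.le_def]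
    simp only [Fin.val_castSucc, Fin.val_succ]
    omega

lemma cond_iff (pr : V → Option (V × V)) (t : V) (o : Option V) (α : Fin 3 → Fin k)
    (b a : V → Fin k) :
    (∀ i j, roleVal b a (rp pr t o α i j).1 = (rp pr t o α i j).2) ↔ Cond pr t o α b a := by
  have key : ∀ i, (∀ j, roleVal b a (rp pr t o α i j).1 = (rp pr t o α i j).2) ↔
      a (bp pr t o i).1 = α i ∧ decide (b (bp pr t o i).1 = α i) = (bp pr t o i).2 := by
    intro i
    have e0 : rp pr t o α i 0 = (Sum.inl ((bp pr t o i).1, α i), (bp pr t o i).2) := rfl
    have e1 : rp pr t o α i 1 = (Sum.inr ((bp pr t o i).1, (α i).castSucc), true) := rfl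
    have e2 : rp pr t o α i 2 = (Sum.inr ((bp pr t o i).1, (α i).succ), false) := rfl
    have f0 : roleVal b a (Sum.inl ((bp pr t o i).1, α i)) =
        decide (α i = b (bp pr t o i).1) := rfl
    have f1 : roleVal b a (Sum.inr ((bp pr t o i).1, (α i).castSucc)) =
        decide ((α i).castSucc ≤ (a (bp pr t o i).1).castSucc) := rfl
    have f2 : roleVal b a (Sum.inr ((bp pr t o i).1, (α i).succ)) =
        decide ((α i).succ ≤ (a (bp pr t o i).1).castSucc) := rfl
    have f3 : decide (α i = b (bp pr t o i).1) = decide (b (bp pr t o i).1 = α i) :=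
      decide_eq_decide.2 eq_comm
    rw [Fin.forall_fin_succ, Fin.forall_fin_succ, Fin.forall_fin_succ]
    show (roleVal b a (rp pr t o α i 0).1 = (rp pr t o α i 0).2 ∧
      roleVal b a (rp pr t o α i 1).1 = (rp pr t o α i 1).2 ∧
      roleVal b a (rp pr t o α i 2).1 = (rp pr t o α i 2).2 ∧ _) ↔ _
    rw [e0, e1, e2]
    simp only [f0, f1, f2, f3, decide_eq_true_iff, decide_eq_false_iff_not, Fin.le_def,
      Fin.val_castSucc, Fin.val_succ, IsEmpty.forall_iff, and_true]
    constructor
    · rintro ⟨h1, h2, h3⟩
      exact ⟨Fin.ext (by omega), h1⟩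
    · rintro ⟨h1, h2⟩
      rw [h1]
      exact ⟨h2, le_rfl, by omega⟩
  unfold Cond
  exact forall_congr' key

end RESM

open RESM in
theorem RES_thm : S_RES := by
  intro V _ _ k m pr t pos hpos b a
  refine ⟨fun o α q => ?_, fun x => ?_⟩
  · rw [← cond_iff]
    have h1 : Hit (pat pr t (Sum.inl (o, α, q))) (full pos b a) ↔
        ∀ i j, Hit (place (rp pr t o α i j).1 (rp pr t o α i j).2 (q i j)) (full pos b a) := by
      unfold Hit pat
      simp only [Finset.mem_biUnion, Finset.mem_univ, true_and]
      constructor
      · intro h i j l hl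
        exact h l ⟨i, j, hl⟩
      · rintro h l ⟨i, j, hl⟩
        exact h i j l hl
    rw [h1]
    constructor
    · intro h
      exact ⟨fun i j => ((hit_place pos hpos b a _ _ _).1 (h i j)).1,
        fun i j => ((hit_place pos hpos b a _ _ _).1 (h i j)).2⟩
    · rintro ⟨h2, h3⟩ i j
      exact (hit_place pos hpos b a _ _ _).2 ⟨h2 i j, h3 i j⟩
  · rcases x with ⟨u, v, q⟩ | ⟨r, v⟩
    · intro h
      have h2 := ((hit_place pos hpos b a _ _ _).1 h).2
      cases v with
      | false =>
        have h3 : decide ((0 : Fin (k + 1)) ≤ (a u).castSucc) = false := h2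
        rw [decide_eq_false_iff_not] at h3
        exact h3 (Fin.zero_le _)
      | true =>
        have h3 : decide (Fin.last k ≤ (a u).castSucc) = true := h2
        rw [decide_eq_true_iff, Fin.le_def] at h3
        have := (a u).2
        simp only [Fin.val_last, Fin.val_castSucc] at h3
        omega
    · intro h
      have h2 := h (Sum.inr (r, if v then Fin.last m else 0), v) (Finset.mem_singleton_self _)
      cases v with
      | false =>
        have h3 : decide ((0 : Fin (m + 1)) ≤ (pos r).castSucc) = false := h2
        rw [decide_eq_false_iff_not] at h3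
        exact h3 (Fin.zero_le _)
      | true =>
        have h3 : decide (Fin.last m ≤ (pos r).castSucc) = true := h2
        rw [decide_eq_true_iff, Fin.le_def] at h3
        have := (pos r).2
        simp only [Fin.val_last, Fin.val_castSucc] at h3
        omega

end Pool.Agent.ROA
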