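import Pool.Agent.ROA.Rank
import Pool.Agent.ROA.Stmts2

/-!
# Module RES2: the patterns with slices which are hit
-/

set_option autoImplicit false

universe u

namespace Pool.Agent.ROA

open Finset

namespace RES2M

variable {V : Type} [DecidableEq V] {k m G : ℕ}

/-- The restriction of an assignment to a slice. -/
def restr (β : Var2 V k m G → Bool) (g : Fin G) : Var V k m → Bool
  | Sum.inl q => β (Sum.inl (g, q))
  | Sum.inr (r, i) => β (Sum.inr (Sum.inl (r, i)))

lemma hit_union (c c' : Finset (Var2 V k m G × Bool)) (β : Var2 V k m G → Bool) :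
    Hit (c ∪ c') β ↔ Hit c β ∧ Hit c' β := by
  unfold Hit
  constructor
  · intro h
    exact ⟨fun l hl => h l (Finset.mem_union_left _ hl),
      fun l hl => h l (Finset.mem_union_right _ hl)⟩
  · rintro ⟨h1, h2⟩ l hl
    rcases Finset.mem_union.1 hl with hl | hl
    · exact h1 l hl
    · exact h2 l hl

lemma hit_place2 (g : Fin G) (r : Role V k) (v : Bool) (q : Fin m)
    (β : Var2 V k m G → Bool) :
    Hit (place2 g r v q) β ↔ Hit (place r v q) (restr β g) := by
  unfold Hit place2 place
  simp only [Finset.mem_insert, Finset.mem_singleton, forall_eq_or_imp, forall_eq]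
  exact Iff.rfl

lemma hit_lifted (pr : V → Option (V × V)) (t : V) (o : Option V) (α : Fin 3 → Fin k)
    (g : Fin G) (q : Fin 3 → Fin 3 → Fin m) (β : Var2 V k m G → Bool) :
    Hit (pat2 pr t (Sum.inl (o, α, g, q))) β ↔
      Hit (slc g) β ∧ Hit (pat pr t (Sum.inl (o, α, q))) (restr β g) := by
  have h0 : pat2 pr t (Sum.inl (o, α, g, q)) = slc g ∪ univ.biUnion fun i : Fin 3 =>
      univ.biUnion fun j : Fin 3 =>
        place2 g (rp pr t o α i j).1 (rp pr t o α i j).2 (q i j) := rfl
  rw [h0, hit_union]
  refine and_congr_right fun _ => ?_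
  have h1 : Hit (pat pr t (Sum.inl (o, α, q))) (restr β g) ↔
      ∀ i j, Hit (place (rp pr t o α i j).1 (rp pr t o α i j).2 (q i j)) (restr β g) := by
    unfold Hit pat
    simp only [Finset.mem_biUnion, Finset.mem_univ, true_and]
    constructor
    · intro h i j l hl
      exact h l ⟨i, j, hl⟩
    · rintro h l ⟨i, j, hl⟩
      exact h i j l hl
  rw [h1]
  constructor
  · intro h i j
    rw [← hit_place2]
    intro l hl
    exact h l (Finset.mem_biUnion.2 ⟨i, Finset.mem_univ _,
      Finset.mem_biUnion.2 ⟨j, Finset.mem_univ _, hl⟩⟩)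
  · intro h l hl
    obtain ⟨i, _, hl⟩ := Finset.mem_biUnion.1 hl
    obtain ⟨j, _, hl⟩ := Finset.mem_biUnion.1 hl
    have h2 := h i j
    rw [← hit_place2] at h2
    exact h2 l hl

lemma hit_slc [Fintype V] (g g' : Fin G) (pos : Role V k → Fin m) (b a : V → Fin k) :
    Hit (slc g') (full2 g pos b a) ↔ g' = g := by
  have h1 : ∀ i : Fin (G + 1), full2 g pos b a (Sum.inr (Sum.inr i)) =
      decide (i ≤ g.castSucc) := fun i => rfl
  have h3 : Hit (slc g') (full2 g pos b a) ↔
      full2 g pos b a (Sum.inr (Sum.inr g'.castSucc)) = true ∧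
      full2 g pos b a (Sum.inr (Sum.inr g'.succ)) = false := by
    unfold Hit slc
    simp only [Finset.mem_insert, Finset.mem_singleton, forall_eq_or_imp, forall_eq]
  rw [h3, h1, h1, decide_eq_true_iff, decide_eq_false_iff_not, Fin.le_def, Fin.le_def]
  simp only [Fin.val_castSucc, Fin.val_succ]
  constructor
  · rintro ⟨h4, h5⟩
    apply Fin.ext
    omega
  · intro h4
    subst h4
    omega

lemma restr_full2 [Fintype V] (g : Fin G) (pos : Role V k → Fin m) (b a : V → Fin k) :
    restr (full2 g pos b a) g = full pos b a := by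
  funext x
  rcases x with q | ⟨r, i⟩
  · show decide (g = g ∧ ∃ r, pos r = q ∧ roleVal b a r = true) =
      decide (∃ r, pos r = q ∧ roleVal b a r = true)
    refine decide_eq_decide.2 ?_
    constructor
    · rintro ⟨_, h⟩
      exact h
    · intro h
      exact ⟨rfl, h⟩
  · rfl

end RES2M

open RES2M in
theorem RES2_thm (h1 : S_RES) : S_RES2 := by
  intro V _ _ k m G pr t g pos hpos b a
  obtain ⟨h2, h3⟩ := h1 V k m pr t pos hpos b a
  refine ⟨fun o α g' q => ?_, fun x => ?_⟩
  · rw [hit_lifted, hit_slc]
    refine and_congr_right fun hg => ?_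
    subst hg
    rw [restr_full2]
    exact h2 o α q
  · rcases x with ⟨u, v, g', q⟩ | ⟨r, v⟩ | v
    · intro h
      have h4 : Hit (slc g' ∪ place2 g' (Sum.inr (u, if v then Fin.last k else 0)) v q)
        (full2 g pos b a) := h
      rw [hit_union, hit_slc, hit_place2] at h4
      obtain ⟨hg, h5⟩ := h4
      subst hg
      rw [restr_full2] at h5
      exact h3 (Sum.inl (u, v, q)) h5
    · intro h
      refine h3 (Sum.inr (r, v)) fun l hl => ?_
      have hl' : l = (Sum.inr (r, if v then Fin.last m else 0), v) := Finset.mem_singleton.1 hl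
      subst hl'
      exact h (Sum.inr (Sum.inl (r, if v then Fin.last m else 0)), v)
        (Finset.mem_singleton_self _)
    · intro h
      have h2 := h (Sum.inr (Sum.inr (if v then Fin.last G else 0)), v)
        (Finset.mem_singleton_self _)
      cases v with
      | false =>
        have h3 : decide ((0 : Fin (G + 1)) ≤ g.castSucc) = false := h2
        rw [decide_eq_false_iff_not] at h3
        exact h3 (Fin.zero_le _)
      | true =>
        have h3 : decide (Fin.last G ≤ g.castSucc) = true := h2
        rw [decide_eq_true_iff, Fin.le_def] at h3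
        have := g.2
        simp only [Fin.val_last, Fin.val_castSucc] at h3
        omega

end Pool.Agent.ROA
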