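import Pool.Agent.ROA.Rank
import Pool.Agent.ROA.GStmts
import Pool.Agent.ROA.RES
import Pool.Agent.ROA.RES2

/-!
# Module GRES: the patterns of the lifted formula which are hit
-/

set_option autoImplicit false

universe u

namespace Pool.Agent.ROA

open Finset

namespace GRESM

variable {V : Type} [DecidableEq V] {k m g : ℕ}

omit [DecidableEq V] in
/-- The three roles of a literal have their values iff the conditions on `b` and `a` hold. -/
lemma grp_iff (l : V × Bool) (i : Fin k) (b a : V → Fin k) :
    (∀ j, roleVal b a (grp l i j).1 = (grp l i j).2) ↔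
      decide (b l.1 = i) = !l.2 ∧ a l.1 = i := by
  have e0 : grp l i 0 = (Sum.inl (l.1, i), !l.2) := rfl
  have e1 : grp l i 1 = (Sum.inr (l.1, i.castSucc), true) := rfl
  have e2 : grp l i 2 = (Sum.inr (l.1, i.succ), false) := rfl
  have f0 : roleVal b a (Sum.inl (l.1, i)) = decide (i = b l.1) := rfl
  have f1 : roleVal b a (Sum.inr (l.1, i.castSucc)) =
      decide (i.castSucc ≤ (a l.1).castSucc) := rfl
  have f2 : roleVal b a (Sum.inr (l.1, i.succ)) =
      decide (i.succ ≤ (a l.1).castSucc) := rfl
  have f3 : decide (i = b l.1) = decide (b l.1 = i) := decide_eq_decide.2 eq_comm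
  rw [Fin.forall_fin_succ, Fin.forall_fin_succ, Fin.forall_fin_succ]
  show (roleVal b a (grp l i 0).1 = (grp l i 0).2 ∧
    roleVal b a (grp l i 1).1 = (grp l i 1).2 ∧
    roleVal b a (grp l i 2).1 = (grp l i 2).2 ∧ _) ↔ _
  rw [e0, e1, e2]
  simp only [f0, f1, f2, f3, decide_eq_true_iff, decide_eq_false_iff_not, Fin.le_def,
    Fin.val_castSucc, Fin.val_succ, IsEmpty.forall_iff, and_true]
  constructor
  · rintro ⟨h1, h2, h3⟩
    exact ⟨h1, Fin.ext (by omega)⟩
  · rintro ⟨h1, h2⟩
    rw [h2]
    exact ⟨h1, le_rfl, by omega⟩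

/-- A pattern of the first kind is hit iff its slice and all its places are. -/
lemma hit_gpat {G : Finset (Finset (V × Bool))} (C : G) (α : C.1 → Fin k) (s' : Fin g)
    (q : C.1 → Fin 3 → Fin m) (β : Var2 V k m g → Bool) :
    Hit (gpat (Sum.inl ⟨C, α, s', q⟩ : GIdx V k m g G)) β ↔
      Hit (slc s') β ∧ ∀ (l : C.1) (j : Fin 3),
        Hit (place (grp l.1 (α l) j).1 (grp l.1 (α l) j).2 (q l j)) (RES2M.restr β s') := by
  have h0 : gpat (Sum.inl ⟨C, α, s', q⟩ : GIdx V k m g G) =
      slc s' ∪ univ.biUnion fun l : C.1 => univ.biUnion fun j : Fin 3 =>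
        place2 s' (grp l.1 (α l) j).1 (grp l.1 (α l) j).2 (q l j) := rfl
  rw [h0, RES2M.hit_union]
  refine and_congr_right fun _ => ?_
  constructor
  · intro h l j
    rw [← RES2M.hit_place2]
    intro x hx
    exact h x (Finset.mem_biUnion.2 ⟨l, Finset.mem_univ _,
      Finset.mem_biUnion.2 ⟨j, Finset.mem_univ _, hx⟩⟩)
  · intro h x hx
    obtain ⟨l, _, hx⟩ := Finset.mem_biUnion.1 hx
    obtain ⟨j, _, hx⟩ := Finset.mem_biUnion.1 hx
    have h2 := h l j
    rw [← RES2M.hit_place2] at h2
    exact h2 x hx

end GRESM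

open GRESM in
theorem GRES_thm : S_GRES := by
  intro V _ _ k m g G s pos hpos b a
  refine ⟨fun C α s' q => ?_, fun x => ?_⟩
  · rw [hit_gpat, RES2M.hit_slc]
    refine and_congr_right fun hs => ?_
    subst hs
    rw [RES2M.restr_full2]
    constructor
    · intro h
      have h1 : ∀ l : C.1, decide (b l.1.1 = α l) = (!l.1.2) ∧ a l.1.1 = α l := fun l =>
        (grp_iff l.1 (α l) b a).1 fun j => ((RESM.hit_place pos hpos b a _ _ _).1 (h l j)).2
      exact ⟨fun l j => ((RESM.hit_place pos hpos b a _ _ _).1 (h l j)).1,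
        fun l => (h1 l).1, fun l => (h1 l).2⟩
    · rintro ⟨h1, h2, h3⟩ l j
      exact (RESM.hit_place pos hpos b a _ _ _).2
        ⟨h1 l j, (grp_iff l.1 (α l) b a).2 ⟨h2 l, h3 l⟩ j⟩
  · rcases x with ⟨u, v, g', q⟩ | ⟨r, v⟩ | v
    · intro h
      have h4 : Hit (slc g' ∪ place2 g' (Sum.inr (u, if v then Fin.last k else 0)) v q)
        (full2 s pos b a) := h
      rw [RES2M.hit_union, RES2M.hit_slc, RES2M.hit_place2] at h4
      obtain ⟨hg, h5⟩ := h4
      subst hg
      rw [RES2M.restr_full2] at h5
      have h2 := ((RESM.hit_place pos hpos b a _ _ _).1 h5).2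
      cases v with
      | false =>
        have h3 : decide ((0 : Fin (k + 1)) ≤ (a u).castSucc) = false := h2
        rw [decide_eq_false_iff_not] at h3
        exact h3 (Fin.zero_le _)
      | true =>
        have h3 : decide (Fin.last k ≤ (a u).castSucc) = true := h2
        rw [decide_eq_true_iff, Fin.le_def] at h3
        have := (a u).2
        simp only [Fin.val_last, Fin.val_castSucc] at h3
        omega
    · intro h
      have h2 := h (Sum.inr (Sum.inl (r, if v then Fin.last m else 0)), v)
        (Finset.mem_singleton_self _)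
      cases v with
      | false =>
        have h3 : decide ((0 : Fin (m + 1)) ≤ (pos r).castSucc) = false := h2
        rw [decide_eq_false_iff_not] at h3
        exact h3 (Fin.zero_le _)
      | true =>
        have h3 : decide (Fin.last m ≤ (pos r).castSucc) = true := h2
        rw [decide_eq_true_iff, Fin.le_def] at h3
        have := (pos r).2
        simp only [Fin.val_last, Fin.val_castSucc] at h3
        omega
    · intro h
      have h2 := h (Sum.inr (Sum.inr (if v then Fin.last g else 0)), v)
        (Finset.mem_singleton_self _)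
      cases v with
      | false =>
        have h3 : decide ((0 : Fin (g + 1)) ≤ s.castSucc) = false := h2
        rw [decide_eq_false_iff_not] at h3
        exact h3 (Fin.zero_le _)
      | true =>
        have h3 : decide (Fin.last g ≤ s.castSucc) = true := h2
        rw [decide_eq_true_iff, Fin.le_def] at h3
        have := s.2
        simp only [Fin.val_last, Fin.val_castSucc] at h3
        omega

end Pool.Agent.ROA
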