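import Pool.Agent.ROA.Rank

/-!
# Every assignment hits a pattern
-/

set_option autoImplicit false

namespace Pool.Agent.ROA

open Finset

namespace UNSM

/-- A chain of bits from `true` to `false` has a step. -/
lemma step : ∀ (m : ℕ) (f : Fin (m + 1) → Bool), f 0 = true → f (Fin.last m) = false →
    ∃ q : Fin m, f q.castSucc = true ∧ f q.succ = false := by
  intro m
  induction m with
  | zero =>
    intro f h0 h1
    have : (Fin.last 0 : Fin 1) = 0 := rfl
    rw [this, h0] at h1
    exact absurd h1 (by decide)
  | succ m ih =>
    intro f h0 h1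
    by_cases h : f (Fin.last m).castSucc = true
    · exact ⟨Fin.last m, h, by rw [Fin.succ_last]; exact h1⟩
    · have h' : f (Fin.last m).castSucc = false := by
        cases hb : f (Fin.last m).castSucc
        · rfl
        · exact absurd hb h
      obtain ⟨q, hq1, hq2⟩ := ih (fun i => f i.castSucc) (by simpa using h0) h'
      refine ⟨q.castSucc, hq1, ?_⟩
      rw [← Fin.castSucc_succ]
      exact hq2

end UNSM

open UNSM in
theorem UNS_thm : S_UNS := by
  intro V _ _ k m pr t lev hlev β
  by_contra hcon
  have hno : ∀ x, ¬ Hit (pat pr t x) β := fun x hx => hcon ⟨x, hx⟩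
  -- the positions of the roles
  have hpos : ∀ r : Role V k, ∃ q : Fin m, β (Sum.inr (r, q.castSucc)) = true ∧
      β (Sum.inr (r, q.succ)) = false := by
    intro r
    refine step m (fun i => β (Sum.inr (r, i))) ?_ ?_
    · have h := hno (Sum.inr (Sum.inr (r, false)))
      by_contra h1
      apply h
      intro l hl
      have hl' : l = (Sum.inr (r, 0), false) := by
        simpa [pat] using hl
      rw [hl']
      simpa using h1
    · have h := hno (Sum.inr (Sum.inr (r, true)))
      by_contra h1
      apply h
      intro l hl
      have hl' : l = (Sum.inr (r, Fin.last m), true) := by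
        simpa [pat] using hl
      rw [hl']
      simpa using h1
  choose P hP1 hP2 using hpos
  have hplace : ∀ (r : Role V k) (v : Bool), β (Sum.inl (P r)) = v → Hit (place r v (P r)) β := by
    intro r v hv l hl
    have hl' : l = (Sum.inl (P r), v) ∨ l = (Sum.inr (r, (P r).castSucc), true) ∨
        l = (Sum.inr (r, (P r).succ), false) := by
      simpa [place] using hl
    rcases hl' with h | h | h
    · rw [h]; exact hv
    · rw [h]; exact hP1 r
    · rw [h]; exact hP2 r
  -- the cells
  have hcell : ∀ u : V, ∃ c : Fin k, β (Sum.inl (P (Sum.inr (u, c.castSucc)))) = true ∧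
      β (Sum.inl (P (Sum.inr (u, c.succ)))) = false := by
    intro u
    refine step k (fun i => β (Sum.inl (P (Sum.inr (u, i))))) ?_ ?_
    · by_contra h1
      refine hno (Sum.inr (Sum.inl (u, false, P (Sum.inr (u, 0))))) ?_
      have h2 := hplace (Sum.inr (u, 0)) false (by simpa using h1)
      simpa [pat] using h2
    · by_contra h1
      refine hno (Sum.inr (Sum.inl (u, true, P (Sum.inr (u, Fin.last k))))) ?_
      have h2 := hplace (Sum.inr (u, Fin.last k)) true (by simpa using h1)
      simpa [pat] using h2
  choose c hc1 hc2 using hcell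
  have hbp : ∀ o : Option V, ∃ i : Fin 3,
      β (Sum.inl (P (Sum.inl ((bp pr t o i).1, c (bp pr t o i).1)))) ≠ (bp pr t o i).2 := by
    intro o
    by_contra h
    have h' : ∀ i : Fin 3,
        β (Sum.inl (P (Sum.inl ((bp pr t o i).1, c (bp pr t o i).1)))) = (bp pr t o i).2 := by
      intro i
      by_contra hi
      exact h ⟨i, hi⟩
    refine hno (Sum.inl (o, fun i => c (bp pr t o i).1,
      fun i j => P (rp pr t o (fun i => c (bp pr t o i).1) i j).1)) ?_
    intro l hl
    rw [pat, mem_biUnion] at hl
    obtain ⟨i, -, hl⟩ := hl
    rw [mem_biUnion] at hl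
    obtain ⟨j, -, hl⟩ := hl
    refine hplace _ _ ?_ l hl
    fin_cases j
    · exact h' i
    · exact hc1 _
    · exact hc2 _
  have hall : ∀ n : ℕ, ∀ u : V, lev u = n → β (Sum.inl (P (Sum.inl (u, c u)))) = true := by
    intro n
    induction n using Nat.strong_induction_on with
    | _ n ih =>
      intro u hu
      obtain ⟨i, hi⟩ := hbp (some u)
      cases hq : pr u with
      | none =>
        simp only [bp, hq] at hi
        simpa using hi
      | some q =>
        obtain ⟨hl1, hl2⟩ := hlev u q hq
        have h1 := ih (lev q.1) (by omega) q.1 rfl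
        have h2 := ih (lev q.2) (by omega) q.2 rfl
        simp only [bp, hq] at hi
        fin_cases i
        · exact absurd h1 hi
        · exact absurd h2 hi
        · have h3 : β (Sum.inl (P (Sum.inl (u, c u)))) ≠ false := hi
          simpa using h3
  obtain ⟨i, hi⟩ := hbp none
  exact hi (hall _ t rfl)

end Pool.Agent.ROA
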