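import Pool.Agent.ROA.Rank
import Pool.Agent.ROA.GStmts
import Pool.Agent.ROA.UNS

/-!
# Every assignment of the lifted formula hits a pattern: module GUNS
-/

set_option autoImplicit false

namespace Pool.Agent.ROA

open Finset

namespace GUNSM

lemma hit_union {W : Type} [DecidableEq W] (s t : Finset (W × Bool)) (β : W → Bool) (hs : Hit s β)
    (ht : Hit t β) : Hit (s ∪ t) β := by
  intro l hl
  rcases Finset.mem_union.1 hl with h | h
  · exact hs l h
  · exact ht l h

end GUNSM

open GUNSM in
theorem GUNS_thm : S_GUNS := by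
  intro V _ _ k m g G hG β
  by_contra hcon
  have hno : ∀ x : GIdx V k m g G, ¬ Hit (gpat x) β := fun x hx => hcon ⟨x, hx⟩
  -- the slice
  obtain ⟨s, hs1, hs2⟩ : ∃ s : Fin g, β (Sum.inr (Sum.inr s.castSucc)) = true ∧
      β (Sum.inr (Sum.inr s.succ)) = false := by
    refine UNSM.step g (fun i => β (Sum.inr (Sum.inr i))) ?_ ?_
    · by_contra h1
      refine hno (Sum.inr (Sum.inr (Sum.inr false))) ?_
      intro l hl
      have hl' : l = (Sum.inr (Sum.inr 0), false) := by
        simpa [gpat] using hl
      rw [hl']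
      simpa using h1
    · by_contra h1
      refine hno (Sum.inr (Sum.inr (Sum.inr true))) ?_
      intro l hl
      have hl' : l = (Sum.inr (Sum.inr (Fin.last g)), true) := by
        simpa [gpat] using hl
      rw [hl']
      simpa using h1
  have hslc : Hit (slc s : Finset (Var2 V k m g × Bool)) β := by
    intro l hl
    have hl' : l = (Sum.inr (Sum.inr s.castSucc), true) ∨
        l = (Sum.inr (Sum.inr s.succ), false) := by
      simpa [slc] using hl
    rcases hl' with e | e
    · rw [e]; exact hs1
    · rw [e]; exact hs2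
  -- the positions of the roles
  have hpos : ∀ r : Role V k, ∃ q : Fin m, β (Sum.inr (Sum.inl (r, q.castSucc))) = true ∧
      β (Sum.inr (Sum.inl (r, q.succ))) = false := by
    intro r
    refine UNSM.step m (fun i => β (Sum.inr (Sum.inl (r, i)))) ?_ ?_
    · by_contra h1
      refine hno (Sum.inr (Sum.inr (Sum.inl (r, false)))) ?_
      intro l hl
      have hl' : l = (Sum.inr (Sum.inl (r, 0)), false) := by
        simpa [gpat] using hl
      rw [hl']
      simpa using h1
    · by_contra h1
      refine hno (Sum.inr (Sum.inr (Sum.inl (r, true)))) ?_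
      intro l hl
      have hl' : l = (Sum.inr (Sum.inl (r, Fin.last m)), true) := by
        simpa [gpat] using hl
      rw [hl']
      simpa using h1
  choose P hP1 hP2 using hpos
  have hplace : ∀ (r : Role V k) (v : Bool), β (Sum.inl (s, P r)) = v →
      Hit (place2 s r v (P r)) β := by
    intro r v hv l hl
    have hl' : l = (Sum.inl (s, P r), v) ∨ l = (Sum.inr (Sum.inl (r, (P r).castSucc)), true) ∨
        l = (Sum.inr (Sum.inl (r, (P r).succ)), false) := by
      simpa [place2] using hl
    rcases hl' with h | h | h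
    · rw [h]; exact hv
    · rw [h]; exact hP1 r
    · rw [h]; exact hP2 r
  -- the cells
  have hcell : ∀ u : V, ∃ c : Fin k, β (Sum.inl (s, P (Sum.inr (u, c.castSucc)))) = true ∧
      β (Sum.inl (s, P (Sum.inr (u, c.succ)))) = false := by
    intro u
    refine UNSM.step k (fun i => β (Sum.inl (s, P (Sum.inr (u, i))))) ?_ ?_
    · by_contra h1
      refine hno (Sum.inr (Sum.inl (u, false, s, P (Sum.inr (u, 0))))) ?_
      have h2 := hplace (Sum.inr (u, 0)) false (by simpa using h1)
      exact hit_union _ _ _ hslc (by simpa using h2)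
    · by_contra h1
      refine hno (Sum.inr (Sum.inl (u, true, s, P (Sum.inr (u, Fin.last k))))) ?_
      have h2 := hplace (Sum.inr (u, Fin.last k)) true (by simpa using h1)
      exact hit_union _ _ _ hslc (by simpa using h2)
  choose c hc1 hc2 using hcell
  obtain ⟨C, hC, hf⟩ := hG fun x => β (Sum.inl (s, P (Sum.inl (x, c x))))
  refine hno (Sum.inl ⟨⟨C, hC⟩, fun l => c l.1.1, s,
    fun l j => P (grp l.1 (c l.1.1) j).1⟩) ?_
  refine hit_union _ _ _ hslc ?_
  intro l hl
  rw [mem_biUnion] at hl
  obtain ⟨i, -, hl⟩ := hl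
  rw [mem_biUnion] at hl
  obtain ⟨j, -, hl⟩ := hl
  refine hplace _ _ ?_ l hl
  have hi := hf i.1 i.2
  fin_cases j
  · have h3 : β (Sum.inl (s, P (Sum.inl (i.1.1, c i.1.1)))) ≠ i.1.2 := hi
    have h4 : β (Sum.inl (s, P (Sum.inl (i.1.1, c i.1.1)))) = !i.1.2 := by
      cases h5 : β (Sum.inl (s, P (Sum.inl (i.1.1, c i.1.1)))) <;> cases h6 : i.1.2 <;>
        simp_all
    exact h4
  · exact hc1 _
  · exact hc2 _

end Pool.Agent.ROA
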