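import Pool.Agent.ROA.Rank
import Pool.Agent.ROA.GStmts

/-!
# The rank of the lifted function on the places where a clause is false (general CNF)
-/

set_option autoImplicit false

universe u

namespace Pool.Agent.ROA

open Finset

namespace GUPRM

theorem rank_sum {K : Type u} [Field K] {X Y : Type} {ι : Type} (s : Finset ι) (w : ι → ℕ)
    {M : ι → X → Y → K} (hM : ∀ i ∈ s, RankLE (w i) (M i)) :
    RankLE (∑ i ∈ s, w i) (fun x y => ∑ i ∈ s, M i x y) := by
  classical
  induction s using Finset.induction_on with
  | empty => exact (RankLE.zero _).congr fun _ _ => by simp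
  | insert i s hi ih =>
    have h1 := (hM i (Finset.mem_insert_self i s)).add
      (ih fun j hj => hM j (Finset.mem_insert_of_mem hj))
    rw [Finset.sum_insert hi]
    exact h1.congr fun x y => by rw [Finset.sum_insert hi]

theorem rank_prod (K : Type u) [Field K] (V : Type) [Fintype V] [DecidableEq V] (k : ℕ)
    (T : Finset V) :
    RankLE (k ^ T.card) fun b a : V → Fin k => ∏ x ∈ T, (if a x = b x then (1 : K) else 0) := by
  refine RankLE.of_fintype (T → Fin k) (by simp)
    (fun b c => if (fun x : T => b x) = c then (1 : K) else 0)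
    (fun a c => ∏ x : T, (if a x = c x then (1 : K) else 0)) fun b a => ?_
  rw [Finset.sum_eq_single (fun x : T => b x)]
  · rw [if_pos rfl, one_mul]
    exact (Finset.prod_coe_sort T fun x => (if a x = b x then (1 : K) else 0)).symm
  · intro c _ hc
    rw [if_neg (Ne.symm hc), zero_mul]
  · intro h
    exact absurd (Finset.mem_univ _) h

theorem count (V : Type) [Fintype V] [DecidableEq V] (W : Finset V) (n k : ℕ)
    (hn : n ≤ Fintype.card V) :
    ∑ S ∈ W.powerset, (if S.card < n then k ^ S.card else 0) ≤
      ∑ j ∈ range n, (Fintype.card V).choose j * k ^ j := by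
  calc ∑ S ∈ W.powerset, (if S.card < n then k ^ S.card else 0)
      ≤ ∑ S ∈ (univ : Finset V).powerset, (if S.card < n then k ^ S.card else 0) :=
        Finset.sum_le_sum_of_subset (Finset.powerset_mono.2 (Finset.subset_univ W))
    _ = ∑ m ∈ range ((univ : Finset V).card + 1),
          (univ : Finset V).card.choose m • (if m < n then k ^ m else 0) :=
        Finset.sum_powerset_apply_card (fun m => if m < n then k ^ m else 0)
    _ = ∑ j ∈ range n, (Fintype.card V).choose j * k ^ j := by
        rw [Finset.card_univ]
        rw [← Finset.sum_subset (Finset.range_mono (Nat.le_succ_of_le hn))]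
        · refine Finset.sum_congr rfl fun j hj => ?_
          rw [if_pos (Finset.mem_range.1 hj), smul_eq_mul]
        · intro j _ hj
          rw [Finset.mem_range] at hj
          rw [if_neg hj, smul_zero]

end GUPRM

open GUPRM in
theorem GUPR_thm (h1 : S_GEXP.{u}) : S_GUPR.{u} := by
  intro K _ V _ _ G d k e hE c hc α
  classical
  by_cases hex : ∃ b a : V → Fin k, CondB c α b ∧ CondA c α a
  · obtain ⟨b₀, a₀, hb₀, ha₀⟩ := hex
    let W : Finset V := univ.filter fun x => ∀ l ∈ c, l.1 ≠ x
    have hW : ∀ x, x ∈ W ↔ ∀ l ∈ c, l.1 ≠ x := fun x => by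
      simp only [W, Finset.mem_filter, Finset.mem_univ, true_and]
    have hz : ∀ b a : V → Fin k, CondB c α b → CondA c α a → ∀ l ∈ c,
        decide (a l.1 = b l.1) = !l.2 := by
      intro b a hb ha l hl
      have h2 := hb ⟨l, hl⟩
      have h3 := ha ⟨l, hl⟩
      simp only at h2 h3
      rw [← h2, h3]
      exact decide_eq_decide.2 eq_comm
    have hF : ∀ b a : V → Fin k, CondB c α b → CondA c α a →
        IsFalse c (fun x => decide (a x = b x)) := by
      intro b a hb ha l hl
      change decide (a l.1 = b l.1) ≠ l.2
      rw [hz b a hb ha l hl]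
      cases l.2 <;> simp
    have hcard : W.card + c.card = Fintype.card V := by
      have h2 : (c.image Prod.fst).card = c.card := by
        refine Finset.card_image_of_injOn ?_
        intro l hl l' hl' hll
        have h3 := hz b₀ a₀ hb₀ ha₀ l hl
        have h4 := hz b₀ a₀ hb₀ ha₀ l' hl'
        have hll' : l.1 = l'.1 := hll
        rw [hll'] at h3
        refine Prod.ext hll' ?_
        have h5 : (!l.2) = !l'.2 := h3.symm.trans h4
        simpa using h5
      have h3 : c.image Prod.fst = Wᶜ := by
        ext x
        rw [Finset.mem_image, Finset.mem_compl, hW]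
        push Not
        rfl
      rw [← h2, h3, Finset.card_add_card_compl]
    let C : Finset V → K := fun S => (-1) ^ (W.card - S.card) *
      ∑ y, if IsFalse c y ∧ ∀ x ∈ W \ S, y x = false then e y else 0
    have hC : ∀ S ∈ W.powerset, ¬ S.card < Fintype.card V - d → C S = 0 := by
      intro S hS hSd
      have hSW := Finset.mem_powerset.1 hS
      have h2 := hE.orth c hc (W \ S) (by
        rw [Finset.card_sdiff_of_subset hSW]
        have := Finset.card_le_card hSW
        omega)
      change (-1) ^ (W.card - S.card) * _ = (0 : K)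
      rw [h2, mul_zero]
    let s0 : K := ∏ x ∈ Wᶜ, if a₀ x = b₀ x then (1 : K) else -1
    have hs : ∀ b a : V → Fin k, CondB c α b → CondA c α a →
        (∏ x ∈ Wᶜ, if a x = b x then (1 : K) else -1) = s0 := by
      intro b a hb ha
      refine Finset.prod_congr rfl fun x hx => ?_
      rw [Finset.mem_compl, hW] at hx
      push Not at hx
      obtain ⟨l, hl, rfl⟩ := hx
      have h3 := hz b a hb ha l hl
      have h4 := hz b₀ a₀ hb₀ ha₀ l hl
      have h5 : (a l.1 = b l.1) ↔ (a₀ l.1 = b₀ l.1) :=
        decide_eq_decide.1 (h3.trans h4.symm)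
      by_cases h6 : a l.1 = b l.1
      · rw [if_pos h6, if_pos (h5.1 h6)]
      · rw [if_neg h6, if_neg fun h7 => h6 (h5.2 h7)]
    have key : ∀ b a : V → Fin k, CondB c α b → CondA c α a → gmat k e b a =
        s0 * ∑ S ∈ W.powerset, (if S.card < Fintype.card V - d then
          C S * ∏ x ∈ S, (if a x = b x then (1 : K) else 0) else 0) := by
      intro b a hb ha
      unfold gmat
      rw [← Finset.prod_compl_mul_prod W, hs b a hb ha, mul_assoc]
      congr 1
      have h2 := h1 K V c e (fun x => decide (a x = b x)) W hW (hF b a hb ha)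
      simp only [decide_eq_true_eq] at h2
      rw [h2]
      refine Finset.sum_congr rfl fun S hS => ?_
      by_cases h3 : S.card < Fintype.card V - d
      · rw [if_pos h3, mul_comm]
      · rw [if_neg h3]
        have h4 := hC S hS h3
        change _ * C S = 0
        rw [h4, mul_zero]
    have hR : RankLE (∑ j ∈ range (Fintype.card V - d), (Fintype.card V).choose j * k ^ j)
        (fun b a : V → Fin k => ∑ S ∈ W.powerset, (if S.card < Fintype.card V - d then
          C S * ∏ x ∈ S, (if a x = b x then (1 : K) else 0) else 0)) := by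
      refine (rank_sum W.powerset (fun S => if S.card < Fintype.card V - d then k ^ S.card else 0)
        fun S _ => ?_).mono (count V W _ k (Nat.sub_le _ _))
      by_cases h3 : S.card < Fintype.card V - d
      · simp only [if_pos h3]
        exact (rank_prod K V k S).smul (C S)
      · simp only [if_neg h3]
        exact RankLE.zero 0
    refine ((hR.smul s0).scale (fun b => if CondB c α b then (1 : K) else 0)
      (fun a => if CondA c α a then (1 : K) else 0)).congr fun b a => ?_
    by_cases hb : CondB c α b
    · by_cases ha : CondA c α a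
      · rw [if_pos ⟨hb, ha⟩, if_pos hb, if_pos ha, one_mul, one_mul, key b a hb ha]
      · rw [if_neg fun h => ha h.2, if_neg ha, mul_zero, zero_mul]
    · rw [if_neg fun h => hb h.1, if_neg hb, zero_mul, zero_mul]
  · refine (RankLE.zero _).congr fun b a => ?_
    rw [if_neg fun h => hex ⟨b, a, h⟩]

end Pool.Agent.ROA
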