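import Pool.Agent.ROA.Rank

/-!
# The rank of the lifted function
-/

set_option autoImplicit false

universe u

namespace Pool.Agent.ROA

open Finset

theorem LOW_thm : S_LOW.{u} := by
  intro K _ V _ _ k w r hk hr hM
  obtain ⟨k, rfl⟩ : ∃ k', k = k' + 1 := ⟨k - 1, by omega⟩
  rw [Nat.add_sub_cancel]
  -- rows and the right factor
  have h1 := (hM.comp (fun b : V → Fin k => fun x => (b x).castSucc)
    (fun a : V → Fin (k + 1) => a)).mulRight
      (fun (a : V → Fin (k + 1)) (a' : V → Fin k) =>
        ∏ x, ((if a x = (a' x).castSucc then (1 : K) else 0) -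
          if a x = Fin.last k then 1 else 0))
  have h2 : RankLE w fun b a' : V → Fin k => if b = a' then (1 : K) else 0 := by
    refine h1.congr fun b a' => ?_
    unfold mat phi
    simp_rw [Finset.sum_mul]
    rw [Finset.sum_comm]
    have h3 : ∀ U : Finset V, (∑ a : V → Fin (k + 1),
        (r U * ∏ x ∈ Uᶜ, ((if a x = (b x).castSucc then (1 : K) else 0) - 1)) *
          ∏ x, ((if a x = (a' x).castSucc then (1 : K) else 0) -
            if a x = Fin.last k then 1 else 0)) =
        r U * ∏ x, if x ∈ U then 0 else if b x = a' x then (1 : K) else 0 := by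
      intro U
      have h4 : ∀ a : V → Fin (k + 1),
          (r U * ∏ x ∈ Uᶜ, ((if a x = (b x).castSucc then (1 : K) else 0) - 1)) *
          ∏ x, ((if a x = (a' x).castSucc then (1 : K) else 0) -
            if a x = Fin.last k then 1 else 0) =
          r U * ∏ x, ((if x ∈ U then 1 else (if a x = (b x).castSucc then (1 : K) else 0) - 1) *
            ((if a x = (a' x).castSucc then (1 : K) else 0) -
            if a x = Fin.last k then 1 else 0)) := by
        intro a
        rw [Finset.prod_mul_distrib, ← mul_assoc]
        congr 2
        rw [← Finset.prod_subset (Finset.subset_univ Uᶜ) (f := fun x => if x ∈ U then (1 : K)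
          else (if a x = (b x).castSucc then (1 : K) else 0) - 1) (fun x _ hx =>
            if_pos (by simpa using hx))]
        exact Finset.prod_congr rfl fun x hx => by rw [if_neg (Finset.mem_compl.1 hx)]
      rw [Finset.sum_congr rfl fun a _ => h4 a, ← Finset.mul_sum]
      congr 1
      rw [← Fintype.piFinset_univ, ← Finset.prod_univ_sum (fun _ => univ)
        (fun x (y : Fin (k + 1)) =>
          (if x ∈ U then 1 else (if y = (b x).castSucc then (1 : K) else 0) - 1) *
            ((if y = (a' x).castSucc then (1 : K) else 0) - if y = Fin.last k then 1 else 0))]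
      refine Finset.prod_congr rfl fun x _ => ?_
      have hne : (b x).castSucc ≠ Fin.last k := (Fin.castSucc_lt_last _).ne
      by_cases hx : x ∈ U
      · simp only [if_pos hx, one_mul, Finset.sum_sub_distrib, Finset.sum_ite_eq', mem_univ,
          if_true, sub_self]
      · simp only [if_neg hx, mul_sub, Finset.sum_sub_distrib, mul_ite, mul_one, mul_zero,
          Finset.sum_ite_eq', mem_univ, if_true]
        rw [if_neg hne.symm]
        by_cases hba : b x = a' x
        · rw [if_pos (by rw [hba]), if_pos hba]
          ring
        · rw [if_neg (fun h => hba (Fin.castSucc_injective _ h).symm), if_neg hba]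
          ring
    rw [Finset.sum_congr rfl fun U _ => h3 U]
    rw [Finset.sum_eq_single ∅]
    · rw [hr, one_mul]
      simp only [Finset.notMem_empty, if_false]
      by_cases hba : b = a'
      · rw [if_pos hba, Finset.prod_congr rfl (g := fun _ => (1 : K)) (fun x _ => by
          rw [if_pos (congrFun hba x)]), Finset.prod_const_one]
      · rw [if_neg hba]
        obtain ⟨x, hx⟩ := Function.ne_iff.1 hba
        exact (Finset.prod_eq_zero (f := fun x => if b x = a' x then (1 : K) else 0)
          (Finset.mem_univ x) (if_neg hx)).symm
    · intro U _ hU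
      obtain ⟨x, hx⟩ := Finset.nonempty_iff_ne_empty.2 hU
      rw [Finset.prod_eq_zero (f := fun x => if x ∈ U then 0 else if b x = a' x then (1 : K) else 0)
        (Finset.mem_univ x) (if_pos hx), mul_zero]
    · intro h
      exact absurd (Finset.mem_univ _) h
  have h6 := h2.card_le
  rwa [Fintype.card_fun, Fintype.card_fin] at h6

end Pool.Agent.ROA
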