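import Pool.Agent.ROA.Rank

/-!
# Module NMA: an inequality of numbers (Bernoulli)
-/

set_option autoImplicit false

namespace Pool.Agent.ROA

namespace NMAM

lemma bern (n : ℕ) (hn : 0 < n) : (2 * n) ^ n ≤ 2 * (2 * n - 1) ^ n := by
  have hn' : (0 : ℝ) < n := by exact_mod_cast hn
  have h0 : (0 : ℝ) < 2 * n := by linarith
  have h1 := one_add_mul_le_pow (a := -(1 / (2 * (n : ℝ)))) (by
    have h2 : 1 / (2 * (n : ℝ)) ≤ 1 := by
      rw [div_le_one h0]
      have : (1 : ℝ) ≤ n := by exact_mod_cast hn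
      linarith
    linarith) n
  have h3 : (n : ℝ) * -(1 / (2 * (n : ℝ))) = -(1 / 2) := by field_simp
  have h4 : (1 : ℝ) + -(1 / (2 * (n : ℝ))) = (2 * n - 1) / (2 * n) := by field_simp; ring
  rw [h3, h4, div_pow, le_div_iff₀ (by positivity)] at h1
  have h5 : ((2 * n - 1 : ℕ) : ℝ) = 2 * n - 1 := by
    rw [Nat.cast_sub (by omega)]
    push_cast
    ring
  have h6 : (((2 * n) ^ n : ℕ) : ℝ) ≤ ((2 * (2 * n - 1) ^ n : ℕ) : ℝ) := by
    rw [Nat.cast_mul, Nat.cast_pow, Nat.cast_pow, h5]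
    push_cast
    linarith
  exact_mod_cast h6

lemma choose_le (n h : ℕ) : n.choose h ≤ n ^ h :=
  (Nat.choose_le_descFactorial n h).trans (Nat.descFactorial_le_pow n h)

end NMAM

open NMAM in
theorem NMA_thm : S_NMA := by
  intro n h A hn hA
  have hn0 : 0 < n := by omega
  have hX : 0 < n.choose h * (2 * n) ^ (n - h - 1) :=
    Nat.mul_pos (Nat.choose_pos (by omega)) (by positivity)
  have h1 := (Nat.mul_lt_mul_right hX).2 hA
  refine lt_of_lt_of_le h1 ?_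
  obtain ⟨j, rfl⟩ : ∃ j, n = h + 1 + j := ⟨n - (h + 1), by omega⟩
  have h2 : h + 1 + j - h - 1 = j := by omega
  rw [h2]
  have h3 := choose_le (h + 1 + j) h
  have h4 := bern (h + 1 + j) hn0
  have h5 : 2 * (2 ^ h * (h + 1 + j) * ((h + 1 + j).choose h * (2 * (h + 1 + j)) ^ j)) ≤
      (2 * (h + 1 + j)) ^ (h + 1 + j) := by
    calc 2 * (2 ^ h * (h + 1 + j) * ((h + 1 + j).choose h * (2 * (h + 1 + j)) ^ j))
        ≤ 2 * (2 ^ h * (h + 1 + j) * ((h + 1 + j) ^ h * (2 * (h + 1 + j)) ^ j)) := by gcongr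
      _ = (2 * (h + 1 + j)) ^ (h + 1 + j) := by
        rw [pow_add (2 * (h + 1 + j)) (h + 1) j, pow_succ, mul_pow 2 (h + 1 + j) h]
        ring
  omega

end Pool.Agent.ROA
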