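import Pool.Agent.ROA.Rank

/-!
# Module NMB: the choice of the height
-/

set_option autoImplicit false

namespace Pool.Agent.ROA

namespace NMBM

open Filter Topology

/-- A polynomial against an exponential. -/
theorem poly_exp : ∃ L₀ : ℕ, ∀ L ≥ L₀, (4 * L ^ 2 + 4) ^ 12 * 2 ^ 30 ≤ 2 ^ (2 * L) := by
  have h1 := tendsto_pow_const_div_const_pow_of_one_lt 24 (by norm_num : (1 : ℝ) < 4)
  have h2 := (h1.eventually_lt_const (by positivity : (0 : ℝ) < 1 / 2 ^ 66)).exists_forall_of_atTop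
  obtain ⟨L₀, h2⟩ := h2
  refine ⟨max L₀ 1, fun L hL => ?_⟩
  have hL0 : L₀ ≤ L := le_trans (le_max_left _ _) hL
  have hL1 : 1 ≤ L := le_trans (le_max_right _ _) hL
  have h3 := h2 L hL0
  rw [div_lt_div_iff₀ (by positivity) (by positivity), one_mul] at h3
  have h4 : L ^ 24 * 2 ^ 66 ≤ 4 ^ L := by
    have : ((L ^ 24 * 2 ^ 66 : ℕ) : ℝ) ≤ ((4 ^ L : ℕ) : ℝ) := by
      push_cast
      linarith
    exact_mod_cast this
  have h5 : 4 * L ^ 2 + 4 ≤ 8 * L ^ 2 := by nlinarith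
  calc (4 * L ^ 2 + 4) ^ 12 * 2 ^ 30 ≤ (8 * L ^ 2) ^ 12 * 2 ^ 30 :=
        Nat.mul_le_mul_right _ (Nat.pow_le_pow_left h5 12)
    _ = L ^ 24 * 2 ^ 66 := by ring
    _ ≤ 4 ^ L := h4
    _ = 2 ^ (2 * L) := by rw [pow_mul]; norm_num

/-- The two bounds for the numbers of the formula. -/
theorem sizes {n H N : ℕ} (hn : 1 ≤ n) (hH : n ≤ H ^ 2) (hN : 35 * H ^ 10 ≤ N) :
    n * (n * (2 * (2 * n) + 1)) + n * (2 * (2 * n) + 1) * (n * (n * (2 * (2 * n) + 1)) + 1) ≤ N ∧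
    (n + 1) * ((2 * n) ^ 3 * (n * (n * (2 * (2 * n) + 1))) ^ 9) +
      (n * (2 * (n * (n * (2 * (2 * n) + 1)))) + n * (2 * (2 * n) + 1) * 2) ≤ N ^ 7 := by
  have h1 : 2 * (2 * n) + 1 ≤ 5 * n := by omega
  have h2 : n * (n * (2 * (2 * n) + 1)) ≤ 5 * n ^ 3 := by
    calc n * (n * (2 * (2 * n) + 1)) ≤ n * (n * (5 * n)) := by gcongr
      _ = 5 * n ^ 3 := by ring
  have h3 : n * (2 * (2 * n) + 1) ≤ 5 * n ^ 2 := by
    calc n * (2 * (2 * n) + 1) ≤ n * (5 * n) := by gcongr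
      _ = 5 * n ^ 2 := by ring
  have h4 : n ^ 5 ≤ H ^ 10 := by
    calc n ^ 5 ≤ (H ^ 2) ^ 5 := Nat.pow_le_pow_left hH 5
      _ = H ^ 10 := by ring
  have hn3 : 1 ≤ n ^ 3 := Nat.one_le_pow _ _ hn
  have hN5 : 35 * n ^ 5 ≤ N := by omega
  constructor
  · have h5 : n ^ 3 ≤ n ^ 5 := Nat.pow_le_pow_right hn (by norm_num)
    calc n * (n * (2 * (2 * n) + 1)) +
          n * (2 * (2 * n) + 1) * (n * (n * (2 * (2 * n) + 1)) + 1)
        ≤ 5 * n ^ 3 + 5 * n ^ 2 * (5 * n ^ 3 + 1) := by gcongr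
      _ ≤ 5 * n ^ 5 + 5 * n ^ 2 * (5 * n ^ 3 + n ^ 3) := by gcongr
      _ = 35 * n ^ 5 := by ring
      _ ≤ N := hN5
  · have h6 : (n + 1) * ((2 * n) ^ 3 * (n * (n * (2 * (2 * n) + 1))) ^ 9) ≤
        31250000 * n ^ 35 := by
      calc (n + 1) * ((2 * n) ^ 3 * (n * (n * (2 * (2 * n) + 1))) ^ 9)
          ≤ (n + n) * ((2 * n) ^ 3 * (5 * n ^ 3) ^ 9) := by gcongr
        _ = 31250000 * n ^ 31 := by ring
        _ ≤ 31250000 * n ^ 35 :=
          Nat.mul_le_mul_left _ (Nat.pow_le_pow_right hn (by norm_num))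
    have h7 : n * (2 * (n * (n * (2 * (2 * n) + 1)))) ≤ 10 * n ^ 35 := by
      calc n * (2 * (n * (n * (2 * (2 * n) + 1)))) ≤ n * (2 * (5 * n ^ 3)) := by gcongr
        _ = 10 * n ^ 4 := by ring
        _ ≤ 10 * n ^ 35 :=
          Nat.mul_le_mul_left _ (Nat.pow_le_pow_right hn (by norm_num))
    have h8 : n * (2 * (2 * n) + 1) * 2 ≤ 10 * n ^ 35 := by
      calc n * (2 * (2 * n) + 1) * 2 ≤ 5 * n ^ 2 * 2 := by gcongr
        _ = 10 * n ^ 2 := by ring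
        _ ≤ 10 * n ^ 35 :=
          Nat.mul_le_mul_left _ (Nat.pow_le_pow_right hn (by norm_num))
    have h9 : 64339296875 * n ^ 35 ≤ N ^ 7 := by
      calc 64339296875 * n ^ 35 = (35 * n ^ 5) ^ 7 := by ring
        _ ≤ N ^ 7 := Nat.pow_le_pow_left hN5 7
    omega

/-- The bounds for the parameters, in terms of `L`. -/
theorem params {h n N L e D M : ℕ} (hN : N < 35 * (h + 2) ^ 10) (hL1 : 2 ^ (L - 2) ≤ h)
    (hL2 : h + 2 ≤ 2 ^ L) (hL3 : 14 ≤ L) (hL4 : (4 * L ^ 2 + 4) ^ 12 * 2 ^ 30 ≤ 2 ^ (2 * L))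
    (hn1 : (h + 1) ^ 2 ≤ 2 * n) (hn2 : n ≤ (h + 1) ^ 2) (he : e ^ (30 * e) ≤ N)
    (hD : D ^ 12 ≤ N) (hM : M ^ 12 ≤ N) :
    4 * (2 * e ^ 2 + 2) ^ e ≤ n ∧
    ((n + 1) * (2 * n) ^ 3 + 1) ^ D * (2 ^ D * (2 ^ M) ^ (2 * e ^ 2 + 2)) < 2 ^ h * n := by
  have hN2 : N < 2 ^ (6 + 10 * L) := by
    calc N < 35 * (h + 2) ^ 10 := hN
      _ ≤ 2 ^ 6 * (2 ^ L) ^ 10 := by
        gcongr
        norm_num
      _ = 2 ^ (6 + 10 * L) := by rw [pow_add, ← pow_mul, mul_comm L 10]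
  have hh : 4096 ≤ h := by
    calc 4096 = 2 ^ 12 := by norm_num
      _ ≤ 2 ^ (L - 2) := Nat.pow_le_pow_right (by norm_num) (by omega)
      _ ≤ h := hL1
  have hn4096 : 4096 ≤ n := by nlinarith
  have heL : e ≤ L := by
    rcases Nat.lt_or_ge e 2 with h1 | h1
    · omega
    · have h2 : 2 ^ (30 * e) ≤ e ^ (30 * e) := Nat.pow_le_pow_left h1 _
      have h3 : 2 ^ (30 * e) < 2 ^ (6 + 10 * L) := lt_of_le_of_lt (h2.trans he) hN2
      have h4 := (Nat.pow_lt_pow_iff_right (by norm_num)).mp h3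
      omega
  constructor
  · rcases Nat.lt_or_ge e 2 with h1 | h1
    · interval_cases e
      · norm_num
        omega
      · norm_num
        omega
    · have h2 : 2 * e ^ 2 + 2 ≤ e ^ 4 := by nlinarith [Nat.pow_le_pow_left h1 2]
      have h3 : (2 * e ^ 2 + 2) ^ e ≤ e ^ (4 * e) := by
        calc (2 * e ^ 2 + 2) ^ e ≤ (e ^ 4) ^ e := Nat.pow_le_pow_left h2 _
          _ = e ^ (4 * e) := by rw [← pow_mul]
      have h4 : (8 * e ^ (4 * e)) ^ 7 ≤ ((2 ^ (L - 2)) ^ 2) ^ 7 := by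
        calc (8 * e ^ (4 * e)) ^ 7 = 2 ^ 21 * e ^ (28 * e) := by
              have h87 : (8 : ℕ) ^ 7 = 2 ^ 21 := by norm_num
              rw [mul_pow, h87, ← pow_mul]
              congr 2
              ring
          _ ≤ 2 ^ 21 * e ^ (30 * e) :=
              Nat.mul_le_mul_left _ (Nat.pow_le_pow_right (by omega) (by omega))
          _ ≤ 2 ^ 21 * 2 ^ (6 + 10 * L) := Nat.mul_le_mul_left _ (he.trans hN2.le)
          _ = 2 ^ (21 + (6 + 10 * L)) := (pow_add 2 21 _).symm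
          _ ≤ 2 ^ ((L - 2) * 2 * 7) := Nat.pow_le_pow_right (by norm_num) (by omega)
          _ = ((2 ^ (L - 2)) ^ 2) ^ 7 := by rw [pow_mul, pow_mul]
      have h5 : 8 * e ^ (4 * e) ≤ (2 ^ (L - 2)) ^ 2 := (Nat.pow_le_pow_iff_left (by norm_num)).mp h4
      have h6 : (2 ^ (L - 2)) ^ 2 ≤ h ^ 2 := Nat.pow_le_pow_left hL1 2
      have h7 : h ^ 2 ≤ (h + 1) ^ 2 := Nat.pow_le_pow_left (by omega) 2
      omega
  · have h12 : 12 + 16 * L ≤ 4 * L ^ 2 + 4 := by nlinarith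
    -- a general bound
    have key : ∀ X c : ℕ, X ^ 12 ≤ N → 2 * c ≤ 4 * L ^ 2 + 4 → 2 * (X * c) ≤ h := by
      intro X c hX hc
      have h1 : (2 * (X * c)) ^ 12 ≤ (2 ^ (L - 2)) ^ 12 := by
        have h2 : (2 * (X * c)) ^ 12 * 2 ^ 24 ≤ (2 ^ (L - 2)) ^ 12 * 2 ^ 24 := by
          calc (2 * (X * c)) ^ 12 * 2 ^ 24 = X ^ 12 * (2 * c) ^ 12 * 2 ^ 24 := by ring
            _ ≤ 2 ^ (6 + 10 * L) * (4 * L ^ 2 + 4) ^ 12 * 2 ^ 24 :=
              Nat.mul_le_mul_right _ (Nat.mul_le_mul (hX.trans hN2.le) (Nat.pow_le_pow_left hc 12))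
            _ = ((4 * L ^ 2 + 4) ^ 12 * 2 ^ 30) * 2 ^ (10 * L) := by
              rw [pow_add]
              ring
            _ ≤ 2 ^ (2 * L) * 2 ^ (10 * L) := Nat.mul_le_mul_right _ hL4
            _ = 2 ^ ((L - 2) * 12 + 24) := by
              rw [← pow_add]
              congr 1
              omega
            _ = (2 ^ (L - 2)) ^ 12 * 2 ^ 24 := by rw [pow_add, pow_mul]
        exact Nat.le_of_mul_le_mul_right h2 (by positivity)
      exact ((Nat.pow_le_pow_iff_left (by norm_num)).mp h1).trans hL1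
    have hDk := key D (6 + 8 * L) hD (by omega)
    have hMk := key M (2 * L ^ 2 + 2) hM (by omega)
    have h2 : (n + 1) * (2 * n) ^ 3 + 1 ≤ 2 ^ (5 + 8 * L) := by
      have h3 : n ≤ (2 ^ L) ^ 2 := hn2.trans (Nat.pow_le_pow_left (by omega) 2)
      have h4 : 1 ≤ n ^ 4 := Nat.one_le_pow _ _ (by omega)
      calc (n + 1) * (2 * n) ^ 3 + 1 ≤ (n + n) * (2 * n) ^ 3 + n ^ 4 := by
            gcongr
            omega
        _ = 17 * n ^ 4 := by ring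
        _ ≤ 2 ^ 5 * ((2 ^ L) ^ 2) ^ 4 := by
            gcongr
            norm_num
        _ = 2 ^ (5 + 8 * L) := by
            rw [pow_add, ← pow_mul, ← pow_mul]
            congr 2
            ring
    have h5 : M * (2 * e ^ 2 + 2) ≤ M * (2 * L ^ 2 + 2) := by gcongr
    calc ((n + 1) * (2 * n) ^ 3 + 1) ^ D * (2 ^ D * (2 ^ M) ^ (2 * e ^ 2 + 2))
        ≤ (2 ^ (5 + 8 * L)) ^ D * (2 ^ D * (2 ^ M) ^ (2 * e ^ 2 + 2)) := by gcongr
      _ = 2 ^ (D * (6 + 8 * L) + M * (2 * e ^ 2 + 2)) := by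
          rw [← pow_mul, ← pow_mul, ← pow_add, ← pow_add]
          congr 1
          ring
      _ ≤ 2 ^ h := Nat.pow_le_pow_right (by norm_num) (by omega)
      _ < 2 ^ h * n := by
          have : 0 < 2 ^ h := by positivity
          nlinarith

end NMBM

theorem NMB_thm : S_NMB := by
  obtain ⟨L₀, hL₀⟩ := NMBM.poly_exp
  set L₁ := max L₀ 14 with hL₁
  refine ⟨35 * (2 ^ L₁ + 1) ^ 10, fun N hN => ?_⟩
  set h := Nat.findGreatest (fun h => 35 * (h + 1) ^ 10 ≤ N) N with hh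
  have h1 : 2 ^ L₁ ≤ N := by
    have e1 : 2 ^ L₁ + 1 ≤ (2 ^ L₁ + 1) ^ 10 := Nat.le_self_pow (by norm_num) _
    omega
  have h2 : 2 ^ L₁ ≤ h := Nat.le_findGreatest h1 hN
  have h3 : 35 * (h + 1) ^ 10 ≤ N :=
    Nat.findGreatest_spec (P := fun h => 35 * (h + 1) ^ 10 ≤ N) h1 hN
  have h4 : N < 35 * (h + 2) ^ 10 := by
    by_contra hcon
    push Not at hcon
    have e1 : h + 1 ≤ N := by
      have e2 : h + 2 ≤ (h + 2) ^ 10 := Nat.le_self_pow (by norm_num) _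
      omega
    have e3 := Nat.le_findGreatest (P := fun h => 35 * (h + 1) ^ 10 ≤ N) e1 hcon
    omega
  have hle : 2 ^ 14 ≤ 2 ^ L₁ := Nat.pow_le_pow_right (by norm_num) (le_max_right _ _)
  have h14 : 16384 ≤ h := by
    have : 2 ^ 14 = 16384 := by norm_num
    omega
  refine ⟨h, by omega, fun n hn1 hn2 => ?_⟩
  have hn : 1 ≤ n := by nlinarith
  obtain ⟨hA, hB⟩ := NMBM.sizes hn hn2 h3
  refine ⟨hA, hB, fun e D M he hD hM => ?_⟩
  -- the number `L`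
  have hLa : h + 2 ≤ 2 ^ Nat.clog 2 (h + 2) := Nat.le_pow_clog (by norm_num) _
  have hLb : 2 ^ (Nat.clog 2 (h + 2) - 1) < h + 2 :=
    Nat.pow_pred_clog_lt_self (b := 2) (x := h + 2) (by norm_num) (by omega)
  have hLc : L₁ ≤ Nat.clog 2 (h + 2) := by
    by_contra hcon
    push Not at hcon
    have := Nat.pow_le_pow_right (n := 2) (by norm_num) hcon.le
    omega
  have hLd : 14 ≤ Nat.clog 2 (h + 2) := le_trans (le_max_right _ _) hLc
  refine NMBM.params h4 ?_ hLa hLd (hL₀ _ (le_trans (le_max_left _ _) hLc)) hn1 hn2 he hD hM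
  have e1 : 2 ^ (Nat.clog 2 (h + 2) - 1) = 2 * 2 ^ (Nat.clog 2 (h + 2) - 2) := by
    rw [← pow_succ']
    congr 1
    omega
  have e2 : 1 ≤ 2 ^ (Nat.clog 2 (h + 2) - 2) := Nat.one_le_pow _ _ (by norm_num)
  omega

end Pool.Agent.ROA
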