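import Pool.Agent.ROA.Rank

/-!
# Module PYR: pebbling the pyramid
-/

set_option autoImplicit false

namespace Pool.Agent.ROA

open Finset

namespace PYRM

/-- paths from a source to the sink, the place at each level -/
def IsPath (h : ℕ) (p : ℕ → ℕ) : Prop :=
  p h = 0 ∧ ∀ i < h, p i = p (i + 1) ∨ p i = p (i + 1) + 1

/-- the vertex with the given level and place is in `U` -/
def In {h : ℕ} (U : Finset (Pyr h)) (i j : ℕ) : Prop :=
  ∃ v ∈ U, v.1.1.val = i ∧ v.1.2.val = j

theorem bounds {h : ℕ} {p : ℕ → ℕ} (hp : IsPath h p) {a b : ℕ} (hab : a ≤ b) (hb : b ≤ h) :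
    p b ≤ p a ∧ p a ≤ p b + (b - a) := by
  induction b, hab using Nat.le_induction with
  | base => simp
  | succ b hab ih =>
    have h1 := ih (by omega)
    have h2 := hp.2 b (by omega)
    omega

/-- the detour at `i` -/
def dtr (p : ℕ → ℕ) (i l : ℕ) : ℕ :=
  if i ≤ l then p l else if p (i - 1) = p i then p i + (i - l) else p i

theorem dtr_path {h : ℕ} {p : ℕ → ℕ} (hp : IsPath h p) {i : ℕ} (hih : i ≤ h) :
    IsPath h (dtr p i) := by
  constructor
  · unfold dtr
    rw [if_pos hih]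
    exact hp.1
  · intro l hl
    unfold dtr
    have h1 := hp.2 l hl
    by_cases c1 : i ≤ l
    · rw [if_pos c1, if_pos (by omega)]
      exact h1
    · rw [if_neg c1]
      by_cases c2 : i ≤ l + 1
      · have h2 : i = l + 1 := by omega
        subst h2
        rw [if_pos le_rfl]
        by_cases c3 : p (l + 1 - 1) = p (l + 1)
        · rw [if_pos c3]
          right
          omega
        · rw [if_neg c3]
          left
          rfl
      · rw [if_neg c2]
        by_cases c3 : p (i - 1) = p i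
        · rw [if_pos c3, if_pos c3]
          right
          omega
        · rw [if_neg c3, if_neg c3]
          left
          rfl

theorem dtr_ne {h : ℕ} {p : ℕ → ℕ} (hp : IsPath h p) {i j l : ℕ} (hij : i < j) (hj : j ≤ h)
    (hl : l < i) : dtr p i l ≠ dtr p j l := by
  have h1 := bounds hp (a := i) (b := j - 1) (by omega) (by omega)
  have h2 := hp.2 (j - 1) (by omega)
  have h3 : j - 1 + 1 = j := by omega
  rw [h3] at h2
  unfold dtr
  rw [if_neg (show ¬ i ≤ l by omega), if_neg (show ¬ j ≤ l by omega)]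
  split_ifs <;> omega

theorem dtr_zero {h : ℕ} {p : ℕ → ℕ} (hp : IsPath h p) {i : ℕ} (hi : 1 ≤ i) (hih : i ≤ h) :
    dtr p i 0 ≠ p 0 := by
  have h1 := bounds hp (a := 0) (b := i - 1) (by omega) (by omega)
  have h2 := hp.2 (i - 1) (by omega)
  have h3 : i - 1 + 1 = i := by omega
  rw [h3] at h2
  unfold dtr
  rw [if_neg (show ¬ i ≤ 0 by omega)]
  split_ifs <;> omega

theorem put_step {h : ℕ} {U : Finset (Pyr h)} {w : Pyr h} (hc : U.card < h)
    (hq : ∀ q, pyrPred h w = some q → q.1 ∈ U ∧ q.2 ∈ U)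
    {p : ℕ → ℕ} (hp : IsPath h p) (hf : ∀ i ≤ h, ¬ In U i (p i)) :
    ∃ p, IsPath h p ∧ ∀ i ≤ h, ¬ In (insert w U) i (p i) := by
  by_contra hcon
  have hb : ∀ p, IsPath h p → ∃ i ≤ h, In (insert w U) i (p i) := by
    intro p' hp'
    by_contra h1
    exact hcon ⟨p', hp', fun i hi h2 => h1 ⟨i, hi, h2⟩⟩
  obtain ⟨i0, hi0, v, hv, hv1, hv2⟩ := hb p hp
  have hvw : v = w := by
    rcases Finset.mem_insert.1 hv with h1 | h1
    · exact h1
    · exact absurd ⟨v, h1, hv1, hv2⟩ (hf i0 hi0)
  subst hvw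
  have hz : i0 = 0 := by
    by_contra hne
    have hpos : ¬ v.1.1.val = 0 := by omega
    have hpr := hq _ (dif_neg hpos)
    have h3 : i0 - 1 + 1 = i0 := by omega
    have h4 := hp.2 (i0 - 1) (by omega)
    rw [h3] at h4
    rcases h4 with h1 | h1
    · refine hf (i0 - 1) (by omega) ⟨_, hpr.1, ?_, ?_⟩
      · show v.1.1.val - 1 = i0 - 1
        omega
      · show v.1.2.val = p (i0 - 1)
        omega
    · refine hf (i0 - 1) (by omega) ⟨_, hpr.2, ?_, ?_⟩
      · show v.1.1.val - 1 = i0 - 1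
        omega
      · show v.1.2.val + 1 = p (i0 - 1)
        omega
  subst hz
  have hx : ∀ i, i ∈ Finset.Icc 1 h →
      ∃ x : Pyr h, x ∈ U ∧ x.1.1.val < i ∧ x.1.2.val = dtr p i x.1.1.val := by
    intro i hi
    obtain ⟨hi1, hih⟩ := Finset.mem_Icc.1 hi
    obtain ⟨l, hl, x, hx, hx1, hx2⟩ := hb _ (dtr_path hp hih)
    by_cases c : i ≤ l
    · exfalso
      unfold dtr at hx2
      rw [if_pos c] at hx2
      rcases Finset.mem_insert.1 hx with h1 | h1
      · subst h1
        omega
      · exact hf l hl ⟨x, h1, hx1, hx2⟩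
    · rcases Finset.mem_insert.1 hx with h1 | h1
      · exfalso
        subst h1
        have h2 : l = 0 := by omega
        subst h2
        exact dtr_zero hp hi1 hih (by rw [← hx2, ← hv2])
      · exact ⟨x, h1, by omega, by rw [hx1]; exact hx2⟩
  choose f hf1 hf2 hf3 using hx
  have hcard : (Finset.Icc 1 h).card ≤ U.card := by
    refine Finset.card_le_card_of_injOn (fun i => if hi : i ∈ Finset.Icc 1 h then f i hi else v)
      ?_ ?_
    · intro i hi
      simp only [Finset.mem_coe] at hi ⊢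
      rw [dif_pos hi]
      exact hf1 i hi
    · intro i hi j hj hij
      simp only [Finset.mem_coe] at hi hj
      simp only [dif_pos hi, dif_pos hj] at hij
      have e1 := hf3 i hi
      have e2 := hf3 j hj
      have l1 := hf2 i hi
      have l2 := hf2 j hj
      rw [← hij] at e2 l2
      rw [Finset.mem_Icc] at hi hj
      rcases lt_trichotomy i j with h1 | h1 | h1
      · exact absurd (e1.symm.trans e2) (dtr_ne hp h1 hj.2 l1)
      · exact h1
      · exact absurd (e2.symm.trans e1) (dtr_ne hp h1 hi.2 l2)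
  rw [Nat.card_Icc] at hcard
  omega

theorem main {h : ℕ} {U : Finset (Pyr h)} (hU : Reach (pyrPred h) h U) :
    U.card ≤ h ∧ ∃ p, IsPath h p ∧ ∀ i ≤ h, ¬ In U i (p i) := by
  induction hU with
  | empty =>
    refine ⟨by simp, fun _ => 0, ⟨rfl, fun i _ => Or.inl rfl⟩, fun i _ h1 => ?_⟩
    obtain ⟨v, hv, -⟩ := h1
    simp at hv
  | put hr hw hc hq ih =>
    obtain ⟨-, p, hp, hf⟩ := ih
    refine ⟨?_, put_step hc hq hp hf⟩
    rw [Finset.card_insert_of_notMem hw]
    omega
  | take hr hw hq ih =>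
    obtain ⟨h1, p, hp, hf⟩ := ih
    refine ⟨(Finset.card_le_card (Finset.subset_insert _ _)).trans h1, p, hp, ?_⟩
    rintro i hi ⟨v, hv, h2⟩
    exact hf i hi ⟨v, Finset.mem_insert_of_mem hv, h2⟩

end PYRM

theorem PYR_thm : S_PYR := by
  intro h U hU hs
  obtain ⟨-, p, hp, hf⟩ := PYRM.main hU
  exact hf h le_rfl ⟨_, hs, rfl, hp.1.symm⟩

end Pool.Agent.ROA
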