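import Pool.Agent.ROA.Rank

/-!
# The function on the forbidden patterns
-/

set_option autoImplicit false

universe u

namespace Pool.Agent.ROA

open Finset

theorem UPA_thm : S_UPA.{u} := by
  intro K _ V _ _ pr t d r hr hne z
  constructor
  · intro hz
    unfold phi
    refine Finset.sum_eq_zero fun U _ => ?_
    by_cases ht : t ∈ U
    · rw [hr.sink U ht, zero_mul]
    · rw [Finset.prod_eq_zero (Finset.mem_compl.2 ht) (by rw [hz, sub_self]), mul_zero]
  · intro w hz hq
    unfold phi
    -- split the sets according to `w`
    have h1 : (∑ U : Finset V, r U * ∏ x ∈ Uᶜ, (z x - 1)) =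
        ∑ U ∈ (univ.erase w).powerset,
          (r U * ∏ x ∈ Uᶜ, (z x - 1) + r (insert w U) * ∏ x ∈ (insert w U)ᶜ, (z x - 1)) := by
      have h0 : (univ : Finset (Finset V)) = (insert w (univ.erase w)).powerset := by
        rw [Finset.insert_erase (Finset.mem_univ w), Finset.powerset_univ]
      rw [h0, Finset.sum_powerset_insert (Finset.notMem_erase w univ), Finset.sum_add_distrib]
    rw [h1]
    have h2 : ∀ U ∈ (univ.erase w).powerset,
        (r U * ∏ x ∈ Uᶜ, (z x - 1) + r (insert w U) * ∏ x ∈ (insert w U)ᶜ, (z x - 1)) =
        if U.card = d then - (r U * ∏ x ∈ (insert w U)ᶜ, (z x - 1)) else 0 := by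
      intro U hU
      have hwU : w ∉ U := fun h => (Finset.mem_erase.1 (Finset.mem_powerset.1 hU h)).1 rfl
      have h3 : ∏ x ∈ Uᶜ, (z x - 1) = - ∏ x ∈ (insert w U)ᶜ, (z x - 1) := by
        have h4 : Uᶜ = insert w (insert w U)ᶜ := by
          ext x
          simp only [Finset.mem_compl, Finset.mem_insert, not_or]
          by_cases hx : x = w
          · subst hx
            simp [hwU]
          · simp [hx]
        rw [h4, Finset.prod_insert (by simp), hz]
        ring
      rw [h3]
      split_ifs with hd
      · rw [hr.big (insert w U) (by rw [Finset.card_insert_of_notMem hwU]; omega)]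
        ring
      · rcases lt_or_gt_of_ne hd with hd | hd
        · by_cases hp : ∀ q, pr w = some q → q.1 ∈ U ∧ q.2 ∈ U
          · rw [hr.move U w hwU hd hp]
            ring
          · push Not at hp
            obtain ⟨q, hq1, hq2⟩ := hp
            obtain ⟨hz1, hz2⟩ := hq q hq1
            obtain ⟨hn1, hn2⟩ := hne w q hq1
            have h5 : ∏ x ∈ (insert w U)ᶜ, (z x - 1) = 0 := by
              by_cases h6 : q.1 ∈ U
              · exact Finset.prod_eq_zero (i := q.2) (by
                  simp only [Finset.mem_compl, Finset.mem_insert, not_or]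
                  exact ⟨hn2, hq2 h6⟩) (by rw [hz2, sub_self])
              · exact Finset.prod_eq_zero (i := q.1) (by
                  simp only [Finset.mem_compl, Finset.mem_insert, not_or]
                  exact ⟨hn1, h6⟩) (by rw [hz1, sub_self])
            rw [h5]
            ring
        · rw [hr.big U hd, hr.big (insert w U) (by
            rw [Finset.card_insert_of_notMem hwU]; omega)]
          ring
    rw [Finset.sum_congr rfl h2, ← Finset.sum_filter, Finset.sum_neg_distrib]
    congr 2
    ext U
    rw [Finset.mem_filter, Finset.mem_powerset, Finset.mem_powersetCard]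

end Pool.Agent.ROA
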