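import Pool.Agent.ROA.Rank

/-!
# The rank of the products over a set of vertices
-/

set_option autoImplicit false

universe u

namespace Pool.Agent.ROA

open Finset

theorem UPB_thm : S_UPB.{u} := by
  intro K _ V _ _ k T
  refine RankLE.of_fintype (T → Fin k) (by simp)
    (fun b c => if (fun x : T => b x) = c then (1 : K) else 0)
    (fun a c => ∏ x : T, ((if a x = c x then (1 : K) else 0) - 1)) fun b a => ?_
  rw [Finset.sum_eq_single (fun x : T => b x)]
  · rw [if_pos rfl, one_mul]
    exact (Finset.prod_coe_sort T fun x => ((if a x = b x then (1 : K) else 0) - 1)).symm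
  · intro c _ hc
    rw [if_neg (Ne.symm hc), zero_mul]
  · intro h
    exact absurd (Finset.mem_univ _) h

end Pool.Agent.ROA
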