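import Pool.Agent.ROA.Rank

/-!
# The rank of the lifted function on the places where a clause is false
-/

set_option autoImplicit false

universe u

namespace Pool.Agent.ROA

open Finset

namespace UPRM

/-- The sum over the sets of size `d` which do not contain `w`. -/
theorem rank_sum (h2 : S_UPB.{u}) (K : Type u) [Field K] (V : Type) [Fintype V] [DecidableEq V]
    (d k : ℕ) (r : Finset V → K) (w : V) (hd : d + 1 ≤ Fintype.card V) :
    RankLE ((Fintype.card V).choose d * k ^ (Fintype.card V - d - 1))
      fun b a : V → Fin k => ∑ U ∈ powersetCard d (univ.erase w),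
        r U * ∏ x ∈ (insert w U)ᶜ, ((if a x = b x then (1 : K) else 0) - 1) := by
  rcases Nat.eq_zero_or_pos k with hk | hk
  · subst hk
    have : Nonempty V := ⟨w⟩
    refine (RankLE.zero _).congr fun b a => ?_
    exact (b w).elim0
  have h3 := RankLE.sum (powersetCard d (univ.erase w))
    (w := k ^ (Fintype.card V - d - 1))
    (M := fun U (b a : V → Fin k) =>
      r U * ∏ x ∈ (insert w U)ᶜ, ((if a x = b x then (1 : K) else 0) - 1)) fun U hU => by
        obtain ⟨hU1, hU2⟩ := Finset.mem_powersetCard.1 hU
        have hw : w ∉ U := fun h => (Finset.mem_erase.1 (hU1 h)).1 rfl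
        refine RankLE.smul ((h2 K V k (insert w U)ᶜ).mono (le_of_eq ?_)) (r U)
        rw [Finset.card_compl, Finset.card_insert_of_notMem hw, hU2, Nat.sub_sub]
  refine h3.mono (Nat.mul_le_mul_right _ ?_)
  rw [Finset.card_powersetCard]
  refine Nat.choose_le_choose d ?_
  rw [Finset.card_erase_of_mem (Finset.mem_univ w), Finset.card_univ]
  exact Nat.sub_le _ _

end UPRM

theorem UPR_thm (h1 : S_UPA.{u}) (h2 : S_UPB.{u}) : S_UPR.{u} := by
  intro K _ V _ _ pr t d k r hr hne hd o α
  cases o with
  | none =>
    refine (RankLE.zero _).congr fun b a => ?_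
    beta_reduce
    split_ifs with hc
    · obtain ⟨hc1, hc2⟩ := hc 0
      have hc3 : b t = α 0 := of_decide_eq_true hc2
      have hc4 : a t = α 0 := hc1
      exact (h1 K V pr t d r hr hne _).1 (if_pos (hc4.trans hc3.symm))
    · rfl
  | some w =>
    have h3 := (UPRM.rank_sum h2 K V d k r w hd).scale
      (fun b => if ∀ i, decide (b (bp pr t (some w) i).1 = α i) = (bp pr t (some w) i).2 then
        (-1 : K) else 0)
      (fun a => if ∀ i, a (bp pr t (some w) i).1 = α i then (1 : K) else 0)
    refine h3.congr fun b a => ?_
    beta_reduce
    by_cases hc : Cond pr t (some w) α b a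
    · rw [if_pos hc, if_pos fun i => (hc i).2, if_pos fun i => (hc i).1]
      -- the value at `w` is `0`
      have hz : ∀ v : V, ∀ c : Fin k, a v = c ∧ decide (b v = c) = false →
          (if a v = b v then (1 : K) else 0) = 0 := by
        rintro v c ⟨hv1, hv2⟩
        rw [if_neg]
        intro h
        exact of_decide_eq_false hv2 (h.symm.trans hv1)
      have ho : ∀ v : V, ∀ c : Fin k, a v = c ∧ decide (b v = c) = true →
          (if a v = b v then (1 : K) else 0) = 1 := by
        rintro v c ⟨hv1, hv2⟩
        rw [if_pos]
        exact hv1.trans (of_decide_eq_true hv2).symm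
      have h4 : mat k r b a = - ∑ U ∈ powersetCard d (univ.erase w), r U *
          ∏ x ∈ (insert w U)ᶜ, ((if a x = b x then (1 : K) else 0) - 1) := by
        refine (h1 K V pr t d r hr hne fun x => if a x = b x then (1 : K) else 0).2 w ?_ ?_
        · rcases hp : pr w with _ | q
          · have h5 := hc 0
            have h6 : bp pr t (some w) 0 = (w, false) := by
              simp only [bp, hp]
            rw [h6] at h5
            exact hz w (α 0) h5
          · have h5 := hc 2
            have h6 : bp pr t (some w) 2 = (w, false) := by
              simp only [bp, hp]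
              rfl
            rw [h6] at h5
            exact hz w (α 2) h5
        · intro q hp
          constructor
          · have h5 := hc 0
            have h6 : bp pr t (some w) 0 = (q.1, true) := by
              simp only [bp, hp]
              rfl
            rw [h6] at h5
            exact ho q.1 (α 0) h5
          · have h5 := hc 1
            have h6 : bp pr t (some w) 1 = (q.2, true) := by
              simp only [bp, hp]
              rfl
            rw [h6] at h5
            exact ho q.2 (α 1) h5
      rw [h4]
      ring
    · rw [if_neg hc]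
      have h5 : ¬ ((∀ i, decide (b (bp pr t (some w) i).1 = α i) = (bp pr t (some w) i).2) ∧
          ∀ i, a (bp pr t (some w) i).1 = α i) := by
        rintro ⟨h6, h7⟩
        exact hc fun i => ⟨h7 i, h6 i⟩
      by_cases h6 : ∀ i, decide (b (bp pr t (some w) i).1 = α i) = (bp pr t (some w) i).2
      · rw [if_neg fun h7 => h5 ⟨h6, h7⟩]
        ring
      · rw [if_neg h6]
        ring

end Pool.Agent.ROA
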