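import Pool.Agent.ROA.Rank
import Pool.Agent.ROA.Stmts2

/-!
# Module NM2: numbers for the formula with slices
-/

set_option autoImplicit false

namespace Pool.Agent.ROA

namespace NM2M

/-- large numbers -/
structure Big (N : ℕ) : Prop where
  l : 20 ≤ Real.log N
  ll : 480 * Real.log (Real.log N) ≤ Real.log N

lemma big_eventually : ∀ᶠ N : ℕ in Filter.atTop, Big N := by
  have h1 : Filter.Tendsto (fun N : ℕ => Real.log N) Filter.atTop Filter.atTop :=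
    Real.tendsto_log_atTop.comp tendsto_natCast_atTop_atTop
  have h2 : ∀ᶠ x : ℝ in Filter.atTop, 480 * Real.log x ≤ x := by
    have h3 := Real.isLittleO_log_id_atTop.bound (show (0 : ℝ) < 1 / 480 by norm_num)
    filter_upwards [h3, Filter.eventually_ge_atTop 1] with x hx hx1
    simp only [id, Real.norm_eq_abs] at hx
    rw [abs_of_nonneg (Real.log_nonneg hx1), abs_of_nonneg (by linarith)] at hx
    linarith
  filter_upwards [h1.eventually_ge_atTop 20, h1.eventually h2] with N ha hb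
  exact ⟨ha, hb⟩

lemma real_part {N : ℕ} (hN : Big N) : ∃ e M : ℕ, (4 * e) ^ (30 * (4 * e)) ≤ N / 16 ∧
    M ^ 12 ≤ N / 16 ∧ (N : ℝ) ^ (1 / 480 : ℝ) ≤ M ∧
    (∀ l : ℕ, (l : ℝ) ≤ 1 / 480 * N * Real.log N / Real.log (Real.log N) → l ≤ e * N) ∧
    ∀ D : ℕ, (D : ℝ) ≤ (N : ℝ) ^ (1 / 480 : ℝ) → D ^ 12 ≤ N / 16 := by
  obtain ⟨hl, hll⟩ := hN
  obtain ⟨L, hL⟩ : ∃ L, L = Real.log N := ⟨_, rfl⟩
  obtain ⟨LL, hLL⟩ : ∃ LL, LL = Real.log L := ⟨_, rfl⟩
  rw [← hL] at hl hll ⊢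
  rw [← hLL] at hll ⊢
  have hL0 : 0 < L := by linarith
  have hLL1 : 1 ≤ LL := by
    rw [hLL, Real.le_log_iff_exp_le hL0]
    have := Real.exp_one_lt_d9
    linarith
  have hLL0 : 0 < LL := by linarith
  have hN0 : (0 : ℝ) < N := by
    rcases Nat.eq_zero_or_pos N with h | h
    · rw [h] at hL
      simp only [Nat.cast_zero, Real.log_zero] at hL
      linarith
    · exact_mod_cast h
  have hNe : Real.exp L = N := by rw [hL, Real.exp_log hN0]
  -- the square root of `N`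
  have half : Real.exp (L / 2) ≤ ((N / 16 : ℕ) : ℝ) := by
    have h1 : Real.exp (L / 2) * Real.exp (L / 2) = N := by
      rw [← Real.exp_add, ← hNe]
      congr 1
      ring
    have h2 : 36 ≤ Real.exp (L / 2) := by
      have h3 : Real.exp (L / 2) = Real.exp (L / 4) * Real.exp (L / 4) := by
        rw [← Real.exp_add]
        congr 1
        ring
      have h4 := Real.add_one_le_exp (L / 4)
      rw [h3]
      nlinarith
    have h5 : (N : ℝ) < 16 * ((N / 16 : ℕ) : ℝ) + 16 := by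
      have h6 : N < 16 * (N / 16) + 16 := by omega
      exact_mod_cast h6
    nlinarith
  have hfin : ∀ a : ℕ, (a : ℝ) ≤ Real.exp (L / 2) → a ≤ N / 16 := fun a ha => by
    have := ha.trans half
    exact_mod_cast this
  obtain ⟨t, ht⟩ : ∃ t, t = (N : ℝ) ^ (1 / 480 : ℝ) := ⟨_, rfl⟩
  have ht2 : t = Real.exp (L / 480) := by
    rw [ht, Real.rpow_def_of_pos hN0, ← hL]
    congr 1
    ring
  rw [← ht]
  have ht1 : 1 ≤ t := by
    rw [ht2, Real.one_le_exp_iff]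
    positivity
  have h12 : (2 * t) ^ 12 ≤ Real.exp (L / 2) := by
    have h1 : (4096 : ℝ) ≤ Real.exp 9 := by
      have h2 : Real.exp 9 = Real.exp 1 ^ 9 := by
        rw [← Real.exp_nat_mul]
        norm_num
      have h3 : (2.7 : ℝ) ≤ Real.exp 1 := by
        have := Real.exp_one_gt_d9
        linarith
      have h4 := pow_le_pow_left₀ (by norm_num) h3 9
      rw [h2]
      refine le_trans ?_ h4
      norm_num
    have h5 : t ^ 12 = Real.exp (L / 40) := by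
      rw [ht2, ← Real.exp_nat_mul]
      congr 1
      push_cast
      ring
    calc (2 * t) ^ 12 = 4096 * t ^ 12 := by rw [mul_pow]; norm_num
      _ = 4096 * Real.exp (L / 40) := by rw [h5]
      _ ≤ Real.exp 9 * Real.exp (L / 40) := mul_le_mul_of_nonneg_right h1 (Real.exp_pos _).le
      _ = Real.exp (9 + L / 40) := (Real.exp_add _ _).symm
      _ ≤ Real.exp (L / 2) := Real.exp_le_exp.2 (by linarith)
  obtain ⟨y, hy⟩ : ∃ y, y = 1 / 480 * L / LL := ⟨_, rfl⟩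
  have hy0 : 0 ≤ y := by rw [hy]; positivity
  have hyLL : y * LL = L / 480 := by
    rw [hy]
    field_simp
  have hyL : y ≤ L / 480 := by nlinarith
  have he1 := Nat.le_ceil y
  have he2 := Nat.ceil_lt_add_one hy0
  refine ⟨⌈y⌉₊, ⌈t⌉₊, hfin _ ?_, hfin _ ?_, Nat.le_ceil t, fun l hl' => ?_, fun D hD => hfin _ ?_⟩
  · push_cast
    have h1 : 4 * ((⌈y⌉₊ : ℕ) : ℝ) ≤ L := by linarith
    have h2 : (4 * ((⌈y⌉₊ : ℕ) : ℝ)) ^ (30 * (4 * ⌈y⌉₊)) ≤ L ^ (30 * (4 * ⌈y⌉₊)) :=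
      pow_le_pow_left₀ (by positivity) h1 _
    refine h2.trans ?_
    have h3 : L = Real.exp LL := by rw [hLL, Real.exp_log hL0]
    have h4 : L ^ (30 * (4 * ⌈y⌉₊)) = Real.exp ((30 * (4 * ⌈y⌉₊) : ℕ) * LL) := by
      conv_lhs => rw [h3]
      rw [Real.exp_nat_mul]
    rw [h4, Real.exp_le_exp]
    push_cast
    have h5 : ((⌈y⌉₊ : ℕ) : ℝ) * LL ≤ (y + 1) * LL := mul_le_mul_of_nonneg_right he2.le hLL0.le
    nlinarith
  · push_cast
    have h1 : ((⌈t⌉₊ : ℕ) : ℝ) ≤ 2 * t := by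
      have := Nat.ceil_lt_add_one (show 0 ≤ t by linarith)
      linarith
    exact (pow_le_pow_left₀ (by positivity) h1 _).trans h12
  · have h1 : (l : ℝ) ≤ ((⌈y⌉₊ * N : ℕ) : ℝ) := by
      push_cast
      refine hl'.trans ?_
      have h2 : 1 / 480 * (N : ℝ) * L / LL = y * N := by
        rw [hy]
        ring
      rw [h2]
      exact mul_le_mul_of_nonneg_right he1 hN0.le
    exact_mod_cast h1
  · push_cast
    have h1 : (D : ℝ) ≤ 2 * t := by linarith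
    exact (pow_le_pow_left₀ (by positivity) h1 _).trans h12

lemma nat_part {N n k R m : ℕ} (hn : 5 ≤ n) (hk : k = 2 * n) (hR : R = n * (2 * k + 1))
    (hm : m = 2 * (n * R)) (h1 : n * R + R * (n * R + 1) ≤ N / 16) :
    ∃ G : ℕ, 0 < G ∧ G * m + (R * (m + 1) + (G + 1)) ≤ N ∧ N ≤ 2 * (G * m) ∧
      (n + 1) * (k ^ 3 * (G * m ^ 9)) + (n * (2 * (G * m)) + (R * 2 + 2)) ≤ N ^ 7 := by
  have hR4 : 4 * n ^ 2 ≤ R := by rw [hR, hk]; nlinarith
  have hR5 : R ≤ 5 * n ^ 2 := by rw [hR, hk]; nlinarith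
  have hn2 : 25 ≤ n ^ 2 := by nlinarith
  obtain ⟨q, hq⟩ : ∃ q, q = n * R := ⟨_, rfl⟩
  rw [← hq] at h1 hm
  have hq4 : 4 * n ^ 3 ≤ q := by
    rw [hq]
    calc 4 * n ^ 3 = n * (4 * n ^ 2) := by ring
      _ ≤ n * R := Nat.mul_le_mul_left n hR4
  have hq5 : q ≤ 5 * n ^ 3 := by
    rw [hq]
    calc n * R ≤ n * (5 * n ^ 2) := Nat.mul_le_mul_left n hR5
      _ = 5 * n ^ 3 := by ring
  have hn3 : 125 ≤ n ^ 3 := by
    calc 125 = 5 ^ 3 := by norm_num
      _ ≤ n ^ 3 := Nat.pow_le_pow_left hn 3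
  have hRq : 16 * n ^ 5 ≤ R * q := by
    calc 16 * n ^ 5 = (4 * n ^ 2) * (4 * n ^ 3) := by ring
      _ ≤ R * q := Nat.mul_le_mul hR4 hq4
  have e1 : R * (q + 1) = R * q + R := by ring
  rw [e1] at h1
  have hN : 256 * n ^ 5 ≤ N := by omega
  have hT : 8 * ((R + 1) * (m + 1)) ≤ N := by
    have e2 : (R + 1) * (m + 1) = 2 * (R * q) + R + 2 * q + 1 := by
      rw [hm]
      ring
    omega
  have hm10 : m ≤ 10 * n ^ 3 := by omega
  have hm16 : 16 ≤ m := by omega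
  obtain ⟨T, hTe⟩ : ∃ T, T = (R + 1) * (m + 1) := ⟨_, rfl⟩
  have hT0 : 1 ≤ T := by
    rw [hTe]
    exact Nat.mul_pos (Nat.succ_pos _) (Nat.succ_pos _)
  rw [← hTe] at hT
  obtain ⟨Q, hQ⟩ : ∃ Q, Q = (N - 1) / (m + 1) := ⟨_, rfl⟩
  have hQ1 : (m + 1) * Q + (N - 1) % (m + 1) = N - 1 := by
    rw [hQ]
    exact Nat.div_add_mod _ _
  have hQ2 : (N - 1) % (m + 1) < m + 1 := Nat.mod_lt _ (by omega)
  have hQ3 : R + 1 ≤ Q := by
    rw [hQ, Nat.le_div_iff_mul_le (by omega), ← hTe]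
    omega
  obtain ⟨G, hG⟩ := Nat.exists_eq_add_of_le hQ3
  have e3 : (m + 1) * Q = (G + 1) * m + (R * (m + 1) + (G + 1)) := by
    rw [hG]
    ring
  obtain ⟨P, hP⟩ : ∃ P, P = (G + 1) * m := ⟨_, rfl⟩
  have e4 : T = R * (m + 1) + m + 1 := by
    rw [hTe]
    ring
  have hPG : 16 * (G + 1) ≤ P := by
    rw [hP, mul_comm (G + 1) m]
    exact Nat.mul_le_mul_right _ hm16
  rw [← hP] at e3
  obtain ⟨r, hr⟩ : ∃ r, r = R * (m + 1) := ⟨_, rfl⟩
  rw [← hr] at e3 e4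
  have hPN : P ≤ N := by omega
  refine ⟨G + 1, Nat.succ_pos _, ?_, ?_, ?_⟩
  · rw [← hP, ← hr]
    omega
  · rw [← hP]
    omega
  · have hA : (n + 1) * (k ^ 3 * ((G + 1) * m ^ 9)) ≤ 16 * 10 ^ 8 * n ^ 28 * N := by
      calc (n + 1) * (k ^ 3 * ((G + 1) * m ^ 9)) = (n + 1) * k ^ 3 * P * m ^ 8 := by
            rw [hP]
            ring
        _ ≤ (2 * n) * (2 * n) ^ 3 * N * (10 * n ^ 3) ^ 8 := by
            refine Nat.mul_le_mul (Nat.mul_le_mul (Nat.mul_le_mul (by omega) ?_) hPN)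
              (Nat.pow_le_pow_left hm10 8)
            rw [hk]
        _ = 16 * 10 ^ 8 * n ^ 28 * N := by ring
    have hB : 2 * (16 * 10 ^ 8 * n ^ 28 * N) ≤ N ^ 7 := by
      calc 2 * (16 * 10 ^ 8 * n ^ 28 * N) = 2 * (16 * 10 ^ 8) * (n ^ 28 * N) := by ring
        _ ≤ 256 ^ 6 * (n ^ 30 * N) := by
            refine Nat.mul_le_mul (by norm_num) (Nat.mul_le_mul_right _ ?_)
            exact Nat.pow_le_pow_right (by omega) (by norm_num)
        _ = (256 * n ^ 5) ^ 6 * N := by ring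
        _ ≤ N ^ 6 * N := Nat.mul_le_mul_right _ (Nat.pow_le_pow_left hN 6)
        _ = N ^ 7 := by ring
    have hnN : n ≤ N := by
      have h5 : n ≤ n ^ 5 := Nat.le_self_pow (by norm_num) n
      omega
    have hN6 : 12 ≤ N := by omega
    have hC : 2 * (n * (2 * ((G + 1) * m)) + (R * 2 + 2)) ≤ N ^ 7 := by
      rw [← hP]
      have h6 : R * 2 + 2 ≤ N := by omega
      calc 2 * (n * (2 * P) + (R * 2 + 2)) ≤ 2 * (N * (2 * N) + N) :=
            Nat.mul_le_mul_left 2 (Nat.add_le_add (Nat.mul_le_mul hnN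
              (Nat.mul_le_mul_left 2 hPN)) h6)
        _ ≤ N ^ 3 := by nlinarith [Nat.mul_le_mul hN6 (le_refl (N ^ 2)), sq_nonneg N]
        _ ≤ N ^ 7 := Nat.pow_le_pow_right (by omega) (by norm_num)
    omega

end NM2M

open NM2M in
theorem NM2_thm (h1 : S_NMB) : S_NM2 := by
  obtain ⟨N₀, hN₀⟩ := h1
  obtain ⟨N₁, hN₁⟩ := Filter.eventually_atTop.1 big_eventually
  refine ⟨1 / 480, by norm_num, max N₁ (16 * N₀ + 16), fun N hN => ?_⟩
  have hbig := hN₁ N ((le_max_left _ _).trans hN)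
  have hN2 : 16 * N₀ + 16 ≤ N := (le_max_right _ _).trans hN
  obtain ⟨h, hh, hcore⟩ := hN₀ (N / 16) (by omega)
  refine ⟨h, hh, fun n hn1 hn2 k R m hk hR hm => ?_⟩
  obtain ⟨c1, -, c3⟩ := hcore n hn1 hn2
  have hn5 : 5 ≤ n := by
    have h3 : 3 ^ 2 ≤ (h + 1) ^ 2 := Nat.pow_le_pow_left (by omega) 2
    omega
  have hRe : n * (2 * (2 * n) + 1) = R := by rw [hR, hk]
  rw [hRe] at c1
  obtain ⟨G, hG1, hG2, hG3, hG4⟩ := nat_part hn5 hk hR hm c1
  obtain ⟨e, M, he, hM, hM2, hl, hD⟩ := real_part hbig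
  refine ⟨G, hG1, hG2, hG3, hG4, e, M, ?_, hM2, hl, fun D hD' => ?_⟩
  · have h2 := (c3 (4 * e) 0 0 he (by simp) (by simp)).1
    have h3 : 2 * (4 * e) ^ 2 = 32 * e ^ 2 := by ring
    rw [h3] at h2
    have h4 : k + 1 ≤ 2 * k + 1 := by omega
    calc 8 * (32 * e ^ 2 + 2) ^ (4 * e) * (n * (k + 1))
        = 2 * (4 * (32 * e ^ 2 + 2) ^ (4 * e)) * (n * (k + 1)) := by ring
      _ ≤ 2 * n * (n * (2 * k + 1)) :=
          Nat.mul_le_mul (Nat.mul_le_mul_left 2 h2) (Nat.mul_le_mul_left n h4)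
      _ = m := by rw [hm, hR]; ring
  · have h2 := (c3 (4 * e) D M he (hD D hD') hM).2
    have h3 : 2 * (4 * e) ^ 2 = 32 * e ^ 2 := by ring
    rw [h3, ← hk] at h2
    exact h2

end Pool.Agent.ROA
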