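import Pool.Agent.ROA.Rank
import Pool.Agent.ROA.Stmts2

/-!
# The choice of the slice with few reads
-/

set_option autoImplicit false

universe u

namespace Pool.Agent.ROA

open Finset

namespace SLIM

/-- The sum of the numbers of the reads of all variables of an injective family with `p` is at most
the number of the layers with `p`. -/
theorem sum_count_le {Γ : Type u} {T Y : Type} [DecidableEq T] [Fintype Y] [DecidableEq Y]
    (key : Γ → T) (p : T → Bool) (x : Y → T) (hx : Function.Injective x)
    (hp : ∀ y, p (x y) = true) :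
    ∀ l : List Γ, ∑ y, (l.map key).count (x y) ≤ (l.filter fun a => p (key a)).length
  | [] => by simp
  | a :: l => by
    have ih := sum_count_le key p x hx hp l
    have h1 : ∑ y, ((a :: l).map key).count (x y) =
        ∑ y, (l.map key).count (x y) + ∑ y, (if key a = x y then 1 else 0) := by
      rw [← Finset.sum_add_distrib]
      refine Finset.sum_congr rfl fun y _ => ?_
      rw [List.map_cons, List.count_cons]
      congr 1
      by_cases h : key a = x y
      · rw [if_pos h, if_pos (by rw [h]; exact beq_self_eq_true _)]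
      · rw [if_neg h, if_neg (by simpa using h)]
    rw [h1]
    by_cases h : ∃ y, key a = x y
    · obtain ⟨y₀, hy₀⟩ := h
      have h2 : ∑ y, (if key a = x y then 1 else 0) = 1 := by
        rw [Finset.sum_eq_single y₀]
        · rw [if_pos hy₀]
        · intro y _ hy
          refine if_neg fun h => hy ?_
          exact hx (h.symm.trans hy₀)
        · intro h
          exact absurd (Finset.mem_univ _) h
      have h3 : p (key a) = true := by
        rw [hy₀]
        exact hp y₀
      rw [h2, List.filter_cons_of_pos (by simpa using h3), List.length_cons]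
      omega
    · have h2 : ∑ y, (if key a = x y then 1 else 0) = 0 :=
        Finset.sum_eq_zero fun y _ => if_neg fun hy => h ⟨y, hy⟩
      rw [h2]
      have h3 : (l.filter fun a => p (key a)).length ≤
          ((a :: l).filter fun a => p (key a)).length := by
        rw [List.filter_cons]
        split
        · simp
        · exact le_rfl
      omega

end SLIM

theorem SLI_thm (h1 : S_BLK.{u}) : S_SLI.{u} := by
  intro Γ T _ key p m G e s x l hx hp hG hl hs
  -- the slice
  have hsum := SLIM.sum_count_le key p (fun y : Fin G × Fin m => x y.1 y.2) hx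
    (fun y => hp y.1 y.2) l
  have h2 : ∃ g : Fin G, ∑ q, (l.map key).count (x g q) ≤ 2 * e * m := by
    by_contra hno
    push Not at hno
    have h3 : ∑ _g : Fin G, (2 * e * m + 1) ≤ ∑ g : Fin G, ∑ q, (l.map key).count (x g q) :=
      Finset.sum_le_sum fun g _ => hno g
    rw [← Fintype.sum_prod_type'
      (f := fun (g : Fin G) (q : Fin m) => (l.map key).count (x g q))] at h3
    simp only [Finset.sum_const, Finset.card_univ, Fintype.card_fin, smul_eq_mul] at h3
    have h4 : G * (2 * e * m + 1) = 2 * e * (G * m) + G := by ring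
    omega
  obtain ⟨g, hg⟩ := h2
  set Q : Finset (Fin m) := univ.filter fun q => (l.map key).count (x g q) ≤ 4 * e with hQ
  have h3 : (univ \ Q).card * (4 * e + 1) ≤ 2 * e * m := by
    calc (univ \ Q).card * (4 * e + 1) = ∑ _q ∈ univ \ Q, (4 * e + 1) := by
          rw [Finset.sum_const, smul_eq_mul]
      _ ≤ ∑ q ∈ univ \ Q, (l.map key).count (x g q) := by
          refine Finset.sum_le_sum fun q hq => ?_
          have : ¬ (l.map key).count (x g q) ≤ 4 * e := by
            intro h
            rw [Finset.mem_sdiff] at hq
            exact hq.2 (Finset.mem_filter.2 ⟨Finset.mem_univ _, h⟩)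
          omega
      _ ≤ ∑ q, (l.map key).count (x g q) :=
          Finset.sum_le_sum_of_subset (Finset.sdiff_subset)
      _ ≤ 2 * e * m := hg
  have h4 : (univ \ Q).card + Q.card = m := by
    rw [Finset.card_sdiff_add_card_eq_card (Finset.subset_univ Q), Finset.card_univ,
      Fintype.card_fin]
  have h5 : m ≤ 2 * Q.card := by
    by_contra hno
    push Not at hno
    have h6 : m + 1 ≤ 2 * (univ \ Q).card := by omega
    have h7 : (m + 1) * (4 * e + 1) ≤ 2 * (2 * e * m) := by
      calc (m + 1) * (4 * e + 1) ≤ 2 * (univ \ Q).card * (4 * e + 1) :=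
            Nat.mul_le_mul_right _ h6
        _ = 2 * ((univ \ Q).card * (4 * e + 1)) := by ring
        _ ≤ 2 * (2 * e * m) := Nat.mul_le_mul_left _ h3
    have h8 : (m + 1) * (4 * e + 1) = 2 * (2 * e * m) + (m + 4 * e + 1) := by ring
    omega
  have h6 : 2 * (4 * e) ^ 2 + 2 = 32 * e ^ 2 + 2 := by ring
  have h7 : 2 * (4 * e) ^ 2 + 1 = 32 * e ^ 2 + 1 := by ring
  let em : Fin Q.card ↪ Fin m := (Q.orderEmbOfFin rfl).toEmbedding
  have hem : ∀ i, em i ∈ Q := fun i => Finset.orderEmbOfFin_mem Q rfl i
  have hinj : Function.Injective fun i : Fin Q.card => x g (em i) := by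
    intro i j hij
    have := hx (a₁ := (g, em i)) (a₂ := (g, em j)) hij
    exact em.injective (Prod.ext_iff.1 this).2
  obtain ⟨L, A, B, hL, hlen, hd, hA, hB, hu⟩ := h1 Γ T key Q.card (4 * e) s
    (fun i => x g (em i)) l hinj
    (fun i => (Finset.mem_filter.1 (hem i)).2) (by
      rw [h6]
      have : 8 * (32 * e ^ 2 + 2) ^ (4 * e) * s = 2 * (4 * (32 * e ^ 2 + 2) ^ (4 * e) * s) := by
        ring
      omega)
  refine ⟨g, L, A.map em, B.map em, hL, by omega, ?_, ?_, ?_, ?_⟩
  · exact (Finset.disjoint_map em).2 hd
  · rwa [Finset.card_map]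
  · rwa [Finset.card_map]
  · intro u huL
    rcases hu u huL with h | h
    · left
      intro q hq
      obtain ⟨i, hi, rfl⟩ := Finset.mem_map.1 hq
      exact h i hi
    · right
      intro q hq
      obtain ⟨i, hi, rfl⟩ := Finset.mem_map.1 hq
      exact h i hi

end Pool.Agent.ROA
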