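import Pool.Agent.ROA.Rank
import Pool.Agent.ROA.Stmts2
import Pool.Agent.ROA.UNS

/-!
# Every assignment of the formula with slices hits a pattern: module UNS2
-/

set_option autoImplicit false

namespace Pool.Agent.ROA

open Finset

namespace UNS2M

variable {V : Type} [DecidableEq V] {k m G : ℕ}

/-- The restriction of an assignment to the slice `g`. -/
def slice (g : Fin G) (β : Var2 V k m G → Bool) : Var V k m → Bool
  | Sum.inl q => β (Sum.inl (g, q))
  | Sum.inr z => β (Sum.inr (Sum.inl z))

lemma hit_union {W : Type} [DecidableEq W] (s t : Finset (W × Bool)) (β : W → Bool) (hs : Hit s β)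
    (ht : Hit t β) : Hit (s ∪ t) β := by
  intro l hl
  rcases Finset.mem_union.1 hl with h | h
  · exact hs l h
  · exact ht l h

lemma place2_hit (g : Fin G) (β : Var2 V k m G → Bool) (r : Role V k) (v : Bool) (q : Fin m)
    (h : Hit (place r v q) (slice g β)) : Hit (place2 g r v q) β := by
  intro l hl
  have hl' : l = (Sum.inl (g, q), v) ∨ l = (Sum.inr (Sum.inl (r, q.castSucc)), true) ∨
      l = (Sum.inr (Sum.inl (r, q.succ)), false) := by
    simpa [place2] using hl
  rcases hl' with e | e | e
  · rw [e]
    exact h (Sum.inl q, v) (by simp [place])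
  · rw [e]
    exact h (Sum.inr (r, q.castSucc), true) (by simp [place])
  · rw [e]
    exact h (Sum.inr (r, q.succ), false) (by simp [place])

end UNS2M

open UNS2M in
theorem UNS2_thm (h1 : S_UNS) : S_UNS2 := by
  intro V _ _ k m G pr t lev hlev β
  by_cases hf0 : β (Sum.inr (Sum.inr 0)) = true
  · by_cases hfl : β (Sum.inr (Sum.inr (Fin.last G))) = false
    · obtain ⟨g, hg1, hg2⟩ := UNSM.step G (fun i => β (Sum.inr (Sum.inr i))) hf0 hfl
      have hslc : Hit (slc g : Finset (Var2 V k m G × Bool)) β := by
        intro l hl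
        have hl' : l = (Sum.inr (Sum.inr g.castSucc), true) ∨
            l = (Sum.inr (Sum.inr g.succ), false) := by
          simpa [slc] using hl
        rcases hl' with e | e
        · rw [e]; exact hg1
        · rw [e]; exact hg2
      obtain ⟨x, hx⟩ := h1 V k m pr t lev hlev (slice g β)
      rcases x with ⟨o, a, q⟩ | ⟨u, v, q⟩ | ⟨r, v⟩
      · refine ⟨Sum.inl (o, a, g, q), hit_union _ _ _ hslc ?_⟩
        intro l hl
        rw [mem_biUnion] at hl
        obtain ⟨i, -, hl⟩ := hl
        rw [mem_biUnion] at hl
        obtain ⟨j, -, hl⟩ := hl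
        refine place2_hit g β _ _ _ ?_ l hl
        intro l' hl'
        refine hx l' ?_
        rw [pat, mem_biUnion]
        exact ⟨i, mem_univ _, mem_biUnion.2 ⟨j, mem_univ _, hl'⟩⟩
      · exact ⟨Sum.inr (Sum.inl (u, v, g, q)),
          hit_union _ _ _ hslc (place2_hit g β _ _ _ hx)⟩
      · refine ⟨Sum.inr (Sum.inr (Sum.inl (r, v))), ?_⟩
        intro l hl
        have hl' : l = (Sum.inr (Sum.inl (r, if v then Fin.last m else 0)), v) := by
          simpa [pat2] using hl
        rw [hl']
        exact hx (Sum.inr (r, if v then Fin.last m else 0), v) (by simp [pat])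
    · refine ⟨Sum.inr (Sum.inr (Sum.inr true)), ?_⟩
      intro l hl
      have hl' : l = (Sum.inr (Sum.inr (Fin.last G)), true) := by
        simpa [pat2] using hl
      rw [hl']
      simpa using hfl
  · refine ⟨Sum.inr (Sum.inr (Sum.inr false)), ?_⟩
    intro l hl
    have hl' : l = (Sum.inr (Sum.inr 0), false) := by
      simpa [pat2] using hl
    rw [hl']
    simpa using hf0

end Pool.Agent.ROA
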