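import Pool.Agent.ROA.FIN2
import Pool.Agent.ROA.LOW
import Pool.Agent.ROA.UPA
import Pool.Agent.ROA.UPB
import Pool.Agent.ROA.UPR
import Pool.Agent.ROA.SUB
import Pool.Agent.ROA.COR
import Pool.Agent.ROA.EVL
import Pool.Agent.ROA.CUT
import Pool.Agent.ROA.IPS
import Pool.Agent.ROA.BLK
import Pool.Agent.ROA.SLI
import Pool.Agent.ROA.RES
import Pool.Agent.ROA.RES2
import Pool.Agent.ROA.UNS
import Pool.Agent.ROA.UNS2
import Pool.Agent.ROA.CNT
import Pool.Agent.ROA.CNT2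
import Pool.Agent.ROA.PYR
import Pool.Agent.ROA.DES
import Pool.Agent.ROA.NMA
import Pool.Agent.ROA.NMB
import Pool.Agent.ROA.NM2

/-!
# The lower bound
-/

set_option autoImplicit false

universe u

namespace Pool.Agent.ROA

theorem main3 : MainStatement3.{u} :=
  FIN2_thm EVL_thm CUT_thm IPS_thm (SLI_thm BLK_thm) (RES2_thm RES_thm) (UNS2_thm UNS_thm) CNT_thm
    CNT2_thm (COR_thm LOW_thm (UPR_thm UPA_thm UPB_thm) SUB_thm) PYR_thm DES_thm NMA_thm
    (NM2_thm NMB_thm)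

end Pool.Agent.ROA
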