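import Pool.Agent.ROA.Main2
import Pool.Agent.ROA.FIN3
import Pool.Agent.ROA.GLOW
import Pool.Agent.ROA.GEXP
import Pool.Agent.ROA.GUPR
import Pool.Agent.ROA.GDUA
import Pool.Agent.ROA.GCOR
import Pool.Agent.ROA.GRES
import Pool.Agent.ROA.GUNS
import Pool.Agent.ROA.GCNT
import Pool.Agent.ROA.GN1
import Pool.Agent.ROA.GN2
import Pool.Agent.ROA.GN3

/-!
# The lifting theorem
-/

set_option autoImplicit false

universe u

namespace Pool.Agent.ROA

theorem lift : LiftStatement.{u} :=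
  FIN3_thm EVL_thm CUT_thm IPS_thm (SLI_thm BLK_thm) SUB_thm CNT2_thm GRES_thm GUNS_thm GCNT_thm
    GCOR_thm GDUA_thm GLOW_thm (GUPR_thm GEXP_thm) GN1_thm GN2_thm GN3_thm

end Pool.Agent.ROA
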