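import Pool.Agent.ROA.Stmts

/-!
# Calculus of `RankLE`
-/

set_option autoImplicit false

universe u

namespace Pool.Agent.ROA

open Finset

variable {K : Type u} [Field K] {X Y : Type}

theorem RankLE.of_fintype {w : ℕ} {M : X → Y → K} (ι : Type*) [Fintype ι]
    (hw : Fintype.card ι ≤ w) (α : X → ι → K) (γ : Y → ι → K)
    (h : ∀ x y, M x y = ∑ i, α x i * γ y i) : RankLE w M := by
  obtain ⟨e⟩ : Nonempty (ι ↪ Fin w) := by
    rw [Function.Embedding.nonempty_iff_card_le]
    simpa using hw
  classical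
  refine ⟨fun x j => if hj : ∃ i, e i = j then α x hj.choose else 0,
    fun y j => if hj : ∃ i, e i = j then γ y hj.choose else 0, fun x y => ?_⟩
  rw [h]
  have h1 : ∀ i, (if hj : ∃ i', e i' = e i then α x hj.choose else 0) *
      (if hj : ∃ i', e i' = e i then γ y hj.choose else 0) = α x i * γ y i := by
    intro i
    have hj : ∃ i', e i' = e i := ⟨i, rfl⟩
    rw [dif_pos hj, dif_pos hj, e.injective hj.choose_spec]
  rw [← Finset.sum_subset (Finset.subset_univ (univ.map e))]
  · rw [Finset.sum_map]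
    exact Finset.sum_congr rfl fun i _ => (h1 i).symm
  · intro j _ hj
    have : ¬ ∃ i, e i = j := by
      rintro ⟨i, rfl⟩
      exact hj (Finset.mem_map_of_mem _ (Finset.mem_univ i))
    beta_reduce
    rw [dif_neg this, zero_mul]

theorem RankLE.mono {w w' : ℕ} {M : X → Y → K} (hM : RankLE w M) (h : w ≤ w') : RankLE w' M := by
  obtain ⟨α, γ, hM⟩ := hM
  exact RankLE.of_fintype (Fin w) (by simpa using h) α γ hM

theorem RankLE.congr {w : ℕ} {M M' : X → Y → K} (hM : RankLE w M) (h : ∀ x y, M' x y = M x y) :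
    RankLE w M' := by
  obtain ⟨α, γ, hM⟩ := hM
  exact ⟨α, γ, fun x y => by rw [h, hM]⟩

theorem RankLE.zero (w : ℕ) : RankLE w (fun (_ : X) (_ : Y) => (0 : K)) :=
  ⟨fun _ _ => 0, fun _ _ => 0, fun _ _ => by simp⟩

/-- A product of a function of `x` and a function of `y`. -/
theorem RankLE.one (f : X → K) (g : Y → K) : RankLE 1 (fun x y => f x * g y) :=
  ⟨fun x _ => f x, fun y _ => g y, fun x y => by simp⟩

theorem RankLE.const (c : K) : RankLE 1 (fun (_ : X) (_ : Y) => c) :=
  (RankLE.one (fun _ => c) (fun _ => 1)).congr fun _ _ => by simp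

/-- Multiplication with a function of `x` and a function of `y`. -/
theorem RankLE.scale {w : ℕ} {M : X → Y → K} (hM : RankLE w M) (f : X → K) (g : Y → K) :
    RankLE w (fun x y => f x * g y * M x y) := by
  obtain ⟨α, γ, hM⟩ := hM
  refine ⟨fun x i => f x * α x i, fun y i => g y * γ y i, fun x y => ?_⟩
  beta_reduce
  rw [hM, Finset.mul_sum]
  exact Finset.sum_congr rfl fun i _ => by ring

theorem RankLE.smul {w : ℕ} {M : X → Y → K} (hM : RankLE w M) (c : K) :
    RankLE w (fun x y => c * M x y) :=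
  (hM.scale (fun _ => c) (fun _ => 1)).congr fun _ _ => by simp

/-- Reindexing. -/
theorem RankLE.comp {X' Y' : Type} {w : ℕ} {M : X → Y → K} (hM : RankLE w M) (f : X' → X)
    (g : Y' → Y) : RankLE w (fun x y => M (f x) (g y)) := by
  obtain ⟨α, γ, hM⟩ := hM
  exact ⟨fun x => α (f x), fun y => γ (g y), fun x y => hM _ _⟩

theorem RankLE.add {w w' : ℕ} {M M' : X → Y → K} (hM : RankLE w M) (hM' : RankLE w' M') :
    RankLE (w + w') (fun x y => M x y + M' x y) := by
  obtain ⟨α, γ, hM⟩ := hM
  obtain ⟨α', γ', hM'⟩ := hM'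
  refine RankLE.of_fintype (Fin w ⊕ Fin w') (by simp)
    (fun x => Sum.elim (α x) (α' x)) (fun y => Sum.elim (γ y) (γ' y)) fun x y => ?_
  rw [hM, hM', Fintype.sum_sum_type]
  simp

theorem RankLE.mul {w w' : ℕ} {M M' : X → Y → K} (hM : RankLE w M) (hM' : RankLE w' M') :
    RankLE (w * w') (fun x y => M x y * M' x y) := by
  obtain ⟨α, γ, hM⟩ := hM
  obtain ⟨α', γ', hM'⟩ := hM'
  refine RankLE.of_fintype (Fin w × Fin w') (by simp)
    (fun x i => α x i.1 * α' x i.2) (fun y i => γ y i.1 * γ' y i.2) fun x y => ?_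
  rw [hM, hM', Finset.sum_mul_sum, Fintype.sum_prod_type]
  exact Finset.sum_congr rfl fun i _ => Finset.sum_congr rfl fun j _ => by ring

theorem RankLE.sum {ι : Type*} (s : Finset ι) {w : ℕ} {M : ι → X → Y → K}
    (hM : ∀ i ∈ s, RankLE w (M i)) : RankLE (s.card * w) (fun x y => ∑ i ∈ s, M i x y) := by
  classical
  induction s using Finset.induction_on with
  | empty => exact (RankLE.zero _).congr fun _ _ => by simp
  | insert i s hi ih =>
    have h1 := (hM i (Finset.mem_insert_self i s)).add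
      (ih fun j hj => hM j (Finset.mem_insert_of_mem hj))
    rw [Finset.card_insert_of_notMem hi, Nat.succ_mul, Nat.add_comm]
    exact h1.congr fun x y => by rw [Finset.sum_insert hi]

/-- Multiplication from the right with a matrix. -/
theorem RankLE.mulRight {Z : Type} [Fintype Y] {w : ℕ} {M : X → Y → K} (hM : RankLE w M)
    (L : Y → Z → K) : RankLE w (fun x z => ∑ y, M x y * L y z) := by
  obtain ⟨α, γ, hM⟩ := hM
  refine ⟨α, fun z i => ∑ y, γ y i * L y z, fun x z => ?_⟩
  simp_rw [hM, Finset.sum_mul, Finset.mul_sum]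
  rw [Finset.sum_comm]
  exact Finset.sum_congr rfl fun i _ => Finset.sum_congr rfl fun y _ => by ring

/-- The identity matrix has full rank. -/
theorem RankLE.card_le [Fintype X] [DecidableEq X] {w : ℕ}
    (h : RankLE w (fun x y : X => if x = y then (1 : K) else 0)) : Fintype.card X ≤ w := by
  obtain ⟨α, γ, hM⟩ := h
  have h1 : (Matrix.of α) * (Matrix.of fun i y => γ y i) = (1 : Matrix X X K) := by
    ext x y
    rw [Matrix.mul_apply, Matrix.one_apply]
    exact (hM x y).symm
  have h2 : (1 : Matrix X X K).rank ≤ w := by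
    rw [← h1]
    calc _ ≤ (Matrix.of α).rank := Matrix.rank_mul_le_left _ _
      _ ≤ Fintype.card (Fin w) := Matrix.rank_le_card_width _
      _ = w := by simp
  rwa [Matrix.rank_one] at h2

end Pool.Agent.ROA
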