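import Pool.Agent.ROA.Defs

/-!
# Statements of the modules

Proof outline. Let the oblivious program of width `w` read each variable of the array at most `e`
times (the other variables are read without limits). By pigeonhole (`S_BLK`) there are disjoint sets
`A`, `B` of positions of the array and a partition of the program in at most `2 e ^ 2 + 1` blocks such
that no block reads both `A` and `B`. Put the cells in `A` and the chain bits in `B`: every value of
the program is a matrix in `(b, a)` of rank at most `w ^ (2 e ^ 2 + 2)` (`S_CUT`). By `S_IPS` the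
refutation gives `∑ [all clauses of S false] g_S = 1` with such matrices `g_S`. The matrix
`mat k r` has rank at least `(k - 1) ^ n` (`S_LOW`), and its restriction to the places where a given
clause is false has rank at most `choose n d * k ^ (n - d - 1)` (`S_UPR`).
-/

set_option autoImplicit false

universe u

namespace Pool.Agent.ROA

open Finset

/-! ### Rank -/

/-- Module LOW. The lifted function has rank at least `(k - 1) ^ n`: restrict the rows to `b` with
all values `< k - 1`, multiply from the right with `∏ x, ([a x = a' x] - [a x = k - 1])`, for `a'`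
with all values `< k - 1`: the term of `U` vanishes unless `U = ∅`, and the result is the identity
matrix. -/
def S_LOW : Prop := ∀ (K : Type u) [Field K] (V : Type) [Fintype V] [DecidableEq V] (k w : ℕ)
  (r : Finset V → K), 1 ≤ k → r ∅ = 1 → RankLE w (mat k r) → (k - 1) ^ Fintype.card V ≤ w

/-- Module UPA. The function on the forbidden patterns. If `z t = 1` then all terms vanish. If
`z w = 0` and `z = 1` on the predecessors of `w`: pair the sets `U` and `insert w U`, `w ∉ U`; their
sum is `(r (insert w U) - r U) * ∏ x ∉ insert w U, (z x - 1)`; this is `0` for `U.card < d` (if a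
predecessor `q` is not in `U` then the product is `0`, otherwise use `Design.move`) and for
`d < U.card`. -/
def S_UPA : Prop := ∀ (K : Type u) [Field K] (V : Type) [Fintype V] [DecidableEq V]
  (pr : V → Option (V × V)) (t : V) (d : ℕ) (r : Finset V → K), Design pr t d r →
  (∀ u q, pr u = some q → q.1 ≠ u ∧ q.2 ≠ u) → ∀ z : V → K,
  (z t = 1 → phi r z = 0) ∧ ∀ w, z w = 0 → (∀ q, pr w = some q → z q.1 = 1 ∧ z q.2 = 1) →
    phi r z = - ∑ U ∈ powersetCard d (univ.erase w), r U * ∏ x ∈ (insert w U)ᶜ, (z x - 1)

/-- Module UPB. A product over `T` depends only on `b` restricted to `T`. -/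
def S_UPB : Prop := ∀ (K : Type u) [Field K] (V : Type) [Fintype V] [DecidableEq V] (k : ℕ)
  (T : Finset V),
  RankLE (k ^ T.card) fun b a : V → Fin k => ∏ x ∈ T, ((if a x = b x then (1 : K) else 0) - 1)

/-- Module UPR (from UPA and UPB, with the calculus of `Rank.lean`). -/
def S_UPR : Prop := ∀ (K : Type u) [Field K] (V : Type) [Fintype V] [DecidableEq V]
  (pr : V → Option (V × V)) (t : V) (d k : ℕ) (r : Finset V → K), Design pr t d r →
  (∀ u q, pr u = some q → q.1 ≠ u ∧ q.2 ≠ u) → d + 1 ≤ Fintype.card V →
  ∀ (o : Option V) (α : Fin 3 → Fin k),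
  RankLE ((Fintype.card V).choose d * k ^ (Fintype.card V - d - 1))
    fun b a => if Cond pr t o α b a then mat k r b a else 0

/-- Module SUB. The number of subsets of `R` with at most `D` elements. -/
def S_SUB : Prop := ∀ (ι : Type) [DecidableEq ι] (R : Finset ι) (D : ℕ),
  (R.powerset.filter fun S => S.card ≤ D).card ≤ (R.card + 1) ^ D

/-- Module COR (from LOW, UPR, SUB, with the calculus of `Rank.lean`). Multiply the identity by
`mat k r`. A set `S` which is not a subset of `R` does not contribute; otherwise take one clause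
`C ∈ S`; the condition that the other clauses of `S` are false is a product of a condition on `b` and
a condition on `a`. -/
def S_COR : Prop := ∀ (K : Type u) [Field K] (V : Type) [Fintype V] [DecidableEq V]
  (pr : V → Option (V × V)) (t : V) (d k : ℕ) (r : Finset V → K), Design pr t d r →
  (∀ u q, pr u = some q → q.1 ≠ u ∧ q.2 ≠ u) → d + 1 ≤ Fintype.card V → 1 ≤ k →
  ∀ (ι : Type) [Fintype ι] [DecidableEq ι] (fal : ι → (V → Fin k) → (V → Fin k) → Prop)
  [∀ c b a, Decidable (fal c b a)] (R : Finset ι) (D w : ℕ)
  (g : Finset ι → (V → Fin k) → (V → Fin k) → K),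
  (∀ c ∉ R, ∀ b a, ¬ fal c b a) →
  (∀ c ∈ R, ∃ (o : Option V) (α : Fin 3 → Fin k), ∀ b a, fal c b a ↔ Cond pr t o α b a) →
  (∀ S : Finset ι, S.card ≤ D → RankLE w (g S)) →
  (∀ b a, (∑ S ∈ univ.filter (fun S : Finset ι => S.Nonempty ∧ S.card ≤ D),
    if ∀ c ∈ S, fal c b a then g S b a else 0) = 1) →
  (k - 1) ^ Fintype.card V ≤
    (R.card + 1) ^ D * (w * ((Fintype.card V).choose d * k ^ (Fintype.card V - d - 1)))

/-! ### The program -/

/-- Module EVL. The value of the polynomial is the value of the program. -/
def S_EVL : Prop := ∀ (K : Type u) [Field K] (T : Type) (w : ℕ) (P : OABP K T w) (τ : T → K),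
  MvPolynomial.eval τ P.poly = P.val τ

/-- Module CUT. If the layers are divided in blocks and the points `τ b a` are, on the variables of
each block, independent of `a` or independent of `b`, then the rank is small: by induction on the
number `j` of blocks, the entries of the row times the product of the first `j` blocks have rank at
most `w ^ j`. -/
def S_CUT : Prop := ∀ (K : Type u) [Field K] (T : Type) (w : ℕ) (P : OABP K T w)
  (L : List (List (T × Matrix (Fin w) (Fin w) (Polynomial K)))) (X Y : Type) (τ : X → Y → T → K),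
  L.flatten = P.layers →
  (∀ u ∈ L, (∀ l ∈ u, ∀ b a a', τ b a l.1 = τ b a' l.1) ∨
    (∀ l ∈ u, ∀ b b' a, τ b a l.1 = τ b' a l.1)) →
  RankLE (w ^ (L.length + 1)) fun b a => P.val (τ b a)

/-- Module IPS. The functional identity. A monomial of `Q` without variables `z` has a set `S₀` of
variables of clauses, `S₀.card ≤ D`; its value at `point b T` is `c * [S₀ ⊆ T]`; so its contribution
to `coef ... S` is `c * [S = S₀]`. The sum over all `S` contained in the set of false clauses is
`Q(b, f(b), 0) = 1`, and the term of `S = ∅` is `Q(b, 0, 0) = 0`. -/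
def S_IPS : Prop := ∀ (K : Type u) [Field K] (W : Type) [Fintype W] [DecidableEq W] (D : ℕ)
  (F : Finset (Finset (W × Bool))) (Q : MvPolynomial (W ⊕ (F ⊕ W)) K), IsRefutation D F Q →
  ∀ b : W → Bool, (∑ S ∈ univ.filter (fun S : Finset F => S.Nonempty ∧ S.card ≤ D),
    if ∀ c ∈ S, IsFalse c.1 b then coef (fun T => MvPolynomial.eval (point K b T) Q) S else 0) = 1

/-- Module BLK. Pigeonhole. Divide the list in at most `r = 2 e ^ 2 + 1` blocks, each with at most
`e m / r + 1` places of the keys `x q`. Each `q` has a type, the set of the blocks with `x q`, at most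
`e` blocks; there are at most `(r + 1) ^ e` types. `A`: `s` elements of the most popular type `T₁`.
At least half of the `q` have types disjoint from `T₁`; remove `A`; `B`: `s` elements of the most
popular type among the others. -/
def S_BLK : Prop := ∀ (G : Type u) (T : Type) [DecidableEq T] (key : G → T) (m e s : ℕ)
  (x : Fin m → T) (l : List G), Function.Injective x → (∀ q, (l.map key).count (x q) ≤ e) →
  4 * (2 * e ^ 2 + 2) ^ e * s ≤ m →
  ∃ (L : List (List G)) (A B : Finset (Fin m)), L.flatten = l ∧ L.length ≤ 2 * e ^ 2 + 1 ∧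
    Disjoint A B ∧ s ≤ A.card ∧ s ≤ B.card ∧
    ∀ u ∈ L, (∀ q ∈ A, x q ∉ u.map key) ∨ (∀ q ∈ B, x q ∉ u.map key)

/-! ### The formula -/

/-- Module RES. Which patterns are hit by `full pos b a`: a lifted pattern only with the true
positions of its roles, and then iff `Cond`; the other ones never. -/
def S_RES : Prop := ∀ (V : Type) [Fintype V] [DecidableEq V] (k m : ℕ)
  (pr : V → Option (V × V)) (t : V) (pos : Role V k → Fin m), Function.Injective pos →
  ∀ b a : V → Fin k,
  (∀ o α q, Hit (pat pr t (Sum.inl (o, α, q))) (full pos b a) ↔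
    (∀ i j, q i j = pos (rp pr t o α i j).1) ∧ Cond pr t o α b a) ∧
  ∀ x, ¬ Hit (pat pr t (Sum.inr x)) (full pos b a)

/-- Module UNS. Every assignment of the formula hits a pattern: otherwise each selector points to a
position (the ends of its chain), so each role has a value, each chain of a vertex points to a cell,
so each vertex has a value, and the values of the vertices hit no pattern of the pebbling formula; by
induction on the level all values are true, but the value of the sink is false. -/
def S_UNS : Prop := ∀ (V : Type) [Fintype V] [DecidableEq V] (k m : ℕ)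
  (pr : V → Option (V × V)) (t : V) (lev : V → ℕ),
  (∀ u q, pr u = some q → lev q.1 < lev u ∧ lev q.2 < lev u) →
  ∀ β : Var V k m → Bool, ∃ x, Hit (pat pr t x) β

/-- Module CNT. Numbers: the width of the patterns, the variables, the patterns, the vertices. -/
def S_CNT : Prop :=
  (∀ (V : Type) [Fintype V] [DecidableEq V] (k m : ℕ) (pr : V → Option (V × V)) (t : V)
    (x : Idx V k m), (pat pr t x).card ≤ 27) ∧
  (∀ (V : Type) [Fintype V] (k m : ℕ), Fintype.card (Role V k) = Fintype.card V * (2 * k + 1) ∧
    Fintype.card (Var V k m) = m + Fintype.card V * (2 * k + 1) * (m + 1) ∧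
    Fintype.card (Idx V k m) = (Fintype.card V + 1) * (k ^ 3 * m ^ 9) +
      (Fintype.card V * (2 * m) + Fintype.card V * (2 * k + 1) * 2)) ∧
  ∀ h : ℕ, (h + 1) ^ 2 ≤ 2 * Fintype.card (Pyr h) ∧ Fintype.card (Pyr h) ≤ (h + 1) ^ 2

/-! ### Pebbling -/

/-- Module PYR. With at most `h` pebbles the sink of the pyramid of height `h` is not reached. Call
`U` blocked if each path from a source to the sink (through levels `0, ..., h`, each vertex a
predecessor of the next one) meets `U`. `∅` is not blocked, sets with the sink are blocked. Consider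
the first blocked configuration `insert w U`: there is a path `p 0, ..., p h` free of `U`, so `w` is
on this path, and it is `p 0` (otherwise its predecessors are in `U`). For `i = 1, ..., h` let `o i`
be the predecessor of `p i` different from `p (i - 1)`, and let `D i` be the diagonal from `o i` down
to level `0` leading away from the path; the path through `D i` and `p i, ..., p h` meets
`insert w U`, so `D i` meets `U`. The `D i` are disjoint: those on the right side
(`o i = (i - 1, j + 1)` with `p i = (i, j)`, vertices `(i', j')` with `i' + j' = i + j`, `i' < i`) and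
those on the left side (`o i = (i - 1, j)`, vertices `(i', j)`, `i' < i`), and they do not contain
`p 0`. So `h + 1 ≤ (insert w U).card ≤ h`. -/
def S_PYR : Prop := ∀ (h : ℕ) (U : Finset (Pyr h)), Reach (pyrPred h) h U → pyrSink h ∉ U

/-- Module DES. The indicator of the reachable sets is a design. -/
def S_DES : Prop := ∀ (K : Type u) [Field K] (V : Type) [DecidableEq V]
  (pr : V → Option (V × V)) (t : V) (d : ℕ), (∀ U, Reach pr d U → t ∉ U) →
  ∃ r : Finset V → K, Design pr t d r

/-! ### Numbers -/

/-- Module NMA. Bernoulli: `(2 n) ^ n ≤ 2 (2 n - 1) ^ n`. -/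
def S_NMA : Prop := ∀ n h A : ℕ, h + 1 ≤ n → A < 2 ^ h * n →
  A * (n.choose h * (2 * n) ^ (n - h - 1)) < (2 * n - 1) ^ n

/-- Module NMB. The largest `h` with `35 (h + 1) ^ 10 ≤ N`. -/
def S_NMB : Prop := ∃ N₀ : ℕ, ∀ N ≥ N₀, ∃ h : ℕ, 2 ≤ h ∧ ∀ n : ℕ, (h + 1) ^ 2 ≤ 2 * n →
  n ≤ (h + 1) ^ 2 →
  n * (n * (2 * (2 * n) + 1)) + n * (2 * (2 * n) + 1) * (n * (n * (2 * (2 * n) + 1)) + 1) ≤ N ∧
  (n + 1) * ((2 * n) ^ 3 * (n * (n * (2 * (2 * n) + 1))) ^ 9) +
    (n * (2 * (n * (n * (2 * (2 * n) + 1)))) + n * (2 * (2 * n) + 1) * 2) ≤ N ^ 7 ∧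
  ∀ e D M : ℕ, e ^ (30 * e) ≤ N → D ^ 12 ≤ N → M ^ 12 ≤ N →
    4 * (2 * e ^ 2 + 2) ^ e ≤ n ∧
    ((n + 1) * (2 * n) ^ 3 + 1) ^ D * (2 ^ D * (2 ^ M) ^ (2 * e ^ 2 + 2)) < 2 ^ h * n

/-! ### The theorem -/

/-- The final theorem. -/
def MainStatement : Prop := ∃ N₀ : ℕ, ∀ N ≥ N₀, ∃ F : Finset (Finset (Fin N × Bool)),
  (∀ c ∈ F, c.card ≤ 27) ∧ F.card ≤ N ^ 7 ∧ (∀ b, ∃ c ∈ F, IsFalse c b) ∧
  ∀ (K : Type u) [Field K] (w e D M : ℕ) (P : OABP K (Fin N ⊕ (F ⊕ Fin N)) w),
    (∀ x : Fin N, P.reads (Sum.inl x) ≤ e) → e ^ (30 * e) ≤ N → D ^ 12 ≤ N → M ^ 12 ≤ N →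
    IsRefutation D F P.poly → 2 ^ M < w

end Pool.Agent.ROA
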